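import Mathlib

/-!
# Centralisers in `GL₃(𝔽₂)` of `3 × 3` matrices over `𝔽₂` are nontrivial
-/

namespace Pool.Agent.R717.Commute2

open Matrix

def z2 : List (ZMod 2) := [0, 1]

def mm (a b c d e f g h i a' b' c' d' e' f' g' h' i' : ZMod 2) : Bool :=
  (decide (a*b'+b*e'+c*h' = a'*b+b'*e+c'*h) && (decide (d*a'+e*d'+f*g' = d'*a+e'*d+f'*g) &&
  (decide (a*a'+b*d'+c*g' = a'*a+b'*d+c'*g) &&
  (decide (a*c'+b*f'+c*i' = a'*c+b'*f+c'*i) &&
  (decide (d*b'+e*e'+f*h' = d'*b+e'*e+f'*h) && (decide (d*c'+e*f'+f*i' = d'*c+e'*f+f'*i) &&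
  (decide (g*a'+h*d'+i*g' = g'*a+h'*d+i'*g) && (decide (g*b'+h*e'+i*h' = g'*b+h'*e+i'*h) &&
  (decide (g*c'+h*f'+i*i' = g'*c+h'*f+i'*i) &&
  (decide (a' * (e' * i' - f' * h') - b' * (d' * i' - f' * g') + c' * (d' * h' - e' * g') = 1) &&
  !(decide (a' = 1) && decide (b' = 0) && decide (c' = 0) && decide (d' = 0) && decide (e' = 1) &&
    decide (f' = 0) && decide (g' = 0) && decide (h' = 0) && decide (i' = 1))))))))))))

def chk (a b c d e f g h i : ZMod 2) : Bool :=
  z2.any fun a' => z2.any fun b' => z2.any fun c' => z2.any fun d' => z2.any fun e' =>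
    z2.any fun f' => z2.any fun g' => z2.any fun h' => z2.any fun i' =>
      mm a b c d e f g h i a' b' c' d' e' f' g' h' i'

def chkall : Bool :=
  z2.all fun a' => z2.all fun b' => z2.all fun c' => z2.all fun d' => z2.all fun e' =>
    z2.all fun f' => z2.all fun g' => z2.all fun h' => z2.all fun i' =>
      chk a' b' c' d' e' f' g' h' i'

set_option maxRecDepth 100000 in
theorem chkall_eq : chkall = true := by
  decide +kernel

lemma mem_z2 : ∀ x : ZMod 2, x ∈ z2 := by
  decide

/-- Every `3 × 3` matrix over the field with two elements commutes with an invertible matrix other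
than the identity. -/
lemma exists_commute (B : Matrix (Fin 3) (Fin 3) (ZMod 2)) :
    ∃ s : Matrix (Fin 3) (Fin 3) (ZMod 2), s ≠ 1 ∧ s * B = B * s ∧ s.det = 1 := by
  have h := chkall_eq
  simp only [chkall, List.all_eq_true] at h
  have h1 := h (B 0 0) (mem_z2 _) (B 0 1) (mem_z2 _) (B 0 2) (mem_z2 _) (B 1 0) (mem_z2 _)
    (B 1 1) (mem_z2 _) (B 1 2) (mem_z2 _) (B 2 0) (mem_z2 _) (B 2 1) (mem_z2 _) (B 2 2) (mem_z2 _)
  simp only [chk, List.any_eq_true] at h1
  obtain ⟨a', -, b', -, c', -, d', -, e', -, f', -, g', -, h', -, i', -, h2⟩ := h1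
  simp only [mm, Bool.and_eq_true, decide_eq_true_eq, Bool.not_eq_true', Bool.and_eq_false_iff,
    decide_eq_false_iff_not] at h2
  obtain ⟨e1, e2, e3, e4, e5, e6, e7, e8, e9, e10, e11⟩ := h2
  refine ⟨!![a', b', c'; d', e', f'; g', h', i'], ?_, ?_, ?_⟩
  · intro hs
    have k00 := congrFun (congrFun hs 0) 0
    have k01 := congrFun (congrFun hs 0) 1
    have k02 := congrFun (congrFun hs 0) 2
    have k10 := congrFun (congrFun hs 1) 0
    have k11 := congrFun (congrFun hs 1) 1
    have k12 := congrFun (congrFun hs 1) 2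
    have k20 := congrFun (congrFun hs 2) 0
    have k21 := congrFun (congrFun hs 2) 1
    have k22 := congrFun (congrFun hs 2) 2
    simp at k00 k01 k02 k10 k11 k12 k20 k21 k22
    simp_all
  · have hB : B = !![B 0 0, B 0 1, B 0 2; B 1 0, B 1 1, B 1 2; B 2 0, B 2 1, B 2 2] := by
      ext x y
      fin_cases x <;> fin_cases y <;> rfl
    generalize B 0 0 = a at *
    generalize B 0 1 = b at *
    generalize B 0 2 = c at *
    generalize B 1 0 = d at *
    generalize B 1 1 = e at *
    generalize B 1 2 = f at *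
    generalize B 2 0 = g at *
    generalize B 2 1 = h at *
    generalize B 2 2 = i at *
    rw [hB]
    ext x y
    fin_cases x <;> fin_cases y <;>
      simp [Matrix.mul_apply, Fin.sum_univ_three, e1, e2, e3, e4, e5, e6, e7, e8, e9] 
  · rw [Matrix.det_fin_three]
    simp
    linear_combination e10

end Pool.Agent.R717.Commute2
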