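import Mathlib

/-!
# General lemmas on complex representations of finite groups

Irreducibility is used in the elementary form: every invariant subspace is `⊥` or `⊤`.
-/

namespace Pool.Agent.R717.RepGen

open Module

variable {G : Type*} [Group G] {V : Type*} [AddCommGroup V] [Module ℂ V]

/-- The span of the orbit of a nonzero vector is everything. -/
lemma span_orbit_eq_top (ρ : Representation ℂ G V)
    (hirr : ∀ W : Submodule ℂ V, (∀ g v, v ∈ W → ρ g v ∈ W) → W = ⊥ ∨ W = ⊤)
    {v : V} (hv : v ≠ 0) : Submodule.span ℂ (Set.range fun g : G => ρ g v) = ⊤ := by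
  have h := hirr (Submodule.span ℂ (Set.range fun g : G => ρ g v)) ?_
  · rcases h with h | h
    · exfalso
      have hmem : v ∈ Submodule.span ℂ (Set.range fun g : G => ρ g v) :=
        Submodule.subset_span ⟨1, by simp⟩
      rw [h, Submodule.mem_bot] at hmem
      exact hv hmem
    · exact h
  · intro g w hw
    have h2 : Submodule.span ℂ (Set.range fun g : G => ρ g v) ≤
        (Submodule.span ℂ (Set.range fun g : G => ρ g v)).comap (ρ g) := by
      rw [Submodule.span_le]
      rintro _ ⟨x, rfl⟩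
      refine Submodule.subset_span ⟨g * x, ?_⟩
      simp [map_mul]
    exact h2 hw

/-- An irreducible representation with a line stable under `S` has dimension at most the index
of `S`. -/
lemma finrank_le_index (ρ : Representation ℂ G V)
    (hirr : ∀ W : Submodule ℂ V, (∀ g v, v ∈ W → ρ g v ∈ W) → W = ⊥ ∨ W = ⊤)
    {v : V} (hv : v ≠ 0) (S : Subgroup G) [Finite (G ⧸ S)]
    (hS : ∀ s ∈ S, ∃ c : ℂ, ρ s v = c • v) : finrank ℂ V ≤ S.index := by
  classical
  have : Fintype (G ⧸ S) := Fintype.ofFinite _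
  have hspan := span_orbit_eq_top ρ hirr hv
  let b : G ⧸ S → V := fun q => ρ q.out v
  have hle : (⊤ : Submodule ℂ V) ≤ Submodule.span ℂ (Set.range b) := by
    rw [← hspan, Submodule.span_le]
    rintro _ ⟨g, rfl⟩
    have h1 : (QuotientGroup.mk g : G ⧸ S).out⁻¹ * g ∈ S := by
      rw [← QuotientGroup.eq]
      exact Quotient.out_eq' _
    obtain ⟨c, hc⟩ := hS _ h1
    have h2 : ρ g v = c • b (QuotientGroup.mk g) := by
      have : g = (QuotientGroup.mk g : G ⧸ S).out * ((QuotientGroup.mk g : G ⧸ S).out⁻¹ * g) := by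
        group
      conv_lhs => rw [this]
      rw [map_mul, Module.End.mul_apply, hc, map_smul]
    change ρ g v ∈ _
    rw [h2]
    exact Submodule.smul_mem _ _ (Submodule.subset_span ⟨_, rfl⟩)
  have htop : Submodule.span ℂ (Set.range b) = ⊤ := top_le_iff.mp hle
  have h3 : (Set.range b).finrank ℂ ≤ Fintype.card (G ⧸ S) := finrank_range_le_card b
  rw [Set.finrank, htop, finrank_top] at h3
  rw [Subgroup.index, Nat.card_eq_fintype_card]
  exact h3

/-- If `v` is an eigenvector of the normal subgroup `K` with character `ψ`, and the stabiliser of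
`ψ` is contained in `S`, then the dimension is at least the index of `S`. -/
lemma index_le_finrank (ρ : Representation ℂ G V) [FiniteDimensional ℂ V]
    {v : V} (hv : v ≠ 0) (K : Subgroup G) [K.Normal] (ψ : K →* ℂ)
    (hK : ∀ k : K, ρ (k : G) v = ψ k • v) (S : Subgroup G) [Finite (G ⧸ S)]
    (hS : ∀ g : G, (∀ k : K, ψ (MulAut.conjNormal g⁻¹ k) = ψ k) → g ∈ S) :
    S.index ≤ finrank ℂ V := by
  classical
  have : Fintype (G ⧸ S) := Fintype.ofFinite _
  let b : G ⧸ S → V := fun q => ρ q.out v
  let Ψ : G ⧸ S → (K →* ℂ) := fun q => ψ.comp (MulAut.conjNormal (q.out)⁻¹ : K ≃* K).toMonoidHom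
  have hΨ : Function.Injective Ψ := by
    intro q r hqr
    have h1 : (q.out)⁻¹ * r.out ∈ S := by
      have h2 : ∀ k : K, ψ (MulAut.conjNormal (r.out⁻¹ * q.out) k) = ψ k := by
        intro k
        have h3 := DFunLike.congr_fun hqr (MulAut.conjNormal (q.out) k)
        simp only [Ψ, MonoidHom.comp_apply, MulEquiv.toMonoidHom_eq_coe, MonoidHom.coe_coe] at h3
        rw [← MulAut.mul_apply, ← map_mul, ← MulAut.mul_apply, ← map_mul, inv_mul_cancel, map_one,
          MulAut.one_apply] at h3
        exact h3.symm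
      apply hS
      intro k
      have h4 : (q.out⁻¹ * r.out)⁻¹ = r.out⁻¹ * q.out := by group
      rw [h4]
      exact h2 k
    have h5 : (QuotientGroup.mk q.out : G ⧸ S) = QuotientGroup.mk r.out := QuotientGroup.eq.mpr h1
    have h6 : ∀ x : G ⧸ S, (QuotientGroup.mk x.out : G ⧸ S) = x := fun x => Quotient.out_eq' x
    rw [h6, h6] at h5
    exact h5
  have hb : ∀ (q : G ⧸ S) (k : K), ρ (k : G) (b q) = Ψ q k • b q := by
    intro q k
    have h1 : (k : G) * q.out = q.out * ((MulAut.conjNormal (q.out)⁻¹ k : K) : G) := by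
      rw [MulAut.conjNormal_apply]
      group
    change ρ (k : G) (ρ q.out v) = Ψ q k • ρ q.out v
    rw [← Module.End.mul_apply, ← map_mul, h1, map_mul, Module.End.mul_apply, hK, map_smul]
    rfl
  have hb0 : ∀ q, b q ≠ 0 := by
    intro q h
    apply hv
    have : ρ q.out⁻¹ (ρ q.out v) = 0 := by
      change ρ q.out v = 0 at h
      rw [h, map_zero]
    rwa [← Module.End.mul_apply, ← map_mul, inv_mul_cancel, map_one, Module.End.one_apply] at this
  have hli : LinearIndependent ℂ b := by
    rw [Fintype.linearIndependent_iff]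
    intro a ha q
    have hind := linearIndependent_monoidHom K ℂ
    have hind2 : LinearIndependent ℂ (fun q : G ⧸ S => (Ψ q : K → ℂ)) := hind.comp Ψ hΨ
    rw [Fintype.linearIndependent_iff] at hind2
    have h1 : ∀ ℓ : V →ₗ[ℂ] ℂ, a q * ℓ (b q) = 0 := by
      intro ℓ
      refine hind2 (fun q => a q * ℓ (b q)) ?_ q
      funext k
      have h2 := congrArg (fun w => ℓ (ρ (k : G) w)) ha
      simp only [map_sum, map_smul, hb, map_zero, smul_eq_mul] at h2
      simp only [Finset.sum_apply, Pi.smul_apply, smul_eq_mul, Pi.zero_apply]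
      rw [← h2]
      refine Finset.sum_congr rfl fun q _ => by ring
    obtain ⟨ℓ, hℓ⟩ : ∃ ℓ : V →ₗ[ℂ] ℂ, ℓ (b q) ≠ 0 := by
      by_contra hcon
      push Not at hcon
      exact hb0 q ((Module.forall_dual_apply_eq_zero_iff ℂ (b q)).mp hcon)
    exact (mul_eq_zero.mp (h1 ℓ)).resolve_right hℓ
  have h := hli.fintype_card_le_finrank
  rwa [Subgroup.index, Nat.card_eq_fintype_card]

/-- For a character of a subgroup of a finite group there is an irreducible representation with an
eigenvector of the subgroup with that character. -/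
lemma exists_irreducible {G : Type} [Group G] [Finite G] (S : Subgroup G) (ψ : S →* ℂˣ) :
    ∃ (V : Type) (_ : AddCommGroup V) (_ : Module ℂ V) (ρ : Representation ℂ G V),
      FiniteDimensional ℂ V ∧ Nontrivial V ∧
      (∀ W : Submodule ℂ V, (∀ g v, v ∈ W → ρ g v ∈ W) → W = ⊥ ∨ W = ⊤) ∧
      ∃ v : V, v ≠ 0 ∧ ∀ s : S, ρ (s : G) v = ((ψ s : ℂˣ) : ℂ) • v := by
  classical
  have : Fintype G := Fintype.ofFinite G
  have : Fintype S := Fintype.ofFinite S
  let L : Ideal (MonoidAlgebra ℂ G) := Ideal.span (Set.range fun s : S =>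
    (MonoidAlgebra.single (s : G) (1 : ℂ) - MonoidAlgebra.single 1 ((ψ s : ℂˣ) : ℂ) : MonoidAlgebra ℂ G))
  let e : MonoidAlgebra ℂ G := ∑ s : S, MonoidAlgebra.single (s : G) (((ψ s)⁻¹ : ℂˣ) : ℂ)
  have he : e ≠ 0 := by
    intro h
    have h1 : e.coeff 1 = 0 := by rw [h]; rfl
    have h2 : e.coeff 1 = 1 := by
      simp only [e, MonoidAlgebra.coeff_sum, MonoidAlgebra.coeff_single]
      rw [Finsupp.finsetSum_apply, Finset.sum_eq_single (1 : S)]
      · simp
      · intro s _ hs
        rw [Finsupp.single_apply, if_neg]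
        intro h3
        exact hs (Subtype.ext h3)
      · intro h3
        exact absurd (Finset.mem_univ _) h3
    rw [h2] at h1
    exact one_ne_zero h1
  have hL : ∀ a ∈ L, a * e = 0 := by
    intro a ha
    induction ha using Submodule.span_induction with
    | mem x hx =>
      obtain ⟨t, rfl⟩ := hx
      simp only [e]
      rw [sub_mul, sub_eq_zero, Finset.mul_sum, Finset.mul_sum]
      simp only [MonoidAlgebra.single_mul_single, one_mul]
      refine Fintype.sum_bijective (fun s : S => t * s) (Group.mulLeft_bijective t) _ _ ?_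
      intro s
      have : ((ψ t : ℂˣ) : ℂ) * (((ψ (t * s))⁻¹ : ℂˣ) : ℂ) = (((ψ s)⁻¹ : ℂˣ) : ℂ) := by
        rw [map_mul, mul_inv, ← Units.val_mul, mul_inv_cancel_left]
      rw [this]
      rfl
    | zero => exact zero_mul _
    | add x y _ _ hx hy => rw [add_mul, hx, hy, add_zero]
    | smul r x _ hx => rw [smul_eq_mul, mul_assoc, hx, mul_zero]
  have hLtop : L ≠ ⊤ := by
    intro h
    have h1 : (1 : MonoidAlgebra ℂ G) * e = 0 := hL 1 (by rw [h]; trivial)
    rw [one_mul] at h1
    exact he h1
  obtain ⟨m, hm, hLm⟩ := Ideal.exists_le_maximal L hLtop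
  let V := MonoidAlgebra ℂ G ⧸ m
  have hsimp : IsSimpleModule (MonoidAlgebra ℂ G) V := by
    rw [isSimpleModule_iff_isCoatom]
    exact hm.out
  let ρ : Representation ℂ G V :=
    ((Algebra.lsmul ℂ ℂ V : MonoidAlgebra ℂ G →ₐ[ℂ] Module.End ℂ V) :
      MonoidAlgebra ℂ G →* Module.End ℂ V).comp (MonoidAlgebra.of ℂ G)
  have hρ : ∀ (g : G) (v : V), ρ g v = (MonoidAlgebra.single g 1 : MonoidAlgebra ℂ G) • v := fun g v => rfl
  have hnt : Nontrivial V := IsSimpleModule.nontrivial (MonoidAlgebra ℂ G) V
  have hfdR : FiniteDimensional ℂ (MonoidAlgebra ℂ G) := by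
    exact Module.Finite.equiv (MonoidAlgebra.coeffLinearEquiv ℂ (S := ℂ) (M := G)).symm
  have hfd : FiniteDimensional ℂ V := by
    let q : MonoidAlgebra ℂ G →ₗ[ℂ] V := (Submodule.mkQ m).restrictScalars ℂ
    exact Module.Finite.of_surjective q (Submodule.mkQ_surjective m)
  refine ⟨V, inferInstance, inferInstance, ρ, hfd, hnt, ?_, ?_⟩
  · intro W hW
    have hWR : ∀ (r : MonoidAlgebra ℂ G), ∀ w ∈ W, r • w ∈ W := by
      intro r w hw
      induction r using MonoidAlgebra.induction_linear with
      | zero => rw [zero_smul]; exact W.zero_mem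
      | add r s hr hs => rw [add_smul]; exact W.add_mem hr hs
      | single g c =>
        have h1 : (MonoidAlgebra.single g c : MonoidAlgebra ℂ G) = c • (MonoidAlgebra.single g 1 : MonoidAlgebra ℂ G) := by
          rw [MonoidAlgebra.smul_single, smul_eq_mul, mul_one]
        rw [h1, smul_assoc]
        exact W.smul_mem _ (hW g w hw)
    let W' : Submodule (MonoidAlgebra ℂ G) V :=
      { carrier := W
        add_mem' := fun ha hb => W.add_mem ha hb
        zero_mem' := W.zero_mem
        smul_mem' := fun r w hw => hWR r w hw }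
    rcases eq_bot_or_eq_top W' with h | h
    · left
      ext w
      have h1 : w ∈ W ↔ w ∈ W' := Iff.rfl
      rw [h1, h]
      simp
    · right
      ext w
      have h1 : w ∈ W ↔ w ∈ W' := Iff.rfl
      rw [h1, h]
      simp
  · refine ⟨Submodule.mkQ m 1, ?_, ?_⟩
    · intro h
      have h1 : (1 : MonoidAlgebra ℂ G) ∈ m := (Submodule.Quotient.mk_eq_zero m).mp h
      exact hm.ne_top ((Ideal.eq_top_iff_one m).mpr h1)
    · intro s
      rw [hρ]
      have h1 : (MonoidAlgebra.single (s : G) (1 : ℂ) - MonoidAlgebra.single 1 ((ψ s : ℂˣ) : ℂ) : MonoidAlgebra ℂ G)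
          ∈ m := hLm (Submodule.subset_span ⟨s, rfl⟩)
      have h2 : (MonoidAlgebra.single 1 ((ψ s : ℂˣ) : ℂ) : MonoidAlgebra ℂ G) = ((ψ s : ℂˣ) : ℂ) • (1 : MonoidAlgebra ℂ G) := by
        rw [MonoidAlgebra.one_def, MonoidAlgebra.smul_single, smul_eq_mul, mul_one]
      have h3 : Submodule.mkQ m (MonoidAlgebra.single (s : G) (1 : ℂ) : MonoidAlgebra ℂ G) =
          Submodule.mkQ m (((ψ s : ℂˣ) : ℂ) • (1 : MonoidAlgebra ℂ G)) := by
        rw [← h2]
        exact (Submodule.Quotient.eq m).mpr h1
      have h4 : (MonoidAlgebra.single (s : G) 1 : MonoidAlgebra ℂ G) • (Submodule.mkQ m 1 : V) =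
          Submodule.mkQ m (MonoidAlgebra.single (s : G) (1 : ℂ) : MonoidAlgebra ℂ G) := by
        rw [← map_smul, smul_eq_mul, mul_one]
      rw [h4, h3]
      rfl

/-- A commuting family closed under nothing in particular: on a nonzero finite-dimensional complex
space a commuting family of operators has a common eigenvector. -/
lemma exists_common_eigenvector {ι : Type*} [FiniteDimensional ℂ V] [Nontrivial V]
    (T : ι → V →ₗ[ℂ] V) (hT : ∀ i j v, T i (T j v) = T j (T i v)) :
    ∃ v : V, v ≠ 0 ∧ ∀ i, ∃ c : ℂ, T i v = c • v := by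
  classical
  have key : ∀ n : ℕ, ∀ U : Submodule ℂ V, finrank ℂ U = n → U ≠ ⊥ → (∀ i, ∀ u ∈ U, T i u ∈ U) →
      ∃ v ∈ U, v ≠ 0 ∧ ∀ i, ∃ c : ℂ, T i v = c • v := by
    intro n
    induction n using Nat.strong_induction_on with
    | _ n ih =>
      intro U hU hne hinv
      by_cases hsc : ∀ i, ∃ c : ℂ, ∀ u ∈ U, T i u = c • u
      · obtain ⟨v, hvU, hv0⟩ := U.ne_bot_iff.mp hne
        exact ⟨v, hvU, hv0, fun i => (hsc i).imp fun c hc => hc v hvU⟩
      · push Not at hsc
        obtain ⟨i, hi⟩ := hsc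
        have : Nontrivial U := (Submodule.nontrivial_iff_ne_bot).mpr hne
        obtain ⟨c, hc⟩ := Module.End.exists_eigenvalue ((T i).restrict (hinv i))
        obtain ⟨w, hw⟩ := hc.exists_hasEigenvector
        let U' : Submodule ℂ V := U ⊓ (Module.End.eigenspace (T i) c)
        have hw1 : (w : V) ∈ U' := by
          refine ⟨w.2, ?_⟩
          rw [SetLike.mem_coe, Module.End.mem_eigenspace_iff]
          have := hw.apply_eq_smul
          exact congrArg Subtype.val this
        have hw0 : (w : V) ≠ 0 := fun h => hw.2 (Subtype.ext h)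
        have hlt : U' < U := by
          refine lt_of_le_of_ne inf_le_left ?_
          intro h
          obtain ⟨u, hu, hu2⟩ := hi c
          apply hu2
          have hu' : u ∈ U' := by rw [h]; exact hu
          exact Module.End.mem_eigenspace_iff.mp hu'.2
        have hfr : finrank ℂ U' < n := by
          rw [← hU]
          exact Submodule.finrank_lt_finrank_of_lt hlt
        have hne' : U' ≠ ⊥ := by
          intro h
          rw [h, Submodule.mem_bot] at hw1
          exact hw0 hw1
        have hinv' : ∀ j, ∀ u ∈ U', T j u ∈ U' := by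
          intro j u hu
          refine ⟨hinv j u hu.1, ?_⟩
          rw [SetLike.mem_coe, Module.End.mem_eigenspace_iff, hT i j u,
            Module.End.mem_eigenspace_iff.mp hu.2, map_smul]
        obtain ⟨v, hv, h1, h2⟩ := ih _ hfr U' rfl hne' hinv'
        exact ⟨v, hv.1, h1, h2⟩
  obtain ⟨v, -, h1, h2⟩ := key _ ⊤ rfl top_ne_bot (fun _ _ _ => trivial)
  exact ⟨v, h1, h2⟩

end Pool.Agent.R717.RepGen
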