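import Mathlib
import Pool.Agent.R717.RepGen

/-!
# Irreducible representations of `GL₃` over a local ring with square-zero maximal ideal
-/

namespace Pool.Agent.R717.GLSq

open Module Matrix

/-- A commutative ring `A` with residue field `k` whose maximal ideal is a copy of `k` and has
square zero, such as `o / p ^ 2`. -/
structure Sq (A k : Type) [CommRing A] [Field k] where
  π : A →+* k
  j : k →+ A
  surj : Function.Surjective π
  mul_j : ∀ a x, a * j x = j (π a * x)
  π_j : ∀ x, π (j x) = 0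
  j_inj : Function.Injective j
  ker : ∀ a, π a = 0 → ∃ x, j x = a
  isUnit : ∀ a, π a ≠ 0 → IsUnit a

variable {A k : Type} [CommRing A] [Field k] (Q : Sq A k)

namespace Sq

lemma j_mul_j (x y : k) : Q.j x * Q.j y = 0 := by
  rw [Q.mul_j, Q.π_j, zero_mul, map_zero]

lemma mul_of_ker {a b : A} (ha : Q.π a = 0) (hb : Q.π b = 0) : a * b = 0 := by
  obtain ⟨x, rfl⟩ := Q.ker a ha
  obtain ⟨y, rfl⟩ := Q.ker b hb
  exact Q.j_mul_j x y

variable {n : ℕ}

lemma map_mul_map (X Y : Matrix (Fin n) (Fin n) k) : X.map Q.j * Y.map Q.j = 0 := by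
  ext a b
  simp [Matrix.mul_apply, Q.j_mul_j]

lemma mul_map (g : Matrix (Fin n) (Fin n) A) (X : Matrix (Fin n) (Fin n) k) :
    g * X.map Q.j = (g.map Q.π * X).map Q.j := by
  ext a b
  simp [Matrix.mul_apply, Q.mul_j, map_sum]

lemma map_mul' (g : Matrix (Fin n) (Fin n) A) (X : Matrix (Fin n) (Fin n) k) :
    X.map Q.j * g = (X * g.map Q.π).map Q.j := by
  ext a b
  simp only [Matrix.mul_apply, Matrix.map_apply, map_sum]
  refine Finset.sum_congr rfl fun c _ => ?_
  rw [mul_comm, Q.mul_j, mul_comm]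

/-- The element `1 + ϖ X`. -/
def lam (X : Matrix (Fin n) (Fin n) k) : GL (Fin n) A where
  val := 1 + X.map Q.j
  inv := 1 - X.map Q.j
  val_inv := by
    rw [mul_sub, add_mul, mul_one, add_mul, one_mul, Q.map_mul_map]
    simp
  inv_val := by
    rw [mul_add, sub_mul, mul_one, sub_mul, one_mul, Q.map_mul_map]
    simp

lemma lam_val (X : Matrix (Fin n) (Fin n) k) : (Q.lam X).val = 1 + X.map Q.j := rfl

lemma lam_add (X Y : Matrix (Fin n) (Fin n) k) : Q.lam (X + Y) = Q.lam X * Q.lam Y := by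
  apply Units.ext
  rw [Units.val_mul, lam_val, lam_val, lam_val, mul_add, mul_one, add_mul, one_mul,
    Q.map_mul_map, add_zero, Matrix.map_add _ (fun a b => map_add Q.j a b)]
  rw [add_assoc]

lemma lam_zero : Q.lam (0 : Matrix (Fin n) (Fin n) k) = 1 := by
  apply Units.ext
  rw [lam_val, Matrix.map_zero _ (map_zero _), add_zero, Units.val_one]

/-- Reduction `GL_n(A) → GL_n(k)`. -/
noncomputable def red (Q : Sq A k) (n : ℕ) : GL (Fin n) A →* GL (Fin n) k :=
  Matrix.GeneralLinearGroup.map Q.π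

lemma red_val (g : GL (Fin n) A) : (Q.red n g).val = g.val.map Q.π := rfl

lemma red_surjective : Function.Surjective (Q.red n) := by
  intro g
  choose f hf using Q.surj
  let m : Matrix (Fin n) (Fin n) A := g.val.map f
  have hm : m.map Q.π = g.val := by
    ext a b
    simp [m, hf]
  have hdet : Q.π m.det = g.val.det := by
    rw [RingHom.map_det, RingHom.mapMatrix_apply, hm]
  have hu : IsUnit m.det := by
    apply Q.isUnit
    rw [hdet]
    exact ((Matrix.isUnit_iff_isUnit_det _).mp g.isUnit).ne_zero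
  have hu2 : IsUnit m := (Matrix.isUnit_iff_isUnit_det _).mpr hu
  refine ⟨hu2.unit, ?_⟩
  apply Units.ext
  rw [red_val]
  exact hm

lemma mem_ker_iff (g : GL (Fin n) A) : g ∈ (Q.red n).ker ↔ ∃ X, Q.lam X = g := by
  constructor
  · intro h
    rw [MonoidHom.mem_ker] at h
    have h1 : g.val.map Q.π = 1 := by
      rw [← red_val, h, Units.val_one]
    have h2 : ∀ a b, ∃ x, Q.j x = g.val a b - (1 : Matrix (Fin n) (Fin n) A) a b := by
      intro a b
      apply Q.ker
      have h3 := congrFun (congrFun h1 a) b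
      rw [Matrix.map_apply] at h3
      rw [map_sub, h3]
      by_cases hab : a = b
      · subst hab; simp
      · simp [Matrix.one_apply_ne hab]
    choose X hX using h2
    refine ⟨Matrix.of X, ?_⟩
    apply Units.ext
    ext a b
    rw [lam_val, Matrix.add_apply, Matrix.map_apply, Matrix.of_apply, hX]
    ring
  · rintro ⟨X, rfl⟩
    rw [MonoidHom.mem_ker]
    apply Units.ext
    rw [red_val, lam_val]
    ext a b
    rw [Matrix.map_apply, Matrix.add_apply, map_add, Matrix.map_apply, Q.π_j, add_zero,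
      Units.val_one]
    by_cases hab : a = b
    · subst hab; simp
    · simp [Matrix.one_apply_ne hab]

lemma conj_lam (g : GL (Fin n) A) (X : Matrix (Fin n) (Fin n) k) :
    g * Q.lam X * g⁻¹ = Q.lam ((Q.red n g).val * X * ((Q.red n g)⁻¹).val) := by
  have h1 : ((Q.red n g)⁻¹).val = (g⁻¹).val.map Q.π := by
    rw [← map_inv, red_val]
  apply Units.ext
  rw [Units.val_mul, Units.val_mul, lam_val, lam_val, mul_add, mul_one, add_mul, h1, red_val,
    Q.mul_map, Q.map_mul']
  congr 1
  rw [← Units.val_mul, mul_inv_cancel, Units.val_one]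

/-! ### The split torus -/

/-- The diagonal torus of `GL_n(k)`. -/
noncomputable def diagHom (k : Type) [Field k] (n : ℕ) : (Fin n → kˣ) →* GL (Fin n) k :=
  (Units.map (Matrix.diagonalRingHom (Fin n) k).toMonoidHom).comp
    (MulEquiv.piUnits (M := fun _ : Fin n => k)).symm.toMonoidHom

lemma diagHom_val (f : Fin n → kˣ) :
    (diagHom k n f).val = Matrix.diagonal (fun i => (f i : k)) := rfl

lemma diagHom_injective : Function.Injective (diagHom k n) := by
  intro f g h
  have h1 := congrArg Units.val h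
  rw [diagHom_val, diagHom_val] at h1
  have h2 := Matrix.diagonal_injective h1
  funext i
  exact Units.ext (congrFun h2 i)

lemma mem_range_diagHom (g : GL (Fin n) k) :
    g ∈ (diagHom k n).range ↔ ∀ a b, a ≠ b → g.val a b = 0 := by
  constructor
  · rintro ⟨f, rfl⟩ a b hab
    rw [diagHom_val]
    exact Matrix.diagonal_apply_ne _ hab
  · intro h
    have hd : g.val = Matrix.diagonal (fun i => g.val i i) := by
      ext a b
      by_cases hab : a = b
      · subst hab; simp
      · rw [h a b hab, Matrix.diagonal_apply_ne _ hab]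
    have hne : ∀ i, g.val i i ≠ 0 := by
      intro i hi
      have h1 := ((Matrix.isUnit_iff_isUnit_det _).mp g.isUnit).ne_zero
      rw [hd, Matrix.det_diagonal] at h1
      exact h1 (Finset.prod_eq_zero (Finset.mem_univ i) hi)
    refine ⟨fun i => Units.mk0 _ (hne i), ?_⟩
    apply Units.ext
    rw [diagHom_val]
    exact hd.symm

/-- The preimage of the diagonal torus. -/
noncomputable def S (Q : Sq A k) (n : ℕ) : Subgroup (GL (Fin n) A) :=
  ((diagHom k n).range).comap (Q.red n)

lemma mem_S (g : GL (Fin n) A) : g ∈ Q.S n ↔ ∀ a b, a ≠ b → Q.π (g.val a b) = 0 := by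
  rw [S, Subgroup.mem_comap, mem_range_diagHom]
  rfl

/-- The `i`-th diagonal entry is multiplicative on the preimage of the torus. -/
noncomputable def entry (Q : Sq A k) (n : ℕ) (i : Fin n) : Q.S n →* A where
  toFun g := (g : GL (Fin n) A).val i i
  map_one' := by simp
  map_mul' g h := by
    simp only [Subgroup.coe_mul, Units.val_mul, Matrix.mul_apply]
    rw [Finset.sum_eq_single i]
    · intro b _ hb
      exact Q.mul_of_ker ((Q.mem_S _).mp g.2 i b (Ne.symm hb)) ((Q.mem_S _).mp h.2 b i hb)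
    · intro h; exact absurd (Finset.mem_univ i) h

/-- The character of the preimage of the torus. -/
noncomputable def chi (Q : Sq A k) (θ : Aˣ →* ℂˣ) : Q.S 3 →* ℂˣ :=
  (θ.comp (Q.entry 3 1).toHomUnits) * (θ.comp (Q.entry 3 2).toHomUnits) ^ 2

/-- The unit `1 + ϖ x`. -/
def un (Q : Sq A k) (x : k) : Aˣ where
  val := 1 + Q.j x
  inv := 1 - Q.j x
  val_inv := by ring_nf; rw [sq, Q.j_mul_j, sub_zero]
  inv_val := by ring_nf; rw [sq, Q.j_mul_j, sub_zero]

lemma un_add (x y : k) : Q.un (x + y) = Q.un x * Q.un y := by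
  apply Units.ext
  change 1 + Q.j (x + y) = (1 + Q.j x) * (1 + Q.j y)
  rw [mul_add, mul_one, add_mul, one_mul, Q.j_mul_j, add_zero, map_add, add_assoc]

lemma ker_le_S : (Q.red n).ker ≤ Q.S n := by
  intro g hg
  rw [MonoidHom.mem_ker] at hg
  rw [S, Subgroup.mem_comap, hg]
  exact Subgroup.one_mem _

lemma chi_lam (θ : Aˣ →* ℂˣ) (X : Matrix (Fin 3) (Fin 3) k) (h : Q.lam X ∈ Q.S 3) :
    Q.chi θ ⟨Q.lam X, h⟩ = θ (Q.un (X 1 1 + 2 * X 2 2)) := by
  have h1 : ∀ i : Fin 3, (Q.entry 3 i).toHomUnits ⟨Q.lam X, h⟩ = Q.un (X i i) := by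
    intro i
    apply Units.ext
    rw [MonoidHom.coe_toHomUnits]
    change (Q.lam X).val i i = 1 + Q.j (X i i)
    rw [lam_val]
    simp
  change θ ((Q.entry 3 1).toHomUnits ⟨Q.lam X, h⟩) * (θ ((Q.entry 3 2).toHomUnits ⟨Q.lam X, h⟩)) ^ 2
    = _
  rw [h1, h1, two_mul, un_add, un_add, map_mul, map_mul, sq]

lemma un_zero : Q.un 0 = 1 := by
  apply Units.ext
  change 1 + Q.j 0 = 1
  rw [map_zero, add_zero]

/-- The stabiliser of the character is the preimage of the torus. -/
lemma stab (hk : (2 : k) ≠ 0) (θ : Aˣ →* ℂˣ) (hθ : θ (Q.un 1) ≠ 1) (g : GL (Fin 3) A)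
    (hg : ∀ X : Matrix (Fin 3) (Fin 3) k, ∀ h h',
      Q.chi θ ⟨g⁻¹ * Q.lam X * g, h⟩ = Q.chi θ ⟨Q.lam X, h'⟩) : g ∈ Q.S 3 := by
  classical
  let D : Matrix (Fin 3) (Fin 3) k := Matrix.diagonal ![0, 1, 2]
  let gb := (Q.red 3 g).val
  let gi := ((Q.red 3 g)⁻¹).val
  have hgg : gb * gi = 1 := by
    rw [← Units.val_mul, mul_inv_cancel, Units.val_one]
  have hgg' : gi * gb = 1 := by
    rw [← Units.val_mul, inv_mul_cancel, Units.val_one]
  have htr : ∀ X : Matrix (Fin 3) (Fin 3) k, X 1 1 + 2 * X 2 2 = (D * X).trace := by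
    intro X
    simp [D, Matrix.trace, Matrix.diagonal_mul, Fin.sum_univ_three]
  have hlam : ∀ X, g⁻¹ * Q.lam X * g = Q.lam (gi * X * gb) := by
    intro X
    have := Q.conj_lam g⁻¹ X
    rw [inv_inv, map_inv, inv_inv] at this
    exact this
  have hK : ∀ X, Q.lam X ∈ Q.S 3 := fun X => Q.ker_le_S ((Q.mem_ker_iff _).mpr ⟨X, rfl⟩)
  have h1 : ∀ X : Matrix (Fin 3) (Fin 3) k,
      θ (Q.un (((gb * D * gi - D) * X).trace)) = 1 := by
    intro X
    have h2 := hg X (by rw [hlam]; exact hK _) (hK _)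
    have h3 : Q.chi θ ⟨g⁻¹ * Q.lam X * g, (by rw [hlam]; exact hK _)⟩ =
        Q.chi θ ⟨Q.lam (gi * X * gb), hK _⟩ := by
      congr 1
      exact Subtype.ext (hlam X)
    rw [h3, chi_lam, chi_lam, htr, htr] at h2
    have h4 : (D * (gi * X * gb)).trace = (gb * D * gi * X).trace := by
      rw [← Matrix.mul_assoc, Matrix.trace_mul_comm, ← Matrix.mul_assoc, ← Matrix.mul_assoc]
    rw [h4] at h2
    have h5 : (gb * D * gi * X).trace = ((gb * D * gi - D) * X).trace + (D * X).trace := by
      rw [Matrix.sub_mul, Matrix.trace_sub]; ring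
    rw [h5, un_add, map_mul] at h2
    exact mul_eq_right.mp h2
  have hN : gb * D * gi - D = 0 := by
    ext b a
    by_contra hne
    change (gb * D * gi - D) b a ≠ 0 at hne
    apply hθ
    have h2 := h1 (Matrix.single a b (((gb * D * gi - D) b a)⁻¹))
    rw [Matrix.trace_mul_single] at h2
    have h3 : ∀ x y : k, MulOpposite.op x • y = y * x := fun x y => rfl
    rw [h3, mul_inv_cancel₀ hne] at h2
    exact h2
  have hcomm : gb * D = D * gb := by
    have h2 : gb * D * gi = D := sub_eq_zero.mp hN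
    calc gb * D = gb * D * (gi * gb) := by rw [hgg', mul_one]
      _ = (gb * D * gi) * gb := by simp only [mul_assoc]
      _ = D * gb := by rw [h2]
  rw [mem_S]
  intro a b hab
  have h2 := congrFun (congrFun hcomm a) b
  rw [Matrix.mul_diagonal, Matrix.diagonal_mul] at h2
  change gb a b = 0
  have h3 : gb a b * ((![0, 1, 2] : Fin 3 → k) b - (![0, 1, 2] : Fin 3 → k) a) = 0 := by
    rw [mul_sub, h2]; ring
  refine (mul_eq_zero.mp h3).resolve_right ?_
  have h21 : (2 : k) - 1 ≠ 0 := by norm_num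
  have h12 : (1 : k) - 2 ≠ 0 := by norm_num
  clear h2 h3 hcomm hN h1 hK hlam htr hgg hgg' hg
  fin_cases a <;> fin_cases b
  · exact absurd rfl hab
  · change (1 : k) - 0 ≠ 0
    rw [sub_zero]; exact one_ne_zero
  · change (2 : k) - 0 ≠ 0
    rwa [sub_zero]
  · change (0 : k) - 1 ≠ 0
    rw [zero_sub]; exact neg_ne_zero.mpr one_ne_zero
  · exact absurd rfl hab
  · exact h21
  · change (0 : k) - 2 ≠ 0
    rw [zero_sub]; exact neg_ne_zero.mpr hk
  · exact h12
  · exact absurd rfl hab

variable [Finite k]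

lemma index_S : (Q.S 3).index * (Nat.card k - 1) ^ 3 =
    (Nat.card k ^ 3 - 1) * (Nat.card k ^ 3 - Nat.card k) * (Nat.card k ^ 3 - Nat.card k ^ 2) := by
  classical
  have : Fintype k := Fintype.ofFinite k
  rw [S, Subgroup.index_comap_of_surjective _ Q.red_surjective]
  have h1 : Nat.card (diagHom k 3).range = (Nat.card k - 1) ^ 3 := by
    rw [← Nat.card_congr (MonoidHom.ofInjective diagHom_injective).toEquiv]
    simp [Nat.card_pi, Nat.card_eq_fintype_card, Fintype.card_units]
  rw [← h1, Subgroup.index_mul_card, Nat.card_eq_fintype_card (α := k), Matrix.card_GL_field]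
  simp [Fin.prod_univ_three]

end Sq

end Pool.Agent.R717.GLSq
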