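import Mathlib
import Pool.Agent.R717.GLSq
import Pool.Agent.R717.Commute2

namespace Pool.Agent.R717.GLSq

open Module Matrix Pool.Agent.R717.RepGen

variable {A k : Type} [CommRing A] [Field k] (Q : Sq A k)

namespace Sq

lemma q_arith (q I : ℕ) (hq : 1 < q)
    (h : I * (q - 1) ^ 3 = (q ^ 3 - 1) * (q ^ 3 - q) * (q ^ 3 - q ^ 2)) :
    I = q ^ 3 * (q + 1) * (q ^ 2 + q + 1) := by
  obtain ⟨m, rfl⟩ : ∃ m, q = m + 1 := ⟨q - 1, by omega⟩
  have hm : 0 < m := by omega
  have h1 : (m + 1) ^ 3 - 1 = m * ((m + 1) ^ 2 + (m + 1) + 1) := by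
    apply Nat.sub_eq_of_eq_add
    ring
  have h2 : (m + 1) ^ 3 - (m + 1) = m * ((m + 1) * (m + 1 + 1)) := by
    apply Nat.sub_eq_of_eq_add
    ring
  have h3 : (m + 1) ^ 3 - (m + 1) ^ 2 = m * (m + 1) ^ 2 := by
    apply Nat.sub_eq_of_eq_add
    ring
  rw [h1, h2, h3, Nat.add_sub_cancel] at h
  have hm3 : 0 < m ^ 3 := by positivity
  apply Nat.eq_of_mul_eq_mul_right hm3
  rw [h]
  ring

/-- There is an irreducible representation of `GL₃(A)`, nontrivial on the congruence kernel, of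
dimension `q³(q+1)(q²+q+1)`, as soon as the residue field has odd characteristic. -/
theorem exists_rep [Finite A] [Finite k] (hk : (2 : k) ≠ 0) :
    ∃ (V : Type) (_ : AddCommGroup V) (_ : Module ℂ V) (ρ : Representation ℂ (GL (Fin 3) A) V),
      FiniteDimensional ℂ V ∧ Nontrivial V ∧
      (∀ W : Submodule ℂ V, (∀ g v, v ∈ W → ρ g v ∈ W) → W = ⊥ ∨ W = ⊤) ∧
      (∃ g : GL (Fin 3) A, g ∈ (Q.red 3).ker ∧ ρ g ≠ 1) ∧
      finrank ℂ V = Nat.card k ^ 3 * (Nat.card k + 1) * (Nat.card k ^ 2 + Nat.card k + 1) := by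
  classical
  have hne : (Q.un 1) ≠ 1 := by
    intro h
    have h1 := congrArg Units.val h
    change 1 + Q.j 1 = 1 at h1
    have h2 : Q.j 1 = Q.j 0 := by rw [map_zero]; exact add_eq_left.mp h1
    exact one_ne_zero (Q.j_inj h2)
  obtain ⟨θ, hθ⟩ : ∃ θ : Aˣ →* ℂˣ, θ (Q.un 1) ≠ 1 := by
    have := CommGroup.exists_apply_ne_one_of_hasEnoughRootsOfUnity Aˣ ℂ hne
    exact this
  have : Finite (GL (Fin 3) A) := inferInstance
  obtain ⟨V, i1, i2, ρ, hfd, hnt, hirr, v, hv, hS⟩ := exists_irreducible (Q.S 3) (Q.chi θ)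
  have hle : finrank ℂ V ≤ (Q.S 3).index :=
    finrank_le_index ρ hirr hv (Q.S 3) fun s hs => ⟨_, hS ⟨s, hs⟩⟩
  let ψ : (Q.red 3).ker →* ℂ :=
    (Units.coeHom ℂ).comp ((Q.chi θ).comp (Subgroup.inclusion Q.ker_le_S))
  have hψ : ∀ x : (Q.red 3).ker, ψ x =
      ((Q.chi θ ⟨(x : GL (Fin 3) A), Q.ker_le_S x.2⟩ : ℂˣ) : ℂ) := fun x => rfl
  have hge : (Q.S 3).index ≤ finrank ℂ V := by
    refine index_le_finrank ρ hv (Q.red 3).ker ψ ?_ (Q.S 3) ?_
    · intro x
      rw [hψ]
      exact hS ⟨x, Q.ker_le_S x.2⟩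
    · intro g hg
      refine Q.stab hk θ hθ g ?_
      intro X h h'
      have h1 := hg ⟨Q.lam X, (Q.mem_ker_iff _).mpr ⟨X, rfl⟩⟩
      rw [hψ, hψ] at h1
      have h2 := Units.ext h1
      rw [← h2]
      congr 1
  have hcard : 1 < Nat.card k := by
    have := Fintype.ofFinite k
    rw [Nat.card_eq_fintype_card]
    exact Fintype.one_lt_card
  have hidx := q_arith _ _ hcard Q.index_S
  refine ⟨V, i1, i2, ρ, hfd, hnt, hirr, ⟨Q.lam (Matrix.single 1 1 1), ?_, ?_⟩, ?_⟩
  · exact (Q.mem_ker_iff _).mpr ⟨_, rfl⟩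
  · intro h
    have hmem : Q.lam (Matrix.single 1 1 (1 : k)) ∈ Q.S 3 :=
      Q.ker_le_S ((Q.mem_ker_iff _).mpr ⟨_, rfl⟩)
    have h1 := hS ⟨Q.lam (Matrix.single 1 1 1), hmem⟩
    rw [chi_lam] at h1
    change ρ (Q.lam (Matrix.single 1 1 1)) v = _ at h1
    rw [h, Module.End.one_apply] at h1
    have h2 : (Matrix.single 1 1 (1 : k) : Matrix (Fin 3) (Fin 3) k) 1 1 +
        2 * (Matrix.single 1 1 (1 : k) : Matrix (Fin 3) (Fin 3) k) 2 2 = 1 := by
      rw [Matrix.single_apply_same, Matrix.single_apply_of_ne _ _ _ _ _ (by decide)]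
      simp
    rw [h2] at h1
    have h3 : ((1 : ℂ) - ((θ (Q.un 1) : ℂˣ) : ℂ)) • v = 0 := by
      rw [sub_smul, one_smul, ← h1, sub_self]
    rcases smul_eq_zero.mp h3 with h4 | h4
    · apply hθ
      apply Units.ext
      rw [Units.val_one]
      exact (sub_eq_zero.mp h4).symm
    · exact hv h4
  · rw [← hidx]
    exact le_antisymm hle hge

lemma add_self_zmod2 (x : ZMod 2) : x + x = 0 := CharTwo.add_self_eq_zero x

/-- Over a residue field with two elements every character of the congruence kernel is fixed by an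
element outside the kernel. -/
lemma exists_fix (Q : Sq A (ZMod 2)) (c : GL (Fin 3) A → ℂ)
    (hc : ∀ x ∈ (Q.red 3).ker, ∀ y ∈ (Q.red 3).ker, c (x * y) = c x * c y) (h1 : c 1 = 1) :
    ∃ s : GL (Fin 3) A, s ∉ (Q.red 3).ker ∧ ∀ x ∈ (Q.red 3).ker, c (s⁻¹ * x * s) = c x := by
  classical
  have hmem : ∀ X : Matrix (Fin 3) (Fin 3) (ZMod 2), Q.lam X ∈ (Q.red 3).ker :=
    fun X => (Q.mem_ker_iff _).mpr ⟨X, rfl⟩
  let f : Matrix (Fin 3) (Fin 3) (ZMod 2) → ℂ := fun X => c (Q.lam X)
  have hf : ∀ X Y, f (X + Y) = f X * f Y := by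
    intro X Y
    change c (Q.lam (X + Y)) = _
    rw [lam_add, hc _ (hmem _) _ (hmem _)]
  have hf0 : f 0 = 1 := by
    change c (Q.lam 0) = 1
    rw [lam_zero, h1]
  have hf2 : ∀ X, f X = 1 ∨ f X = -1 := by
    intro X
    have h2 : f X * f X = 1 := by
      rw [← hf, ← hf0]
      congr 1
      ext a b
      exact add_self_zmod2 _
    exact mul_self_eq_one_iff.mp h2
  -- the sign function
  let L : ZMod 2 → ℂ := fun x => if x = 0 then 1 else -1
  have hL : ∀ x y, L (x + y) = L x * L y := by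
    intro x y
    have hx : x = 0 ∨ x = 1 := by revert x; decide
    have hy : y = 0 ∨ y = 1 := by revert y; decide
    have h10 : (1 : ZMod 2) ≠ 0 := by decide
    have h11 : (1 : ZMod 2) + 1 = 0 := by decide
    rcases hx with rfl | rfl <;> rcases hy with rfl | rfl <;> simp [L, h11]
  let B : Matrix (Fin 3) (Fin 3) (ZMod 2) :=
    Matrix.of fun b a => if f (Matrix.single a b 1) = 1 then 0 else 1
  have hsingle : ∀ a b (x : ZMod 2), f (Matrix.single a b x) = L (B b a * x) := by
    intro a b x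
    have hx : x = 0 ∨ x = 1 := by revert x; decide
    rcases hx with rfl | rfl
    · rw [Matrix.single_zero, hf0, mul_zero]; simp [L]
    · rw [mul_one]
      by_cases h2 : f (Matrix.single a b 1) = 1
      · simp [L, B, h2]
      · have h3 := (hf2 (Matrix.single a b 1)).resolve_left h2
        simp [L, B, h3]
  have hfB : ∀ X, f X = L ((B * X).trace) := by
    intro X
    have hsum : ∀ (s : Finset (Fin 3 × Fin 3)),
        f (∑ p ∈ s, Matrix.single p.1 p.2 (X p.1 p.2)) = L (∑ p ∈ s, B p.2 p.1 * X p.1 p.2) := by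
      intro s
      induction s using Finset.induction_on with
      | empty => rw [Finset.sum_empty, Finset.sum_empty, hf0]; simp [L]
      | insert p s hp ih =>
        rw [Finset.sum_insert hp, Finset.sum_insert hp, hf, hL, ih, hsingle]
    have h2 := hsum Finset.univ
    have h3 : ∑ p : Fin 3 × Fin 3, Matrix.single p.1 p.2 (X p.1 p.2) = X := by
      rw [Fintype.sum_prod_type]
      exact (Matrix.matrix_eq_sum_single X).symm
    rw [h3] at h2
    rw [h2]
    congr 1
    rw [Fintype.sum_prod_type, Finset.sum_comm]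
    simp only [Matrix.trace, Matrix.diag_apply, Matrix.mul_apply]
  obtain ⟨sb, hs1, hs2, hs3⟩ := Commute2.exists_commute B
  have hdet : IsUnit sb := by
    rw [Matrix.isUnit_iff_isUnit_det, hs3]
    exact isUnit_one
  obtain ⟨s, hs⟩ := Q.red_surjective hdet.unit
  have hsv : (Q.red 3 s).val = sb := by rw [hs]; rfl
  refine ⟨s, ?_, ?_⟩
  · intro h
    rw [MonoidHom.mem_ker] at h
    apply hs1
    rw [← hsv, h, Units.val_one]
  · intro x hx
    obtain ⟨X, rfl⟩ := (Q.mem_ker_iff _).mp hx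
    have h2 : s⁻¹ * Q.lam X * s = Q.lam (((Q.red 3 s)⁻¹).val * X * (Q.red 3 s).val) := by
      have := Q.conj_lam s⁻¹ X
      rw [inv_inv, map_inv, inv_inv] at this
      exact this
    rw [h2]
    change f _ = f _
    rw [hfB, hfB]
    congr 1
    have h3 : (Q.red 3 s).val * B = B * (Q.red 3 s).val := by rw [hsv]; exact hs2
    have h4 : ((Q.red 3 s)⁻¹).val * (Q.red 3 s).val = 1 := by
      rw [← Units.val_mul, inv_mul_cancel, Units.val_one]
    have h5 : (Q.red 3 s).val * ((Q.red 3 s)⁻¹).val = 1 := by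
      rw [← Units.val_mul, mul_inv_cancel, Units.val_one]
    calc (B * (((Q.red 3 s)⁻¹).val * X * (Q.red 3 s).val)).trace
        = ((Q.red 3 s).val * (B * (((Q.red 3 s)⁻¹).val * X))).trace := by
          rw [← Matrix.mul_assoc, ← Matrix.mul_assoc, Matrix.trace_mul_comm]
          try simp only [Matrix.mul_assoc]
      _ = (B * ((Q.red 3 s).val * ((Q.red 3 s)⁻¹).val * X)).trace := by
          rw [← Matrix.mul_assoc, h3]
          simp only [Matrix.mul_assoc]
      _ = (B * X).trace := by rw [h5, Matrix.one_mul]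

/-- Over a residue field with two elements no irreducible representation of `GL₃(A)` has
dimension `168` (in fact the dimension is at most `84`). -/
theorem finrank_le [Finite A] (Q : Sq A (ZMod 2)) {V : Type} [AddCommGroup V] [Module ℂ V]
    [FiniteDimensional ℂ V] [Nontrivial V] (ρ : Representation ℂ (GL (Fin 3) A) V)
    (hirr : ∀ W : Submodule ℂ V, (∀ g v, v ∈ W → ρ g v ∈ W) → W = ⊥ ∨ W = ⊤) :
    finrank ℂ V ≤ 84 := by
  classical
  let K := (Q.red 3).ker
  have hcomm : ∀ x y : K, (x : GL (Fin 3) A) * y = y * x := by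
    intro x y
    obtain ⟨X, hX⟩ := (Q.mem_ker_iff _).mp x.2
    obtain ⟨Y, hY⟩ := (Q.mem_ker_iff _).mp y.2
    rw [← hX, ← hY, ← lam_add, ← lam_add, add_comm]
  obtain ⟨v, hv, hc⟩ := exists_common_eigenvector (fun x : K => ρ (x : GL (Fin 3) A)) (by
    intro x y w
    rw [← Module.End.mul_apply, ← Module.End.mul_apply, ← map_mul, ← map_mul, hcomm])
  choose c0 hc0 using hc
  let c : GL (Fin 3) A → ℂ := fun g => if h : g ∈ K then c0 ⟨g, h⟩ else 0
  have hcK : ∀ g ∈ K, ρ g v = c g • v := by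
    intro g hg
    have := hc0 ⟨g, hg⟩
    simp only [c, hg, dite_true]
    exact this
  have hinj : ∀ a b : ℂ, a • v = b • v → a = b := by
    intro a b hab
    have : (a - b) • v = 0 := by rw [sub_smul, hab, sub_self]
    exact sub_eq_zero.mp ((smul_eq_zero.mp this).resolve_right hv)
  have hmul : ∀ x ∈ K, ∀ y ∈ K, c (x * y) = c x * c y := by
    intro x hx y hy
    apply hinj
    rw [← hcK _ (K.mul_mem hx hy), map_mul, Module.End.mul_apply, hcK y hy, map_smul, hcK x hx,
      smul_smul, mul_comm]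
  have hone : c 1 = 1 := by
    apply hinj
    rw [← hcK 1 K.one_mem, map_one, one_smul, Module.End.one_apply]
  obtain ⟨s, hsK, hs⟩ := exists_fix Q c hmul hone
  -- the isotypic subspace
  let W : Submodule ℂ V := 
    { carrier := {w | ∀ x ∈ K, ρ x w = c x • w}
      add_mem' := by
        intro a b ha hb x hx
        rw [map_add, ha x hx, hb x hx, smul_add]
      zero_mem' := by
        intro x _
        rw [map_zero, smul_zero]
      smul_mem' := by
        intro r a ha x hx
        rw [map_smul, ha x hx, smul_comm] }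
  have hvW : v ∈ W := hcK
  have hsW : ∀ w ∈ W, ρ s w ∈ W := by
    intro w hw x hx
    have h1 : x * s = s * (s⁻¹ * x * s) := by group
    rw [← Module.End.mul_apply, ← map_mul, h1, map_mul, Module.End.mul_apply, hw _ ?_, map_smul,
      hs x hx]
    have := (inferInstance : K.Normal).conj_mem x hx s⁻¹
    rwa [inv_inv] at this
  have hWnt : Nontrivial W := ⟨⟨⟨v, hvW⟩, 0, fun h => hv (congrArg Subtype.val h)⟩⟩
  obtain ⟨μ, hμ⟩ := Module.End.exists_eigenvalue ((ρ s).restrict hsW)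
  obtain ⟨w, hw⟩ := hμ.exists_hasEigenvector
  have hw0 : (w : V) ≠ 0 := fun h => hw.2 (Subtype.ext h)
  have hws : ρ s w = μ • (w : V) := congrArg Subtype.val hw.apply_eq_smul
  let S : Subgroup (GL (Fin 3) A) := 
    { carrier := {g | ∃ a : ℂ, a ≠ 0 ∧ ρ g w = a • (w : V)}
      mul_mem' := by
        rintro x y ⟨a, ha, hxa⟩ ⟨b, hb, hyb⟩
        refine ⟨a * b, mul_ne_zero ha hb, ?_⟩
        rw [map_mul, Module.End.mul_apply, hyb, map_smul, hxa, smul_smul, mul_comm]
      one_mem' := ⟨1, one_ne_zero, by simp⟩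
      inv_mem' := by
        rintro x ⟨a, ha, hxa⟩
        refine ⟨a⁻¹, inv_ne_zero ha, ?_⟩
        have h1 : ρ x⁻¹ (ρ x w) = w := by
          rw [← Module.End.mul_apply, ← map_mul, inv_mul_cancel, map_one, Module.End.one_apply]
        rw [hxa, map_smul] at h1
        calc ρ x⁻¹ w = (a⁻¹ * a) • ρ x⁻¹ w := by rw [inv_mul_cancel₀ ha, one_smul]
          _ = a⁻¹ • (w : V) := by rw [mul_smul, h1] }
  have hnz : ∀ g (a : ℂ), ρ g w = a • (w : V) → a ≠ 0 := by
    rintro g a h rfl
    rw [zero_smul] at h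
    apply hw0
    have h1 : ρ g⁻¹ (ρ g w) = w := by
      rw [← Module.End.mul_apply, ← map_mul, inv_mul_cancel, map_one, Module.End.one_apply]
    rw [← h1, h, map_zero]
  have hKS : K ≤ S := by
    intro x hx
    have h1 := w.2 x hx
    exact ⟨c x, hnz _ _ h1, h1⟩
  have hsS : s ∈ S := ⟨μ, hnz _ _ hws, hws⟩
  have hlt : K < S := lt_of_le_of_ne hKS (by
    intro h
    have h2 : s ∈ K := by rw [h]; exact hsS
    exact hsK h2)
  have hKidx : K.index = 168 := by
    have h1 : K.index = Nat.card (Q.red 3).range := Subgroup.index_ker _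
    rw [h1, (MonoidHom.range_eq_top).mpr Q.red_surjective, Subgroup.card_top,
      Matrix.card_GL_field]
    simp [Fin.prod_univ_three]
  have hrel : K.relIndex S * S.index = K.index := Subgroup.relIndex_mul_index hKS
  have hrel2 : 2 ≤ K.relIndex S := by
    have h0 : K.relIndex S ≠ 0 := by
      intro h; rw [h, zero_mul, hKidx] at hrel; omega
    have h1 : K.relIndex S ≠ 1 := by
      intro h
      rw [Subgroup.relIndex_eq_one] at h
      exact absurd h (not_le_of_gt hlt)
    omega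
  have hSidx : S.index ≤ 84 := by
    rw [hKidx] at hrel
    nlinarith
  refine le_trans ?_ hSidx
  exact finrank_le_index ρ hirr hw0 S (fun g hg => ⟨hg.choose, hg.choose_spec.2⟩)

end Sq

end Pool.Agent.R717.GLSq
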