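import Mathlib

/-! The action of `S_n` on the partitions of `{1..n}` in two blocks of the same size:
transitivity, faithfulness, primitivity. -/

namespace Pool.Agent.R717.Lindim

open Finset Equiv

variable {n : ℕ}

/-- `r` is the equivalence relation of a partition of `Fin n` in two blocks of equal size. -/
def IsBal (r : Fin n → Fin n → Prop) : Prop :=
  ∃ A : Finset (Fin n), 2 * A.card = n ∧ ∀ u v, r u v ↔ (u ∈ A ↔ v ∈ A)

/-- The partitions of `Fin n` into two blocks of the same size, as equivalence relations. -/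
def TwoBlocks (n : ℕ) : Type := {r : Fin n → Fin n → Prop // IsBal r}

instance : Finite (TwoBlocks n) := by unfold TwoBlocks; infer_instance

/-- The natural action of `S_n` on partitions. -/
instance : MulAction (Perm (Fin n)) (TwoBlocks n) where
  smul g r := ⟨fun u v => r.1 (g⁻¹ u) (g⁻¹ v), by
    obtain ⟨A, hA, hr⟩ := r.2
    refine ⟨A.map g.toEmbedding, by simpa using hA, ?_⟩
    intro u v
    change r.1 (g⁻¹ u) (g⁻¹ v) ↔ _
    rw [hr]
    have h : ∀ w, w ∈ A.map g.toEmbedding ↔ g⁻¹ w ∈ A := by
      intro w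
      rw [Finset.mem_map_equiv]
      rfl
    rw [h, h]⟩
  one_smul r := rfl
  mul_smul g h r := rfl

lemma smul_val (g : Perm (Fin n)) (r : TwoBlocks n) (u v : Fin n) :
    (g • r).1 u v ↔ r.1 (g⁻¹ u) (g⁻¹ v) := Iff.rfl

lemma part_ext {r s : TwoBlocks n} (h : ∀ u v, r.1 u v ↔ s.1 u v) : r = s := by
  apply Subtype.ext
  funext u v
  exact propext (h u v)

instance : MulAction.IsPretransitive (Perm (Fin n)) (TwoBlocks n) := by
  constructor
  intro r s
  obtain ⟨A, hA, hr⟩ := r.2
  obtain ⟨B, hB, hs⟩ := s.2
  have hc : Fintype.card {x // x ∈ A} = Fintype.card {x // x ∈ B} := by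
    simp only [Fintype.card_coe]; omega
  let e : {x // x ∈ A} ≃ {x // x ∈ B} := Fintype.equivOfCardEq hc
  refine ⟨e.extendSubtype, ?_⟩
  apply part_ext
  intro u v
  rw [smul_val, hr, hs]
  have key : ∀ w, e.extendSubtype⁻¹ w ∈ A ↔ w ∈ B := by
    intro w
    constructor
    · intro h
      have := e.extendSubtype_mem _ h
      simpa using this
    · intro h
      by_contra h2
      have := e.extendSubtype_not_mem _ h2
      exact this (by simpa using h)
  rw [key, key]

/-- a set defining a partition -/
lemma card_half {r : TwoBlocks n} {A : Finset (Fin n)} (hA : 2 * A.card = n) :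
    Aᶜ.card = A.card := by
  rw [Finset.card_compl, Fintype.card_fin]; omega

lemma exists_part {A : Finset (Fin n)} (hA : 2 * A.card = n) :
    ∃ r : TwoBlocks n, ∀ u v, r.1 u v ↔ (u ∈ A ↔ v ∈ A) :=
  ⟨⟨fun u v => (u ∈ A ↔ v ∈ A), A, hA, fun _ _ => Iff.rfl⟩, fun _ _ => Iff.rfl⟩

lemma faithful (hn : 6 ≤ n) (he : Even n) : FaithfulSMul (Perm (Fin n)) (TwoBlocks n) := by
  obtain ⟨m, hm⟩ := he
  rw [faithfulSMul_iff]
  intro g hg
  by_contra hne
  obtain ⟨u, hu⟩ : ∃ u, g u ≠ u := by
    by_contra hcon
    push Not at hcon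
    exact hne (Equiv.ext hcon)
  obtain ⟨w, hw⟩ : ∃ w : Fin n, w ∉ ({u, g u} : Finset (Fin n)) := by
    by_contra hcon
    push Not at hcon
    have h1 : (Finset.univ : Finset (Fin n)) ⊆ {u, g u} := fun x _ => hcon x
    have h2 := Finset.card_le_card h1
    rw [Finset.card_univ, Fintype.card_fin] at h2
    have := Finset.card_le_two (a := u) (b := g u)
    omega
  rw [Finset.mem_insert, Finset.mem_singleton, not_or] at hw
  have hz : g w ≠ g u := fun e => hw.1 (g.injective e)
  obtain ⟨A, h1, h2, h3⟩ : ∃ A : Finset (Fin n), {u, w, g w} ⊆ A ∧ A ⊆ {g u}ᶜ ∧ A.card = m := by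
    apply Finset.exists_subsuperset_card_eq
    · intro x hx
      simp only [Finset.mem_insert, Finset.mem_singleton] at hx
      rw [Finset.mem_compl, Finset.mem_singleton]
      rcases hx with rfl | rfl | rfl
      · exact fun e => hu e.symm
      · exact hw.2
      · exact hz
    · have := Finset.card_le_three (a := u) (b := w) (c := g w)
      omega
    · rw [Finset.card_compl, Fintype.card_fin, Finset.card_singleton]
      omega
  obtain ⟨r, hr⟩ := exists_part (n := n) (A := A) (by omega)
  have huA : u ∈ A := h1 (by simp)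
  have hwA : w ∈ A := h1 (by simp)
  have hgwA : g w ∈ A := h1 (by simp)
  have hguA : g u ∉ A := fun h => by simpa using h2 h
  have h4 := hg r
  have h5 : (g • r).1 (g u) (g w) := by
    rw [smul_val, hr]
    simp [huA, hwA]
  rw [h4, hr] at h5
  exact hguA (h5.2 hgwA)

/-- transpositions of two points in the same block fix the partition -/
lemma swap_smul {r : TwoBlocks n} {u v : Fin n} (h : r.1 u v) : swap u v • r = r := by
  obtain ⟨A, hA, hr⟩ := r.2
  apply part_ext
  intro a b
  rw [smul_val, hr, hr, swap_inv]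
  rw [hr] at h
  have key : ∀ x, swap u v x ∈ A ↔ x ∈ A := by
    intro x
    rw [Equiv.swap_apply_def]
    split_ifs with h1 h2
    · subst h1; exact h.symm
    · subst h2; exact h
    · rfl
  rw [key, key]

lemma coatom_stabilizer (hn : 6 ≤ n) (r : TwoBlocks n) :
    IsCoatom (MulAction.stabilizer (Perm (Fin n)) r) := by
  obtain ⟨A, hA, hr⟩ := r.2
  have hAc : Aᶜ.card = A.card := card_half (r := r) hA
  constructor
  · intro htop
    obtain ⟨u, hu⟩ : A.Nonempty := by rw [← Finset.card_pos]; omega
    obtain ⟨v, hv⟩ : Aᶜ.Nonempty := by rw [← Finset.card_pos]; omega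
    rw [Finset.mem_compl] at hv
    obtain ⟨w, hw⟩ : (A.erase u).Nonempty := by
      rw [← Finset.card_pos, Finset.card_erase_of_mem hu]; omega
    rw [Finset.mem_erase] at hw
    have h1 : swap u v ∈ MulAction.stabilizer (Perm (Fin n)) r := by
      rw [htop]; exact Subgroup.mem_top _
    rw [MulAction.mem_stabilizer_iff] at h1
    have h2 : (swap u v • r).1 u w := by rw [h1, hr]; simp [hu, hw.2]
    rw [smul_val, hr, swap_inv, swap_apply_left,
      swap_apply_of_ne_of_ne hw.1 (ne_of_mem_of_not_mem hw.2 hv)] at h2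
    exact hv (h2.2 hw.2)
  · intro K hK
    have hle := hK.le
    obtain ⟨g, hgK, hg⟩ := SetLike.exists_of_lt hK
    rw [MulAction.mem_stabilizer_iff] at hg
    -- a pair separated by `r` but not by `g • r`
    obtain ⟨u, hu, v, hv, huv⟩ : ∃ u ∈ A, ∃ v, v ∉ A ∧ (g • r).1 u v := by
      by_contra hcon
      push Not at hcon
      apply hg
      obtain ⟨B, hB, hs⟩ := (g • r).2
      have hcon' : ∀ u ∈ A, ∀ v, v ∉ A → (u ∈ B ↔ v ∉ B) := by
        intro u hu v hv
        have := hcon u hu v hv
        rw [hs] at this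
        tauto
      obtain ⟨u, hu⟩ : A.Nonempty := by rw [← Finset.card_pos]; omega
      obtain ⟨v, hv⟩ : Aᶜ.Nonempty := by rw [← Finset.card_pos]; omega
      rw [Finset.mem_compl] at hv
      apply part_ext
      intro a b
      rw [hs, hr]
      by_cases huB : u ∈ B
      · have h1 : ∀ x, x ∉ A → x ∉ B := fun x hx => (hcon' u hu x hx).1 huB
        have h2 : ∀ x, x ∈ A → x ∈ B := fun x hx => (hcon' x hx v hv).2 (h1 v hv)
        have h3 : ∀ x, x ∈ B ↔ x ∈ A := by
          intro x
          by_cases hx : x ∈ A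
          · exact ⟨fun _ => hx, fun _ => h2 x hx⟩
          · exact ⟨fun h => absurd h (h1 x hx), fun h => absurd h hx⟩
        rw [h3, h3]
      · have h1 : ∀ x, x ∉ A → x ∈ B := by
          intro x hx
          by_contra h
          exact huB ((hcon' u hu x hx).2 h)
        have h2 : ∀ x, x ∈ A → x ∉ B := by
          intro x hx h
          exact (hcon' x hx v hv).1 h (h1 v hv)
        have h3 : ∀ x, x ∈ B ↔ x ∉ A := by
          intro x
          by_cases hx : x ∈ A
          · exact ⟨fun h => absurd h (h2 x hx), fun h => absurd hx h⟩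
          · exact ⟨fun _ => hx, fun _ => h1 x hx⟩
        rw [h3, h3]
        tauto
    have hswap : swap u v ∈ K := by
      have h1 := swap_smul huv
      have h2 : g⁻¹ * swap u v * g ∈ K := by
        apply hle
        rw [MulAction.mem_stabilizer_iff, mul_smul, mul_smul, h1, inv_smul_smul]
      have h3 : swap u v = g * (g⁻¹ * swap u v * g) * g⁻¹ := by group
      rw [h3]
      exact mul_mem (mul_mem hgK h2) (inv_mem hgK)
    have hsep : ∀ u' ∈ A, ∀ v', v' ∉ A → swap u' v' ∈ K := by
      intro u' hu' v' hv'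
      have h1 : swap u u' ∈ K := hle (by
        rw [MulAction.mem_stabilizer_iff]
        exact swap_smul ((hr _ _).2 (by simp [hu, hu'])))
      have h2 : swap v v' ∈ K := hle (by
        rw [MulAction.mem_stabilizer_iff]
        exact swap_smul ((hr _ _).2 (by simp [hv, hv'])))
      have h3 : swap u' v' = (swap u u' * swap v v') * swap u v * (swap u u' * swap v v')⁻¹ := by
        rw [← Equiv.swap_apply_apply]
        congr 1
        · rw [Perm.mul_apply, swap_apply_of_ne_of_ne (a := v) (b := v') (x := u)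
            (fun e => hv (e ▸ hu)) (fun e => hv' (e ▸ hu)), swap_apply_left]
        · rw [Perm.mul_apply, swap_apply_left, swap_apply_of_ne_of_ne (a := u) (b := u') (x := v')
            (ne_of_mem_of_not_mem hu hv').symm (ne_of_mem_of_not_mem hu' hv').symm]
      rw [h3]
      exact mul_mem (mul_mem (mul_mem h1 h2) hswap) (inv_mem (mul_mem h1 h2))
    rw [eq_top_iff, ← Equiv.Perm.closure_isSwap, Subgroup.closure_le]
    rintro _ ⟨a, b, hab, rfl⟩
    by_cases ha : a ∈ A
    · by_cases hb : b ∈ A
      · exact hle (by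
          rw [MulAction.mem_stabilizer_iff]
          exact swap_smul ((hr _ _).2 (by simp [ha, hb])))
      · exact hsep a ha b hb
    · by_cases hb : b ∈ A
      · rw [swap_comm]
        exact hsep b hb a ha
      · exact hle (by
          rw [MulAction.mem_stabilizer_iff]
          exact swap_smul ((hr _ _).2 (by simp [ha, hb])))

lemma nontrivial_part (hn : 6 ≤ n) (he : Even n) : Nontrivial (TwoBlocks n) := by
  obtain ⟨m, hm⟩ := he
  obtain ⟨A, hA, hAc⟩ : ∃ A : Finset (Fin n), A ⊆ Finset.univ ∧ A.card = m := by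
    apply Finset.exists_subset_card_eq
    rw [Finset.card_univ, Fintype.card_fin]; omega
  obtain ⟨r, hr⟩ := exists_part (n := n) (A := A) (by omega)
  have h := (coatom_stabilizer hn r).1
  obtain ⟨g, hg⟩ : ∃ g, g ∉ MulAction.stabilizer (Perm (Fin n)) r := by
    by_contra hcon
    push Not at hcon
    exact h (eq_top_iff.2 fun x _ => hcon x)
  rw [MulAction.mem_stabilizer_iff] at hg
  exact ⟨g • r, r, hg⟩

lemma preprimitive (hn : 6 ≤ n) (he : Even n) :
    MulAction.IsPreprimitive (Perm (Fin n)) (TwoBlocks n) := by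
  have := nontrivial_part hn he
  obtain ⟨r⟩ : Nonempty (TwoBlocks n) := inferInstance
  rw [← MulAction.isCoatom_stabilizer_iff_preprimitive (Perm (Fin n)) r]
  exact coatom_stabilizer hn r

/-- The stabiliser of a partition acts transitively on the points. -/
lemma stab_trans {r : TwoBlocks n} (u v : Fin n) :
    ∃ g : Perm (Fin n), g • r = r ∧ g u = v := by
  obtain ⟨A, hA, hr⟩ := r.2
  by_cases h : r.1 u v
  · exact ⟨swap u v, swap_smul h, swap_apply_left u v⟩
  · -- exchange the two blocks
    have hc : Fintype.card {x // x ∈ A} = Fintype.card {x // x ∈ Aᶜ} := by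
      simp only [Fintype.card_coe]; rw [card_half (r := r) hA]
    let e : {x // x ∈ A} ≃ {x // x ∈ Aᶜ} := Fintype.equivOfCardEq hc
    let g := e.extendSubtype
    have key : ∀ w, g w ∈ A ↔ w ∉ A := by
      intro w
      by_cases hw : w ∈ A
      · have := e.extendSubtype_mem _ hw
        rw [Finset.mem_compl] at this
        exact ⟨fun h => absurd h this, fun h => absurd hw h⟩
      · have := e.extendSubtype_not_mem _ hw
        rw [Finset.mem_compl, not_not] at this
        exact ⟨fun _ => hw, fun _ => this⟩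
    have hg : g • r = r := by
      apply part_ext
      intro a b
      rw [smul_val, hr, hr]
      have h1 := key (g⁻¹ a)
      have h2 := key (g⁻¹ b)
      have h3 : g (g⁻¹ a) = a := by simp
      have h4 : g (g⁻¹ b) = b := by simp
      rw [h3] at h1
      rw [h4] at h2
      tauto
    have h5 : r.1 (g u) v := by
      rw [hr, key]
      rw [hr] at h
      tauto
    refine ⟨swap (g u) v * g, ?_, ?_⟩
    · rw [mul_smul, hg, swap_smul h5]
    · rw [Perm.mul_apply, swap_apply_left]

/-- The action is not equivalent to an action on `k`-subsets. -/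
lemma not_subsets (hn : 6 ≤ n) (he : Even n) (k : ℕ) :
    ¬ ∃ e : TwoBlocks n ≃ {s : Finset (Fin n) // s.card = k},
      ∀ (g : Perm (Fin n)) (ω : TwoBlocks n), (e (g • ω)).1 = (e ω).1.map g.toEmbedding := by
  rintro ⟨e, he'⟩
  have := nontrivial_part hn he
  obtain ⟨r⟩ : Nonempty (TwoBlocks n) := inferInstance
  obtain ⟨g, hg⟩ : ∃ g, g ∉ MulAction.stabilizer (Perm (Fin n)) r := by
    by_contra hcon
    push Not at hcon
    exact (coatom_stabilizer hn r).1 (eq_top_iff.2 fun x _ => hcon x)
  rw [MulAction.mem_stabilizer_iff] at hg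
  have h1 : (e r).1.map g.toEmbedding ≠ (e r).1 := by
    rw [← he']
    intro h
    exact hg (e.injective (Subtype.ext h))
  obtain ⟨u, hu⟩ : ∃ u, u ∈ (e r).1 := by
    by_contra hcon
    push Not at hcon
    rw [← Finset.eq_empty_iff_forall_notMem] at hcon
    rw [hcon] at h1
    simp at h1
  obtain ⟨v, hv⟩ : ∃ v, v ∉ (e r).1 := by
    by_contra hcon
    push Not at hcon
    have h2 : (e r).1 = Finset.univ := Finset.eq_univ_iff_forall.2 hcon
    rw [h2] at h1
    simp at h1
  obtain ⟨f, hf, hfu⟩ := stab_trans (r := r) u v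
  have h2 := he' f r
  rw [hf] at h2
  apply hv
  rw [h2, Finset.mem_map]
  exact ⟨u, hu, hfu⟩

end Pool.Agent.R717.Lindim
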