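import Pool.Agent.R717.Lindim

/-! Linear algebra for the representation of the action on partitions in two blocks. -/

namespace Pool.Agent.R717.Lindim

open Finset Equiv Module

variable {n : ℕ} (F : Type) [Field F]

/-- Edges of the complete graph. -/
abbrev Edge (n : ℕ) : Type := {z : Sym2 (Fin n) // ¬ z.IsDiag}

/-- the edge `uv` -/
def edge {u v : Fin n} (h : u ≠ v) : Edge n := ⟨s(u, v), by simpa using h⟩

lemma edge_symm {u v : Fin n} (h : u ≠ v) : edge h = edge h.symm := by
  apply Subtype.ext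
  exact Sym2.eq_swap

/-- evaluation of an edge function at a pair of vertices (zero on the diagonal) -/
def ev (f : Edge n → F) (u v : Fin n) : F := if h : u ≠ v then f (edge h) else 0

variable {F}

lemma ev_of_ne (f : Edge n → F) {u v : Fin n} (h : u ≠ v) : ev F f u v = f (edge h) := by
  unfold ev; rw [dif_pos h]

lemma ev_self (f : Edge n → F) (u : Fin n) : ev F f u u = 0 := by
  unfold ev; rw [dif_neg (by simp)]

lemma ev_add (f g : Edge n → F) (u v : Fin n) : ev F (f + g) u v = ev F f u v + ev F g u v := by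
  unfold ev; split_ifs <;> simp

lemma ev_smul (c : F) (f : Edge n → F) (u v : Fin n) : ev F (c • f) u v = c * ev F f u v := by
  unfold ev; split_ifs <;> simp

/-- degree map -/
def deg (f : Edge n → F) (u : Fin n) : F := ∑ v, ev F f u v

lemma deg_add (f g : Edge n → F) (u : Fin n) : deg (f + g) u = deg f u + deg g u := by
  unfold deg; simp_rw [ev_add]; rw [Finset.sum_add_distrib]

lemma deg_smul (c : F) (f : Edge n → F) (u : Fin n) : deg (c • f) u = c * deg f u := by
  unfold deg; simp_rw [ev_smul]; rw [Finset.mul_sum]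

/-- differences of degrees with respect to a base vertex -/
def D0 (u0 : Fin n) : (Edge n → F) →ₗ[F] ({u : Fin n // u ≠ u0} → F) where
  toFun f u := deg f u.1 - deg f u0
  map_add' f g := by
    funext u; simp only [deg_add, Pi.add_apply]; ring
  map_smul' c f := by
    funext u; simp only [deg_smul, Pi.smul_apply, smul_eq_mul, RingHom.id_apply]; ring

lemma D0_apply (u0 : Fin n) (f : Edge n → F) (u : {u : Fin n // u ≠ u0}) :
    D0 u0 f u = deg f u.1 - deg f u0 := rfl

/-- indicator of an edge -/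
noncomputable def ind {a b : Fin n} (h : a ≠ b) : Edge n → F := by
  classical exact Pi.single (edge h) 1

lemma ev_ind {a b : Fin n} (h : a ≠ b) (u v : Fin n) :
    ev F (ind h) u v = if (u = a ∧ v = b) ∨ (u = b ∧ v = a) then 1 else 0 := by
  classical
  by_cases huv : u = v
  · subst huv
    rw [ev_self, if_neg]
    rintro (⟨h1, h2⟩ | ⟨h1, h2⟩)
    · exact h (h1.symm.trans h2)
    · exact h (h2.symm.trans h1)
  · rw [ev_of_ne _ huv]
    unfold ind
    rw [Pi.single_apply]
    have : edge huv = edge h ↔ (u = a ∧ v = b) ∨ (u = b ∧ v = a) := by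
      unfold edge
      rw [Subtype.mk.injEq, Sym2.eq_iff]
    by_cases hc : (u = a ∧ v = b) ∨ (u = b ∧ v = a)
    · rw [if_pos hc, if_pos (this.2 hc)]
    · rw [if_neg hc, if_neg (fun e => hc (this.1 e))]

lemma deg_ind {a b : Fin n} (h : a ≠ b) (u : Fin n) :
    deg (F := F) (ind h) u = (if u = a then 1 else 0) + (if u = b then 1 else 0) := by
  unfold deg
  simp_rw [ev_ind]
  have : ∀ v, (if (u = a ∧ v = b) ∨ (u = b ∧ v = a) then (1 : F) else 0)
      = (if v = b then (if u = a then 1 else 0) else 0)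
        + (if v = a then (if u = b then 1 else 0) else 0) := by
    intro v
    by_cases h1 : u = a
    · subst h1
      by_cases h2 : v = b
      · subst h2; simp [h, h.symm]
      · simp [h2, h]
    · by_cases h2 : u = b
      · subst h2
        by_cases h3 : v = a
        · subst h3; simp [h1, h]
        · simp [h3, h1]
      · simp [h1, h2]
  simp_rw [this]
  rw [Finset.sum_add_distrib]
  simp

lemma D0_surjective (h2 : (2 : F) ≠ 0) (hn : 4 ≤ n) (u0 : Fin n) :
    Function.Surjective (D0 (F := F) u0) := by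
  classical
  rw [← LinearMap.range_eq_top, eq_top_iff]
  have hbasis : ∀ w : {u : Fin n // u ≠ u0}, Pi.single w (1 : F) ∈ LinearMap.range (D0 (F := F) u0) := by
    intro w
    obtain ⟨a, ha⟩ : ∃ a : Fin n, a ∉ ({u0, w.1} : Finset (Fin n)) := by
      by_contra hcon
      push Not at hcon
      have h1 : (Finset.univ : Finset (Fin n)) ⊆ {u0, w.1} := fun x _ => hcon x
      have h2 := Finset.card_le_card h1
      rw [Finset.card_univ, Fintype.card_fin] at h2
      have := Finset.card_le_two (a := u0) (b := w.1)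
      omega
    rw [Finset.mem_insert, Finset.mem_singleton, not_or] at ha
    obtain ⟨b, hb⟩ : ∃ b : Fin n, b ∉ ({a, w.1} : Finset (Fin n)) := by
      by_contra hcon
      push Not at hcon
      have h1 : (Finset.univ : Finset (Fin n)) ⊆ {a, w.1} := fun x _ => hcon x
      have h2 := Finset.card_le_card h1
      rw [Finset.card_univ, Fintype.card_fin] at h2
      have := Finset.card_le_two (a := a) (b := w.1)
      omega
    rw [Finset.mem_insert, Finset.mem_singleton, not_or] at hb
    have hwa : w.1 ≠ a := fun e => ha.2 e.symm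
    have hwb : w.1 ≠ b := fun e => hb.2 e.symm
    have hab : a ≠ b := fun e => hb.1 e.symm
    refine ⟨(2 : F)⁻¹ • (ind hwa + ind hwb + (-1 : F) • ind hab), ?_⟩
    funext u
    rw [D0_apply]
    simp only [deg_smul, deg_add, deg_ind]
    rw [Pi.single_apply]
    have hw0 : u0 ≠ w.1 := w.2.symm
    by_cases huw : u = w
    · subst huw
      simp only [if_true, hwa, hwb, hw0, if_false]
      field_simp
      ring
    · have huw' : u.1 ≠ w.1 := fun e => huw (Subtype.ext e)
      simp only [huw', hw0, huw, if_false]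
      field_simp
      ring
  intro f _
  have : f = ∑ w, f w • (Pi.single w (1 : F) : {u : Fin n // u ≠ u0} → F) := by
    funext u
    simp [Pi.single_apply]
  rw [this]
  exact Submodule.sum_mem _ fun w _ => Submodule.smul_mem _ _ (hbasis w)

lemma finrank_ker_D0 (h2 : (2 : F) ≠ 0) (hn : 4 ≤ n) (u0 : Fin n) :
    finrank F (LinearMap.ker (D0 (F := F) u0)) + (n - 1) = n.choose 2 := by
  have h1 := LinearMap.finrank_range_add_finrank_ker (D0 (F := F) u0)
  rw [LinearMap.range_eq_top.2 (D0_surjective h2 hn u0), finrank_top, Module.finrank_fintype_fun_eq_card,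
    Module.finrank_fintype_fun_eq_card, Sym2.card_subtype_not_diag, Fintype.card_fin] at h1
  have h3 : Fintype.card {u : Fin n // u ≠ u0} = n - 1 := by
    rw [Fintype.card_subtype_compl, Fintype.card_fin]
    simp
  rw [h3] at h1
  omega

/-- star combinations -/
def star (c : Fin n → F) : Edge n → F :=
  fun z => Sym2.lift ⟨fun u v => c u + c v, fun _ _ => add_comm _ _⟩ z.1

lemma star_edge (c : Fin n → F) {u v : Fin n} (h : u ≠ v) : star c (edge h) = c u + c v := rfl

lemma ev_star (c : Fin n → F) (u v : Fin n) :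
    ev F (star c) u v = if u ≠ v then c u + c v else 0 := by
  by_cases h : u = v
  · subst h; rw [ev_self]; simp
  · rw [ev_of_ne _ h, star_edge, if_pos h]

lemma deg_star (c : Fin n → F) (u : Fin n) :
    deg (star c) u = ((n : F) - 2) * c u + ∑ v, c v := by
  unfold deg
  simp_rw [ev_star]
  have : ∀ v, (if u ≠ v then c u + c v else 0) = (c u + c v) - (if v = u then c u + c u else 0) := by
    intro v
    by_cases h : u = v
    · subst h; simp
    · rw [if_pos h, if_neg (Ne.symm h), sub_zero]
  simp_rw [this]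
  rw [Finset.sum_sub_distrib, Finset.sum_add_distrib]
  simp
  ring

/-- the map to functions of four points, which kills stars -/
def L : (Edge n → F) →ₗ[F] (Fin n × Fin n × Fin n × Fin n → F) where
  toFun f t := if t.1 ≠ t.2.1 ∧ t.2.2.1 ≠ t.2.2.2 ∧ t.1 ≠ t.2.2.2 ∧ t.2.2.1 ≠ t.2.1 then
      ev F f t.1 t.2.1 + ev F f t.2.2.1 t.2.2.2 - ev F f t.1 t.2.2.2 - ev F f t.2.2.1 t.2.1
    else 0
  map_add' f g := by
    funext t
    simp only [Pi.add_apply, ev_add]
    split_ifs <;> ring
  map_smul' c f := by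
    funext t
    simp only [Pi.smul_apply, ev_smul, smul_eq_mul, RingHom.id_apply]
    split_ifs <;> ring

lemma L_apply (f : Edge n → F) (t : Fin n × Fin n × Fin n × Fin n) :
    L f t = if t.1 ≠ t.2.1 ∧ t.2.2.1 ≠ t.2.2.2 ∧ t.1 ≠ t.2.2.2 ∧ t.2.2.1 ≠ t.2.1 then
      ev F f t.1 t.2.1 + ev F f t.2.2.1 t.2.2.2 - ev F f t.1 t.2.2.2 - ev F f t.2.2.1 t.2.1
    else 0 := rfl

lemma L_star (c : Fin n → F) : L (star c) = 0 := by
  funext t
  rw [L_apply]
  split_ifs with h
  · rw [ev_star, ev_star, ev_star, ev_star, if_pos h.1, if_pos h.2.1, if_pos h.2.2.1,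
      if_pos h.2.2.2]
    simp
    ring
  · rfl

/-- star combinations as a linear map into the kernel of `L` restricted to constant degree -/
def starMap (hp : (n : F) - 2 = 0) (u0 : Fin n) :
    (Fin n → F) →ₗ[F] LinearMap.ker (L.domRestrict (LinearMap.ker (D0 (F := F) u0))) where
  toFun c := ⟨⟨star c, by
    rw [LinearMap.mem_ker]
    funext u
    rw [D0_apply, deg_star, deg_star, hp, Pi.zero_apply]
    ring⟩, by
    rw [LinearMap.mem_ker]
    exact L_star c⟩
  map_add' c d := by
    apply Subtype.ext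
    apply Subtype.ext
    funext z
    obtain ⟨z, hz⟩ := z
    induction z using Sym2.ind with
    | h u v => change (c + d) u + (c + d) v = (c u + c v) + (d u + d v); simp only [Pi.add_apply]; ring
  map_smul' a c := by
    apply Subtype.ext
    apply Subtype.ext
    funext z
    obtain ⟨z, hz⟩ := z
    induction z using Sym2.ind with
    | h u v => change (a • c) u + (a • c) v = a * (c u + c v); simp only [Pi.smul_apply, smul_eq_mul]; ring

lemma starMap_injective (h2 : (2 : F) ≠ 0) (hn : 4 ≤ n) (hp : (n : F) - 2 = 0) (u0 : Fin n) :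
    Function.Injective (starMap hp u0) := by
  rw [injective_iff_map_eq_zero]
  intro c hc
  have h1 : star c = 0 := congrArg (fun x => x.1.1) hc
  have h3 : ∀ u v : Fin n, u ≠ v → c u + c v = 0 := by
    intro u v h
    rw [← star_edge c h, h1]; rfl
  funext u
  obtain ⟨a, ha⟩ : ∃ a : Fin n, a ∉ ({u} : Finset (Fin n)) := by
    by_contra hcon
    push Not at hcon
    have h1 : (Finset.univ : Finset (Fin n)) ⊆ {u} := fun x _ => hcon x
    have h2 := Finset.card_le_card h1
    rw [Finset.card_univ, Fintype.card_fin, Finset.card_singleton] at h2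
    omega
  obtain ⟨b, hb⟩ : ∃ b : Fin n, b ∉ ({u, a} : Finset (Fin n)) := by
    by_contra hcon
    push Not at hcon
    have h1 : (Finset.univ : Finset (Fin n)) ⊆ {u, a} := fun x _ => hcon x
    have h2 := Finset.card_le_card h1
    rw [Finset.card_univ, Fintype.card_fin] at h2
    have := Finset.card_le_two (a := u) (b := a)
    omega
  rw [Finset.mem_singleton] at ha
  rw [Finset.mem_insert, Finset.mem_singleton, not_or] at hb
  have e1 := h3 u a (Ne.symm ha)
  have e2 := h3 u b (Ne.symm hb.1)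
  have e3 := h3 a b (Ne.symm hb.2)
  have e4 : 2 * c u = 0 := by linear_combination e1 + e2 - e3
  rcases mul_eq_zero.1 e4 with h | h
  · exact absurd h h2
  · exact h

/-- Upper bound for the dimension of the image. -/
lemma finrank_range_le (h2 : (2 : F) ≠ 0) (hn : 4 ≤ n) (hp : (n : F) - 2 = 0) (u0 : Fin n) :
    finrank F (LinearMap.range (L.domRestrict (LinearMap.ker (D0 (F := F) u0)))) + n + (n - 1)
      ≤ n.choose 2 := by
  have h1 := LinearMap.finrank_range_add_finrank_ker
    (L.domRestrict (LinearMap.ker (D0 (F := F) u0)))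
  have h3 := finrank_ker_D0 h2 hn u0
  have h4 := LinearMap.finrank_le_finrank_of_injective (starMap_injective h2 hn hp u0)
  rw [Module.finrank_fintype_fun_eq_card, Fintype.card_fin] at h4
  omega

/-- The edge function of a partition: `1` inside blocks and `-1` between blocks. -/
noncomputable def vec (r : TwoBlocks n) : Edge n → F := fun z => by
  classical
  exact Sym2.lift ⟨fun u v => if r.1 u v then 1 else -1, by
    intro u v
    obtain ⟨A, hA, hr⟩ := r.2
    have : r.1 u v ↔ r.1 v u := by rw [hr, hr]; tauto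
    change (if r.1 u v then (1 : F) else -1) = if r.1 v u then 1 else -1
    by_cases h : r.1 u v
    · rw [if_pos h, if_pos (this.1 h)]
    · rw [if_neg h, if_neg (fun e => h (this.2 e))]⟩ z.1

open Classical in
lemma ev_vec (r : TwoBlocks n) {u v : Fin n} (h : u ≠ v) :
    ev F (vec r) u v = if r.1 u v then 1 else -1 := by
  rw [ev_of_ne _ h]
  rfl

lemma deg_vec (r : TwoBlocks n) (u : Fin n) : deg (F := F) (vec r) u = -1 := by
  classical
  obtain ⟨A, hA, hr⟩ := r.2
  unfold deg
  have h1 : ∀ v, ev F (vec r) u v = (if (u ∈ A ↔ v ∈ A) then 1 else -1) - (if v = u then 1 else 0) := by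
    intro v
    by_cases h : u = v
    · subst h; rw [ev_self]; simp
    · rw [ev_vec r h, if_neg (Ne.symm h), sub_zero]
      by_cases h2 : r.1 u v
      · rw [if_pos h2, if_pos ((hr _ _).1 h2)]
      · rw [if_neg h2, if_neg (fun e => h2 ((hr _ _).2 e))]
  simp_rw [h1]
  rw [Finset.sum_sub_distrib]
  have h3 : ∑ v, (if (u ∈ A ↔ v ∈ A) then (1 : F) else -1) = 0 := by
    rw [← Finset.sum_add_sum_compl A]
    have hAc := card_half (r := r) hA
    by_cases hu : u ∈ A
    · have e1 : ∀ v ∈ A, (if (u ∈ A ↔ v ∈ A) then (1 : F) else -1) = 1 := by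
        intro v hv; simp [hu, hv]
      have e2 : ∀ v ∈ Aᶜ, (if (u ∈ A ↔ v ∈ A) then (1 : F) else -1) = -1 := by
        intro v hv
        rw [Finset.mem_compl] at hv
        simp [hu, hv]
      rw [Finset.sum_congr rfl e1, Finset.sum_congr rfl e2, Finset.sum_const, Finset.sum_const, hAc]
      simp
    · have e1 : ∀ v ∈ A, (if (u ∈ A ↔ v ∈ A) then (1 : F) else -1) = -1 := by
        intro v hv; simp [hu, hv]
      have e2 : ∀ v ∈ Aᶜ, (if (u ∈ A ↔ v ∈ A) then (1 : F) else -1) = 1 := by
        intro v hv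
        rw [Finset.mem_compl] at hv
        simp [hu, hv]
      rw [Finset.sum_congr rfl e1, Finset.sum_congr rfl e2, Finset.sum_const, Finset.sum_const, hAc]
      simp
  rw [h3]
  simp

lemma vec_mem (r : TwoBlocks n) (u0 : Fin n) : vec r ∈ LinearMap.ker (D0 (F := F) u0) := by
  rw [LinearMap.mem_ker]
  funext u
  rw [D0_apply, deg_vec, deg_vec, Pi.zero_apply]
  ring

/-- The vector attached to a partition. -/
noncomputable def phi (r : TwoBlocks n) : Fin n × Fin n × Fin n × Fin n → F := L (vec r)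

/-- the permutation action on functions of four points -/
def act (g : Perm (Fin n)) :
    (Fin n × Fin n × Fin n × Fin n → F) →ₗ[F] (Fin n × Fin n × Fin n × Fin n → F) where
  toFun w t := w (g⁻¹ t.1, g⁻¹ t.2.1, g⁻¹ t.2.2.1, g⁻¹ t.2.2.2)
  map_add' _ _ := rfl
  map_smul' _ _ := rfl

lemma phi_smul (g : Perm (Fin n)) (r : TwoBlocks n) : phi (F := F) (g • r) = act g (phi r) := by
  classical
  funext t
  obtain ⟨a, b, c, d⟩ := t
  change L (vec (g • r)) (a, b, c, d) = L (vec r) (g⁻¹ a, g⁻¹ b, g⁻¹ c, g⁻¹ d)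
  rw [L_apply, L_apply]
  simp only
  have hinj : ∀ x y : Fin n, g⁻¹ x ≠ g⁻¹ y ↔ x ≠ y := fun x y => (g⁻¹).injective.ne_iff
  simp only [hinj]
  split_ifs with h
  · rw [ev_vec _ h.1, ev_vec _ h.2.1, ev_vec _ h.2.2.1, ev_vec _ h.2.2.2,
      ev_vec _ ((hinj _ _).2 h.1), ev_vec _ ((hinj _ _).2 h.2.1), ev_vec _ ((hinj _ _).2 h.2.2.1),
      ev_vec _ ((hinj _ _).2 h.2.2.2)]
    rfl
  · rfl

/-- Values of `phi` distinguish partitions. -/
lemma phi_aux (h2 : (2 : F) ≠ 0) (hn : 6 ≤ n) {r s : TwoBlocks n} (h : phi (F := F) r = phi s)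
    {a c : Fin n} (hr : ¬ r.1 a c) : ¬ s.1 a c := by
  classical
  intro hs
  obtain ⟨A, hA, hrA⟩ := r.2
  obtain ⟨B, hB, hsB⟩ := s.2
  have hAc := card_half (r := r) hA
  have hac : a ≠ c := by
    intro e; subst e; exact hr ((hrA _ _).2 Iff.rfl)
  -- choose `b` in the block of `a`, `d` in the block of `c`
  obtain ⟨b, hb1, hb2, hb3⟩ : ∃ b, r.1 a b ∧ b ≠ a ∧ b ≠ c := by
    by_cases ha : a ∈ A
    · obtain ⟨b, hb⟩ : (A.erase a).Nonempty := by
        rw [← Finset.card_pos, Finset.card_erase_of_mem ha]; omega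
      rw [Finset.mem_erase] at hb
      refine ⟨b, (hrA _ _).2 (by simp [ha, hb.2]), hb.1, ?_⟩
      intro e; subst e; exact hr ((hrA _ _).2 (by simp [ha, hb.2]))
    · have ha' : a ∈ Aᶜ := by rwa [Finset.mem_compl]
      obtain ⟨b, hb⟩ : (Aᶜ.erase a).Nonempty := by
        rw [← Finset.card_pos, Finset.card_erase_of_mem ha']; omega
      rw [Finset.mem_erase, Finset.mem_compl] at hb
      refine ⟨b, (hrA _ _).2 (by simp [ha, hb.2]), hb.1, ?_⟩
      intro e; subst e; exact hr ((hrA _ _).2 (by simp [ha, hb.2]))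
  obtain ⟨d, hd1, hd2, hd3⟩ : ∃ d, r.1 c d ∧ d ≠ c ∧ d ≠ a := by
    by_cases hc : c ∈ A
    · obtain ⟨d, hd⟩ : (A.erase c).Nonempty := by
        rw [← Finset.card_pos, Finset.card_erase_of_mem hc]; omega
      rw [Finset.mem_erase] at hd
      refine ⟨d, (hrA _ _).2 (by simp [hc, hd.2]), hd.1, ?_⟩
      intro e; subst e; exact hr ((hrA _ _).2 (by simp [hc, hd.2]))
    · have hc' : c ∈ Aᶜ := by rwa [Finset.mem_compl]
      obtain ⟨d, hd⟩ : (Aᶜ.erase c).Nonempty := by
        rw [← Finset.card_pos, Finset.card_erase_of_mem hc']; omega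
      rw [Finset.mem_erase, Finset.mem_compl] at hd
      refine ⟨d, (hrA _ _).2 (by simp [hc, hd.2]), hd.1, ?_⟩
      intro e; subst e; exact hr ((hrA _ _).2 (by simp [hc, hd.2]))
  have hcond : a ≠ b ∧ c ≠ d ∧ a ≠ d ∧ c ≠ b := ⟨hb2.symm, hd2.symm, hd3.symm, hb3.symm⟩
  have e1 : phi (F := F) r (a, b, c, d) = 4 := by
    change L (vec r) (a, b, c, d) = 4
    rw [L_apply, if_pos hcond, ev_vec _ hcond.1, ev_vec _ hcond.2.1, ev_vec _ hcond.2.2.1,
      ev_vec _ hcond.2.2.2]
    have hnad : ¬ r.1 a d := by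
      rw [hrA] at hr hd1 ⊢; tauto
    have hncb : ¬ r.1 c b := by
      rw [hrA] at hr hb1 ⊢; tauto
    rw [if_pos hb1, if_pos hd1, if_neg hnad, if_neg hncb]
    norm_num
  have e2 : phi (F := F) s (a, b, c, d) = 0 := by
    change L (vec s) (a, b, c, d) = 0
    rw [L_apply, if_pos hcond, ev_vec _ hcond.1, ev_vec _ hcond.2.1, ev_vec _ hcond.2.2.1,
      ev_vec _ hcond.2.2.2]
    have h3 : s.1 a b ↔ s.1 c b := by rw [hsB] at hs ⊢; rw [hsB]; tauto
    have h4 : s.1 c d ↔ s.1 a d := by rw [hsB] at hs ⊢; rw [hsB]; tauto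
    simp only [h3, h4]
    ring
  rw [h, e2] at e1
  have h4 : (2 : F) * 2 = 0 := by rw [e1]; norm_num
  rcases mul_eq_zero.1 h4 with h5 | h5 <;> exact h2 h5

lemma phi_injective (h2 : (2 : F) ≠ 0) (hn : 6 ≤ n) :
    Function.Injective (phi (F := F) : TwoBlocks n → _) := by
  intro r s h
  apply part_ext
  intro u v
  constructor
  · intro h3
    by_contra h4
    exact phi_aux h2 hn h.symm h4 h3
  · intro h3
    by_contra h4
    exact phi_aux h2 hn h h4 h3

/-- The span of the vectors `phi r`. -/
noncomputable def V (F : Type) [Field F] (n : ℕ) :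
    Submodule F (Fin n × Fin n × Fin n × Fin n → F) :=
  Submodule.span F (Set.range (phi : TwoBlocks n → _))

lemma act_mem (g : Perm (Fin n)) : ∀ w ∈ V F n, act g w ∈ V F n := by
  intro w hw
  induction hw using Submodule.span_induction with
  | mem x hx =>
    obtain ⟨r, rfl⟩ := hx
    rw [← phi_smul]
    exact Submodule.subset_span ⟨_, rfl⟩
  | zero => rw [map_zero]; exact zero_mem _
  | add x y _ _ hx hy => rw [map_add]; exact add_mem hx hy
  | smul a x _ hx => rw [map_smul]; exact Submodule.smul_mem _ _ hx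

/-- The representation of `S_n` on `V`. -/
noncomputable def rep : Representation F (Perm (Fin n)) (V F n) where
  toFun g := (act g).restrict (act_mem g)
  map_one' := by
    ext w
    rfl
  map_mul' g h := by
    ext w
    rfl

lemma finrank_V_le (h2 : (2 : F) ≠ 0) (hn : 6 ≤ n) (hp : (n : F) - 2 = 0) :
    finrank F (V F n) + n + (n - 1) ≤ n.choose 2 := by
  have u0 : Fin n := ⟨0, by omega⟩
  have h1 := finrank_range_le h2 (by omega) hp u0
  have h3 : V F n ≤ LinearMap.range (L.domRestrict (LinearMap.ker (D0 (F := F) u0))) := by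
    unfold V
    rw [Submodule.span_le]
    rintro _ ⟨r, rfl⟩
    exact ⟨⟨vec r, vec_mem r u0⟩, rfl⟩
  have h4 := Submodule.finrank_mono h3
  omega

end Pool.Agent.R717.Lindim
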