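import Mathlib

/-! Irreducible modules for `SL(2, 9)` in characteristic `3` with `-1` acting as `-1`:
the dimension is at most `2` or equal to `6`.  Everything is phrased by operators satisfying the
standard relations. -/

namespace Pool.Agent.R717.ModNine

open Module Finset

variable {K k V : Type*} [Field K] [Fintype K] [Field k]
  [AddCommGroup V] [Module k V]

section sums

lemma card_units (hK : Fintype.card K = 9) (x : Kˣ) : x ^ 8 = 1 := by
  have := FiniteField.pow_card_sub_one_eq_one (K := K) x.1 x.ne_zero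
  rw [hK] at this
  apply Units.ext
  simpa using this

lemma pow_eight (hK : Fintype.card K = 9) (x : K) (hx : x ≠ 0) : x ^ 8 = 1 := by
  have := FiniteField.pow_card_sub_one_eq_one (K := K) x hx
  rwa [hK] at this

lemma three_eq_zero (hK : Fintype.card K = 9) : (3 : K) = 0 := by
  have h := FiniteField.cast_card_eq_zero K
  rw [hK] at h
  have h2 : (3 : K) * 3 = 0 := by
    have : ((9 : ℕ) : K) = 3 * 3 := by norm_num
    rw [← this]; exact h
  rcases mul_eq_zero.1 h2 with h3 | h3 <;> exact h3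

/-- power sums -/
lemma powsum (hK : Fintype.card K = 9) (m : ℕ) (hm : 0 < m) :
    ∑ x : K, x ^ m = if 8 ∣ m then -1 else 0 := by
  classical
  have h := FiniteField.sum_pow_units K m
  rw [hK] at h
  rw [← h]
  have h0 : ∑ x : K, x ^ m = ∑ x ∈ (Finset.univ : Finset K).erase 0, x ^ m := by
    rw [← Finset.add_sum_erase _ _ (Finset.mem_univ (0 : K)), zero_pow hm.ne', zero_add]
  rw [h0]
  symm
  apply Finset.sum_bij (fun (x : Kˣ) _ => (x : K))
  · intro x _; simp
  · intro x _ y _ hxy; exact Units.ext hxy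
  · intro x hx
    rw [Finset.mem_erase] at hx
    exact ⟨Units.mk0 x hx.1, Finset.mem_univ _, rfl⟩
  · intro x _; simp

variable (ι : K →+* k)

lemma powsum' (hK : Fintype.card K = 9) (m : ℕ) (hm : 0 < m) :
    ∑ x : K, ι x ^ m = if 8 ∣ m then -1 else 0 := by
  have h := congrArg ι (powsum hK m hm)
  rw [map_sum] at h
  simp_rw [map_pow] at h
  rw [h]
  split_ifs <;> simp

include ι in
lemma nine (hK : Fintype.card K = 9) : (9 : k) = 0 := by
  have h := congrArg ι (three_eq_zero hK)
  rw [map_ofNat, map_zero] at h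
  have : (9 : k) = 3 * 3 := by norm_num
  rw [this, h, mul_zero]

include ι in
lemma three (hK : Fintype.card K = 9) : (3 : k) = 0 := by
  have h := congrArg ι (three_eq_zero hK)
  rwa [map_ofNat, map_zero] at h

lemma iota_pow_eight (hK : Fintype.card K = 9) (x : K) (hx : x ≠ 0) : ι x ^ 8 = 1 := by
  rw [← map_pow, pow_eight hK x hx, map_one]

/-- exponents only matter mod 8 -/
lemma iota_pow_mod (hK : Fintype.card K = 9) (x : K) (hx : x ≠ 0) {m n : ℕ} (h : m % 8 = n % 8) :
    ι x ^ m = ι x ^ n := by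
  rw [← Nat.div_add_mod m 8, ← Nat.div_add_mod n 8, pow_add, pow_add, pow_mul, pow_mul,
    iota_pow_eight ι hK x hx, one_pow, one_pow, h]

end sums

variable (ι : K →+* k)

/-- twisted sums over the unipotent group -/
def b (U : K → End k V) (v : V) (j : ℕ) : V := ∑ x : K, ι x ^ j • U x v

variable {ι} {U : K → End k V}

lemma b_apply_add (hUadd : ∀ x y, U (x + y) = U x * U y) (v : V) (j : ℕ) (y : K) :
    U y (b ι U v j) = ∑ i ∈ range (j + 1), ((j.choose i : k) * (-ι y) ^ (j - i)) • b ι U v i := by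
  unfold b
  rw [map_sum]
  have h1 : ∑ x : K, U y (ι x ^ j • U x v) = ∑ x : K, (ι x - ι y) ^ j • U x v := by
    rw [← Equiv.sum_comp (Equiv.addRight y) (fun x => (ι x - ι y) ^ j • U x v)]
    apply Finset.sum_congr rfl
    intro x _
    simp only [Equiv.coe_addRight, map_add, add_sub_cancel_right, map_smul]
    rw [add_comm x y, hUadd]
    rfl
  rw [h1]
  simp_rw [Finset.smul_sum]
  rw [Finset.sum_comm]
  apply Finset.sum_congr rfl
  intro x _
  rw [sub_eq_add_neg, add_pow, Finset.sum_smul]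
  apply Finset.sum_congr rfl
  intro i _
  rw [smul_smul]
  congr 1
  ring

lemma b_zero_sub (hK : Fintype.card K = 9) (hU0 : U 0 = 1) (v : V) :
    b ι U v 0 - b ι U v 8 = v := by
  classical
  unfold b
  rw [← Finset.sum_sub_distrib, Finset.sum_eq_single (0 : K)]
  · rw [hU0]; simp
  · intro x _ hx
    rw [iota_pow_eight ι hK x hx, pow_zero, sub_self]
  · intro h; exact absurd (Finset.mem_univ _) h

variable {T : Kˣ → End k V}

lemma b_T (hK : Fintype.card K = 9) (hTU : ∀ a x, T a * U x = U ((a : K) ^ 2 * x) * T a)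
    (v : V) (j : ℕ) (a : Kˣ) :
    T a (b ι U v j) = ι a ^ (6 * j) • b ι U (T a v) j := by
  unfold b
  rw [map_sum, Finset.smul_sum]
  have hbij : Function.Bijective (fun x : K => (a : K) ^ 2 * x) := by
    apply mulLeft_bijective₀
    exact pow_ne_zero _ a.ne_zero
  rw [← Function.Bijective.sum_comp hbij (fun x => ι a ^ (6 * j) • ι x ^ j • U x (T a v))]
  apply Finset.sum_congr rfl
  intro x _
  rw [map_smul, smul_smul]
  have h1 : T a (U x v) = U ((a : K) ^ 2 * x) (T a v) := by
    have := congrArg (fun f : End k V => f v) (hTU a x)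
    simpa using this
  rw [h1]
  congr 1
  rw [map_mul, map_pow, mul_pow, ← pow_mul, ← mul_assoc, ← pow_add]
  have h2 : 6 * j + 2 * j = 8 * j := by ring
  rw [h2, pow_mul, iota_pow_eight ι hK _ a.ne_zero, one_pow, one_mul]

/-- a fixed vector -/
def Fixed (U : K → End k V) (v : V) : Prop := ∀ x, U x v = v

/-- weight vectors -/
def Weight (ι : K →+* k) (T : Kˣ → End k V) (r : ℕ) (v : V) : Prop :=
  ∀ a : Kˣ, T a v = ι a ^ r • v

lemma b_fixed (hUadd : ∀ x y, U (x + y) = U x * U y) {v : V} {j : ℕ}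
    (h : ∀ i < j, (j.choose i : k) • b ι U v i = 0) : Fixed U (b ι U v j) := by
  intro y
  rw [b_apply_add hUadd, Finset.sum_range_succ, Finset.sum_eq_zero, Nat.choose_self, Nat.sub_self]
  · simp
  · intro i hi
    rw [mul_comm, mul_smul, h i (Finset.mem_range.1 hi), smul_zero]

/-- extraction operators -/
def D (ι : K →+* k) (U : K → End k V) (m : ℕ) : End k V := ∑ y : K, ι y ^ (8 - m) • U y

lemma D_apply (m : ℕ) (f : V) : D ι U m f = ∑ y : K, ι y ^ (8 - m) • U y f := by
  unfold D
  rw [LinearMap.sum_apply]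
  rfl

lemma D_fixed (hK : Fintype.card K = 9) {m : ℕ} (hm1 : 1 ≤ m) (hm : m ≤ 7) {f : V}
    (hf : Fixed U f) : D ι U m f = 0 := by
  rw [D_apply]
  have : ∀ y : K, ι y ^ (8 - m) • U y f = ι y ^ (8 - m) • f := fun y => by rw [hf y]
  simp_rw [this]
  rw [← Finset.sum_smul, powsum' ι hK _ (by omega), if_neg (by omega), zero_smul]

lemma D_b (hK : Fintype.card K = 9) (hUadd : ∀ x y, U (x + y) = U x * U y)
    {m j : ℕ} (hm1 : 1 ≤ m) (hm : m ≤ 7) (hj : j ≤ 8) (v : V) :
    D ι U m (b ι U v j) = ((-1) ^ (m + 1) * (j.choose m : k)) • b ι U v (j - m) := by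
  rw [D_apply]
  simp_rw [b_apply_add hUadd, Finset.smul_sum]
  rw [Finset.sum_comm]
  have h1 : ∀ i ∈ range (j + 1),
      ∑ y : K, ι y ^ (8 - m) • ((j.choose i : k) * (-ι y) ^ (j - i)) • b ι U v i =
      (if 8 ∣ (8 - m + (j - i)) then -((-1) ^ (j - i) * (j.choose i : k)) else 0) • b ι U v i := by
    intro i _
    have h2 : ∀ y : K, ι y ^ (8 - m) • ((j.choose i : k) * (-ι y) ^ (j - i)) • b ι U v i =
        (((-1) ^ (j - i) * (j.choose i : k)) * ι y ^ (8 - m + (j - i))) • b ι U v i := by
      intro y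
      rw [smul_smul, neg_pow]
      congr 1
      rw [pow_add]
      ring
    simp_rw [h2]
    rw [← Finset.sum_smul, ← Finset.mul_sum, powsum' ι hK _ (by omega)]
    split_ifs
    · congr 1; ring
    · rw [mul_zero]
  rw [Finset.sum_congr rfl h1]
  by_cases hmj : m ≤ j
  · rw [Finset.sum_eq_single (j - m)]
    · have h3 : j - (j - m) = m := by omega
      rw [h3, if_pos (by omega), Nat.choose_symm hmj]
      congr 1
      ring
    · intro i hi hne
      rw [Finset.mem_range] at hi
      rw [if_neg (by omega), zero_smul]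
    · intro h
      exact absurd (Finset.mem_range.2 (by omega)) h
  · rw [Nat.choose_eq_zero_of_lt (by omega), Nat.cast_zero, mul_zero, zero_smul]
    apply Finset.sum_eq_zero
    intro i hi
    rw [Finset.mem_range] at hi
    rw [if_neg (by omega), zero_smul]

/-- existence of a fixed weight vector -/
lemma exists_fixed_weight [IsAlgClosed k] [FiniteDimensional k V] [Nontrivial V]
    (hK : Fintype.card K = 9)
    (hU0 : U 0 = 1) (hUadd : ∀ x y, U (x + y) = U x * U y)
    (hT1 : T 1 = 1) (hTmul : ∀ a b, T (a * b) = T a * T b) (hTneg : T (-1) = -1)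
    (hTU : ∀ a x, T a * U x = U ((a : K) ^ 2 * x) * T a) :
    ∃ v : V, v ≠ 0 ∧ Fixed U v ∧ ∃ r : ℕ, r < 8 ∧ Odd r ∧ Weight ι T r v := by
  classical
  obtain ⟨ω, hω⟩ := IsCyclic.exists_generator (α := Kˣ)
  have hTpow : ∀ (a : Kˣ) (n : ℕ), T (a ^ n) = T a ^ n := by
    intro a n
    induction n with
    | zero => rw [pow_zero, pow_zero, hT1]
    | succ n ih => rw [pow_succ, pow_succ, hTmul, ih]
  have hord : orderOf ω = 8 := by
    rw [orderOf_eq_card_of_forall_mem_zpowers hω, Nat.card_eq_fintype_card, Fintype.card_units, hK]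
  have hω4 : ω ^ 4 = -1 := by
    have h1 : (ω ^ 4) ^ 2 = 1 := by
      rw [← pow_mul]; exact card_units hK ω
    have h2 : ω ^ 4 ≠ 1 := by
      intro h
      have := orderOf_dvd_of_pow_eq_one h
      rw [hord] at this
      omega
    have h3 : ((ω ^ 4 : Kˣ) : K) ^ 2 = 1 := by
      have := congrArg (fun x : Kˣ => (x : K)) h1
      simpa using this
    have h5 : (((ω ^ 4 : Kˣ) : K) - 1) * (((ω ^ 4 : Kˣ) : K) + 1) = 0 := by
      linear_combination h3
    rcases mul_eq_zero.1 h5 with h4 | h4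
    · exact absurd (Units.ext (sub_eq_zero.1 h4)) h2
    · exact Units.ext (by rw [eq_neg_of_add_eq_zero_left h4]; simp)
  obtain ⟨μ, hμ⟩ := Module.End.exists_eigenvalue (T ω)
  obtain ⟨v0, hv0⟩ := hμ.exists_hasEigenvector
  have hv0' := hv0.apply_eq_smul
  have hpow : ∀ n : ℕ, T (ω ^ n) v0 = μ ^ n • v0 := by
    intro n
    induction n with
    | zero => rw [pow_zero, pow_zero, hT1]; simp
    | succ n ih =>
      rw [pow_succ', hTmul, Module.End.mul_apply, ih, map_smul, hv0', smul_smul, pow_succ]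
  have hμ4 : μ ^ 4 = -1 := by
    have h1 := hpow 4
    rw [hω4, hTneg] at h1
    have h2 : (μ ^ 4 + 1) • v0 = 0 := by
      rw [add_smul, ← h1, one_smul]; simp
    rcases smul_eq_zero.1 h2 with h3 | h3
    · linear_combination h3
    · exact absurd h3 hv0.2
  set ζ : k := ι ω with hζ
  have hζ4 : ζ ^ 4 = -1 := by
    rw [hζ, ← map_pow]
    have : (ω : K) ^ 4 = -1 := by
      have := congrArg (fun x : Kˣ => (x : K)) hω4
      simpa using this
    rw [this, map_neg, map_one]
  obtain ⟨r, hr8, hrodd, hμr⟩ : ∃ r : ℕ, r < 8 ∧ Odd r ∧ μ = ζ ^ r := by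
    have hfac : (μ - ζ) * (μ - ζ ^ 3) * (μ - ζ ^ 5) * (μ - ζ ^ 7) = 0 := by
      have h5 : ζ ^ 5 = -ζ := by linear_combination ζ * hζ4
      have h7 : ζ ^ 7 = -ζ ^ 3 := by linear_combination ζ ^ 3 * hζ4
      rw [h5, h7]
      linear_combination hμ4 + (ζ ^ 4 - 1 - μ ^ 2 * ζ ^ 2) * hζ4
    rcases mul_eq_zero.1 hfac with h | h
    · rcases mul_eq_zero.1 h with h | h
      · rcases mul_eq_zero.1 h with h | h
        · exact ⟨1, by norm_num, by decide, by rw [pow_one]; linear_combination h⟩
        · exact ⟨3, by norm_num, by decide, by linear_combination h⟩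
      · exact ⟨5, by norm_num, by decide, by linear_combination h⟩
    · exact ⟨7, by norm_num, by decide, by linear_combination h⟩
  have hweight0 : Weight ι T r v0 := by
    intro a
    obtain ⟨n, rfl⟩ : ∃ n : ℕ, ω ^ n = a := by
      have h1 := hω a
      rw [← mem_powers_iff_mem_zpowers, Submonoid.mem_powers_iff] at h1
      exact h1
    rw [hpow, hμr, hζ]
    congr 1
    rw [Units.val_pow_eq_pow_val, map_pow, ← pow_mul, ← pow_mul, mul_comm]
  -- the smallest nonzero `b_j`
  have hex : ∃ j, b ι U v0 j ≠ 0 := by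
    by_contra hcon
    push Not at hcon
    have h1 := b_zero_sub (ι := ι) hK hU0 v0
    rw [hcon, hcon, sub_zero] at h1
    exact hv0.2 h1.symm
  refine ⟨b ι U v0 (Nat.find hex), Nat.find_spec hex, ?_, (r + 6 * Nat.find hex) % 8,
    Nat.mod_lt _ (by norm_num), ?_, ?_⟩
  · apply b_fixed hUadd
    intro i hi
    have := Nat.find_min hex hi
    rw [not_not] at this
    rw [this, smul_zero]
  · obtain ⟨s, hs⟩ := hrodd
    rw [Nat.odd_iff]
    omega
  · intro a
    rw [b_T hK hTU, hweight0 a]
    have h1 : b ι U (ι a ^ r • v0) (Nat.find hex) = ι a ^ r • b ι U v0 (Nat.find hex) := by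
      unfold b
      rw [Finset.smul_sum]
      apply Finset.sum_congr rfl
      intro x _
      rw [map_smul, smul_comm]
    rw [h1, smul_smul, ← pow_add, iota_pow_mod ι hK _ a.ne_zero
      (show (6 * Nat.find hex + r) % 8 = ((r + 6 * Nat.find hex) % 8) % 8 by omega)]

end Pool.Agent.R717.ModNine
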