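import Pool.Agent.R717.ModNine

/-! Irreducible modules for `SL(2, 9)` in characteristic `3` with `-1` acting as `-1`, continued. -/

namespace Pool.Agent.R717.ModNine

open Module Finset

variable {K k V : Type*} [Field K] [Field k] [AddCommGroup V] [Module k V]

/-- The relations of `SL(2, K)` satisfied by the operators of a representation in which `-1` acts
as `-1`. -/
structure Rels (U : K → End k V) (T : Kˣ → End k V) (W : End k V) : Prop where
  U0 : U 0 = 1
  Uadd : ∀ x y, U (x + y) = U x * U y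
  T1 : T 1 = 1
  Tmul : ∀ a b, T (a * b) = T a * T b
  Tneg : T (-1) = -1
  TU : ∀ a x, T a * U x = U ((a : K) ^ 2 * x) * T a
  WT : ∀ a, W * T a = T a⁻¹ * W
  WW : W * W = -1
  WUW : ∀ x : Kˣ, W * U (x : K) * W =
    -(U (-((x⁻¹ : Kˣ) : K)) * T x⁻¹ * W * U (-((x⁻¹ : Kˣ) : K)))

variable {ι : K →+* k} {U : K → End k V} {T : Kˣ → End k V} {W : End k V}

section general

lemma Rels.WW_apply (h : Rels U T W) (v : V) : W (W v) = -v := by
  have := congrArg (fun f : End k V => f v) h.WW
  simpa using this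

lemma Rels.WT_apply (h : Rels U T W) (a : Kˣ) (v : V) : W (T a v) = T a⁻¹ (W v) := by
  have := congrArg (fun f : End k V => f v) (h.WT a)
  simpa using this

lemma Rels.TU_apply (h : Rels U T W) (a : Kˣ) (x : K) (v : V) :
    T a (U x v) = U ((a : K) ^ 2 * x) (T a v) := by
  have := congrArg (fun f : End k V => f v) (h.TU a x)
  simpa using this

lemma Rels.Uadd_apply (h : Rels U T W) (x y : K) (v : V) : U (x + y) v = U x (U y v) := by
  rw [h.Uadd]; rfl

/-- `W U_x W v` for a fixed vector -/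
lemma Rels.WUW_fixed (h : Rels U T W) (x : Kˣ) {v : V} (hf : Fixed U v) :
    W (U (x : K) (W v)) = -(U (-((x⁻¹ : Kˣ) : K)) (W (T x v))) := by
  have h1 := congrArg (fun f : End k V => f v) (h.WUW x)
  simp only [Module.End.mul_apply, LinearMap.neg_apply] at h1
  rw [h1, hf, h.WT_apply, ]

end general

variable [Fintype K]

lemma iota_zero_pow (ι : K →+* k) (j : ℕ) : ι 0 ^ j = if j = 0 then 1 else 0 := by
  rw [map_zero]
  split_ifs with h
  · rw [h, pow_zero]
  · exact zero_pow h

/-- Formula for `W (b (W v) j)`. -/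
lemma W_b (hK : Fintype.card K = 9) (h : Rels U T W) {v : V} (hf : Fixed U v) {r : ℕ}
    (hw : Weight ι T r v) {j j' : ℕ} (hj' : 1 ≤ j') (h8 : 8 ∣ j + r + j') :
    W (b ι U (W v) j) = (if j = 0 then -v else 0) + ((-1) ^ (j + r + 1) : k) • b ι U (W v) j' := by
  classical
  unfold b
  rw [map_sum, ← Finset.add_sum_erase _ _ (Finset.mem_univ (0 : K))]
  congr 1
  · rw [iota_zero_pow, h.U0, map_smul, Module.End.one_apply, h.WW_apply]
    split_ifs <;> simp
  · rw [Finset.smul_sum, ← Finset.add_sum_erase (a := (0 : K)) _ (fun x => ((-1) ^ (j + r + 1) : k) •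
      ι x ^ j' • U x (W v)) (Finset.mem_univ (0 : K)), iota_zero_pow, if_neg (by omega), zero_smul,
      smul_zero, zero_add]
    -- reindex by `x ↦ -x⁻¹`
    apply Finset.sum_nbij' (fun x => -x⁻¹) (fun x => -x⁻¹)
    · intro x hx
      rw [Finset.mem_erase] at hx ⊢
      exact ⟨by simpa using hx.1, Finset.mem_univ _⟩
    · intro x hx
      rw [Finset.mem_erase] at hx ⊢
      exact ⟨by simpa using hx.1, Finset.mem_univ _⟩
    · intro x _
      rw [inv_neg, inv_inv, neg_neg]
    · intro x _
      rw [inv_neg, inv_inv, neg_neg]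
    · intro x hx
      rw [Finset.mem_erase] at hx
      have h1 := h.WUW_fixed (Units.mk0 x hx.1) hf
      rw [hw, map_smul, map_smul] at h1
      simp only [Units.val_mk0, Units.val_inv_eq_inv_val] at h1
      rw [map_smul, h1, ← smul_neg, smul_smul, smul_neg, smul_smul, ← neg_smul]
      congr 1
      have hx0 : ι x ≠ 0 := by
        rw [Ne, map_eq_zero]; exact hx.1
      rw [map_neg, map_inv₀, neg_pow (ι x)⁻¹, ← mul_assoc, ← pow_add, ← pow_add, inv_pow]
      have h2 : ι x ^ (j + r) * ι x ^ j' = 1 := by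
        rw [← pow_add]
        have := iota_pow_mod ι hK x hx.1 (m := j + r + j') (n := 0) (by omega)
        rw [this, pow_zero]
      have h3 : (ι x ^ j')⁻¹ = ι x ^ (j + r) := by
        rw [inv_eq_iff_eq_inv]
        exact eq_inv_of_mul_eq_one_right h2
      rw [h3]
      have h4 : (-1 : k) ^ (j + r + 1 + j') = -1 := by
        obtain ⟨c, hc⟩ := h8
        have : j + r + 1 + j' = 2 * (4 * c) + 1 := by omega
        rw [this, pow_succ, pow_mul, neg_one_sq, one_pow, one_mul]
      rw [h4]
      ring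

lemma b_smul (c : k) (v : V) (j : ℕ) : b ι U (c • v) j = c • b ι U v j := by
  unfold b
  rw [Finset.smul_sum]
  apply Finset.sum_congr rfl
  intro x _
  rw [map_smul, smul_comm]

/-- weight of `b (W v) j` -/
lemma b_weight (hK : Fintype.card K = 9) (h : Rels U T W) {v : V} {r : ℕ}
    (hw : Weight ι T r v) (j : ℕ) : Weight ι T (7 * r + 6 * j) (b ι U (W v) j) := by
  intro a
  rw [b_T hK h.TU]
  have h1 : T a (W v) = ι a ^ (7 * r) • W v := by
    have h2 := h.WT_apply a⁻¹ v
    rw [inv_inv] at h2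
    rw [← h2, hw, map_smul]
    congr 1
    have ha : (ι (a : K)) ^ 8 = 1 := iota_pow_eight ι hK _ a.ne_zero
    have hinv : ι ((a⁻¹ : Kˣ) : K) = ι (a : K) ^ 7 := by
      have ha0 : ι (a : K) ≠ 0 := by rw [Ne, map_eq_zero]; exact a.ne_zero
      rw [Units.val_inv_eq_inv_val, map_inv₀]
      rw [inv_eq_iff_eq_inv]
      apply eq_inv_of_mul_eq_one_left
      rw [← ha]; ring
    rw [hinv, ← pow_mul]
  rw [h1, b_smul, smul_smul, ← pow_add]
  congr 2
  ring

/-- dual version of `exists_fixed_weight` -/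
lemma exists_functional [IsAlgClosed k] [FiniteDimensional k V] [Nontrivial V]
    (hK : Fintype.card K = 9) (h : Rels U T W) :
    ∃ l : V →ₗ[k] k, l ≠ 0 ∧ (∀ x v, l (U x v) = l v) ∧
      ∃ s : ℕ, s < 8 ∧ Odd s ∧ ∀ (a : Kˣ) v, l (T a v) = ι a ^ s * l v := by
  have hUc : ∀ x y, U x * U y = U y * U x := by
    intro x y; rw [← h.Uadd, ← h.Uadd, add_comm]
  have hTc : ∀ x y, T x * T y = T y * T x := by
    intro x y; rw [← h.Tmul, ← h.Tmul, mul_comm]
  have hdual : ∀ f g : End k V, (Module.Dual.transpose (R := k) (f * g) : End k (Module.Dual k V))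
      = Module.Dual.transpose (R := k) g * Module.Dual.transpose (R := k) f := by
    intro f g; ext; rfl
  obtain ⟨l, hl, hfix, r, hr8, hrodd, hwt⟩ := exists_fixed_weight (ι := ι)
    (V := Module.Dual k V) (U := fun x => Module.Dual.transpose (R := k) (U (-x)))
    (T := fun a => Module.Dual.transpose (R := k) (T a⁻¹)) hK
    (by simp only [neg_zero, h.U0]; ext; rfl)
    (by intro x y; rw [neg_add, h.Uadd, hUc, hdual])
    (by simp only [inv_one, h.T1]; ext; rfl)
    (by intro x y; rw [mul_inv, h.Tmul, hTc, hdual])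
    (by
      have : ((-1 : Kˣ))⁻¹ = -1 := by rw [inv_neg, inv_one]
      simp only [this, h.Tneg]; ext l v; change l (-v) = - l v; rw [map_neg])
    (by
      intro a x
      rw [← hdual, ← hdual, h.TU]
      congr 2
      congr 1
      rw [Units.val_inv_eq_inv_val]
      field_simp)
  have hrpos : 1 ≤ r := by obtain ⟨c, rfl⟩ := hrodd; omega
  refine ⟨l, hl, ?_, 8 - r, by omega, ?_, ?_⟩
  · intro x v
    have h1 := congrArg (fun f : Module.Dual k V => f v) (hfix (-x))
    change l (U (- -x) v) = l v at h1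
    rwa [neg_neg] at h1
  · obtain ⟨c, hc⟩ := hrodd
    rw [Nat.odd_iff]; omega
  · intro a v
    have h1 := congrArg (fun f : Module.Dual k V => f v) (hwt a⁻¹)
    change l (T (a⁻¹)⁻¹ v) = ι ((a⁻¹ : Kˣ) : K) ^ r * l v at h1
    rw [inv_inv] at h1
    rw [h1]
    congr 1
    have ha0 : ι (a : K) ≠ 0 := by rw [Ne, map_eq_zero]; exact a.ne_zero
    have h8 : ι (a : K) ^ 8 = 1 := iota_pow_eight ι hK _ a.ne_zero
    rw [Units.val_inv_eq_inv_val, map_inv₀, inv_pow, inv_eq_iff_eq_inv]
    apply eq_inv_of_mul_eq_one_left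
    rw [← pow_add]
    have : r + (8 - r) = 8 := by omega
    rw [this, h8]

/-- irreducibility in terms of the operators -/
def Irr (U : K → End k V) (T : Kˣ → End k V) (W : End k V) : Prop :=
  ∀ S : Submodule k V, (∀ x, ∀ v ∈ S, U x v ∈ S) → (∀ a, ∀ v ∈ S, T a v ∈ S) →
    (∀ v ∈ S, W v ∈ S) → S = ⊥ ∨ S = ⊤

/-- The module is spanned by a fixed weight vector and the vectors `U x (W v)`. -/
lemma span_eq_top (h : Rels U T W) (hirr : Irr U T W) {v : V} (hv : v ≠ 0) (hf : Fixed U v)
    {r : ℕ} (hw : Weight ι T r v) :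
    Submodule.span k (insert v (Set.range fun x => U x (W v))) = ⊤ := by
  have hTW : ∀ a : Kˣ, T a (W v) = ι ((a⁻¹ : Kˣ) : K) ^ r • W v := by
    intro a
    have h2 := h.WT_apply a⁻¹ v
    rw [inv_inv] at h2
    rw [← h2, hw, map_smul]
  set S := Submodule.span k (insert v (Set.range fun x => U x (W v))) with hS
  have hA : ∀ x, ∀ z ∈ S, U x z ∈ S := by
    intro y x hx
    induction hx using Submodule.span_induction with
    | mem z hz =>
      rcases hz with rfl | ⟨x, rfl⟩
      · rw [hf]; exact Submodule.subset_span (Set.mem_insert _ _)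
      · simp only
        rw [← h.Uadd_apply]
        exact Submodule.subset_span (Set.mem_insert_of_mem _ ⟨_, rfl⟩)
    | zero => rw [map_zero]; exact zero_mem _
    | add a b _ _ ha hb => rw [map_add]; exact add_mem ha hb
    | smul c a _ ha => rw [map_smul]; exact Submodule.smul_mem _ _ ha
  have hB : ∀ a, ∀ z ∈ S, T a z ∈ S := by
    intro a x hx
    induction hx using Submodule.span_induction with
    | mem z hz =>
      rcases hz with rfl | ⟨x, rfl⟩
      · rw [hw]; exact Submodule.smul_mem _ _ (Submodule.subset_span (Set.mem_insert _ _))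
      · simp only
        rw [h.TU_apply, hTW, map_smul]
        exact Submodule.smul_mem _ _
          (Submodule.subset_span (Set.mem_insert_of_mem _ ⟨_, rfl⟩))
    | zero => rw [map_zero]; exact zero_mem _
    | add a b _ _ ha hb => rw [map_add]; exact add_mem ha hb
    | smul c a _ ha => rw [map_smul]; exact Submodule.smul_mem _ _ ha
  have hC : ∀ z ∈ S, W z ∈ S := by
    intro x hx
    induction hx using Submodule.span_induction with
    | mem z hz =>
      rcases hz with rfl | ⟨x, rfl⟩
      · exact Submodule.subset_span (Set.mem_insert_of_mem _ ⟨0, by simp [h.U0]⟩)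
      · simp only
        by_cases hx : x = 0
        · subst hx
          rw [h.U0, Module.End.one_apply, h.WW_apply]
          exact neg_mem (Submodule.subset_span (Set.mem_insert _ _))
        · have h2 := h.WUW_fixed (Units.mk0 x hx) hf
          rw [hw, map_smul, map_smul] at h2
          simp only [Units.val_mk0] at h2
          rw [h2]
          exact neg_mem (Submodule.smul_mem _ _
            (Submodule.subset_span (Set.mem_insert_of_mem _ ⟨_, rfl⟩)))
    | zero => rw [map_zero]; exact zero_mem _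
    | add a b _ _ ha hb => rw [map_add]; exact add_mem ha hb
    | smul c a _ ha => rw [map_smul]; exact Submodule.smul_mem _ _ ha
  rcases hirr S hA hB hC with h1 | h1
  · exfalso
    have : v ∈ S := Submodule.subset_span (Set.mem_insert _ _)
    rw [h1, Submodule.mem_bot] at this
    exact hv this
  · exact h1

/-- A functional which is `U`-invariant and vanishes at `v` and `W v` is zero. -/
lemma functional_eq_zero (h : Rels U T W) (hirr : Irr U T W) {v : V} (hv : v ≠ 0)
    (hf : Fixed U v) {r : ℕ} (hw : Weight ι T r v) {l : V →ₗ[k] k}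
    (hl : ∀ x y, l (U x y) = l y) (h1 : l v = 0) (h2 : l (W v) = 0) : l = 0 := by
  have h3 := span_eq_top h hirr hv hf hw
  apply LinearMap.ext
  intro x
  have hx : x ∈ Submodule.span k (insert v (Set.range fun x => U x (W v))) := by
    rw [h3]; exact Submodule.mem_top
  rw [LinearMap.zero_apply]
  induction hx using Submodule.span_induction with
  | mem z hz =>
    rcases hz with rfl | ⟨x, rfl⟩
    · exact h1
    · simp only; rw [hl, h2]
  | zero => rw [map_zero]
  | add a b _ _ ha hb => rw [map_add, ha, hb, add_zero]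
  | smul c a _ ha => rw [map_smul, ha, smul_zero]

lemma l_b (hK : Fintype.card K = 9) {l : V →ₗ[k] k} (hl : ∀ x y, l (U x y) = l y) (v : V) (j : ℕ)
    (hj : j < 8) : l (b ι U v j) = 0 := by
  unfold b
  rw [map_sum]
  simp_rw [map_smul, hl, smul_eq_mul]
  rw [← Finset.sum_mul]
  rcases Nat.eq_zero_or_pos j with rfl | hj0
  · simp only [pow_zero, Finset.sum_const, Finset.card_univ, hK, nsmul_eq_mul, mul_one]
    have := nine ι hK
    rw [show ((9 : ℕ) : k) = 9 by norm_num, this, zero_mul]
  · rw [powsum' ι hK _ hj0, if_neg (by omega), zero_mul]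

/-- If some fixed weight vector is killed by `l`, all of them are. -/
lemma all_killed (hK : Fintype.card K = 9) (h : Rels U T W) (hirr : Irr U T W)
    {l : V →ₗ[k] k} (hl : ∀ x y, l (U x y) = l y)
    {v' : V} (hv' : v' ≠ 0) (hf' : Fixed U v') {r' : ℕ} (hr' : Odd r') (hr8' : r' < 8)
    (hw' : Weight ι T r' v')
    (hlv' : l v' = 0) {v : V} (hf : Fixed U v) {r : ℕ} (hr : Odd r) (hr8 : r < 8)
    (hw : Weight ι T r v) : l v = 0 := by
  classical
  -- `ε x = ∑ y, l (W (U y x))`
  let ε : V →ₗ[k] k := ∑ y : K, l ∘ₗ W ∘ₗ (U y)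
  have hε : ∀ x, ε x = ∑ y : K, l (W (U y x)) := by
    intro x
    simp only [ε, LinearMap.sum_apply, LinearMap.comp_apply]
  have hεU : ∀ x y, ε (U x y) = ε y := by
    intro x y
    rw [hε, hε]
    simp_rw [← h.Uadd_apply]
    exact Equiv.sum_comp (Equiv.addRight x) (fun z => l (W (U z y)))
  -- value at `W u` for a fixed weight vector `u`
  have hεW : ∀ {u : V} {q : ℕ}, Fixed U u → Odd q → q < 8 → Weight ι T q u → ε (W u) = - l u := by
    intro u q hfu hq hq8 hwu
    rw [hε, ← Finset.add_sum_erase _ _ (Finset.mem_univ (0 : K)), h.U0, Module.End.one_apply,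
      h.WW_apply, map_neg]
    have h1 : ∑ x ∈ (Finset.univ : Finset K).erase 0, l (W (U x (W u))) = 0 := by
      have h2 : ∀ x ∈ (Finset.univ : Finset K).erase 0, l (W (U x (W u))) =
          ι x ^ q * (- l (W u)) := by
        intro x hx
        rw [Finset.mem_erase] at hx
        have h3 := h.WUW_fixed (Units.mk0 x hx.1) hfu
        rw [hwu, map_smul, map_smul] at h3
        simp only [Units.val_mk0] at h3
        rw [h3, map_neg, map_smul, hl, smul_eq_mul]
        ring
      rw [Finset.sum_congr rfl h2, ← Finset.sum_mul]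
      have h4 : ∑ x ∈ (Finset.univ : Finset K).erase 0, ι x ^ q = 0 := by
        have h5 := powsum' ι hK q (by obtain ⟨c, rfl⟩ := hq; omega)
        rw [← Finset.add_sum_erase _ _ (Finset.mem_univ (0 : K)), iota_zero_pow,
          if_neg (by obtain ⟨c, rfl⟩ := hq; omega), zero_add, if_neg (by
            obtain ⟨c, rfl⟩ := hq; omega)] at h5
        exact h5
      rw [h4, zero_mul]
    rw [h1, add_zero]
  have hε0 : ε = 0 := by
    apply functional_eq_zero h hirr hv' hf' hw' hεU
    · rw [hε]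
      have : ∀ y, l (W (U y v')) = l (W v') := fun y => by rw [hf' y]
      simp_rw [this]
      rw [Finset.sum_const, Finset.card_univ, hK, nsmul_eq_mul,
        show ((9 : ℕ) : k) = 9 by norm_num, nine ι hK, zero_mul]
    · rw [hεW hf' hr' hr8' hw', hlv', neg_zero]
  have h6 := hεW hf hr hr8 hw
  rw [hε0, LinearMap.zero_apply] at h6
  exact neg_eq_zero.1 h6.symm

/-- normalise the weight -/
lemma weight_mod (hK : Fintype.card K = 9) {r : ℕ} {v : V} (hw : Weight ι T r v) :
    Weight ι T (r % 8) v := by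
  intro a
  rw [hw a, iota_pow_mod ι hK _ a.ne_zero (show r % 8 = (r % 8) % 8 by omega)]

/-- Consequences of the existence of the functional. -/
lemma key (hK : Fintype.card K = 9) (h : Rels U T W) (hirr : Irr U T W)
    {l : V →ₗ[k] k} (hl0 : l ≠ 0) (hl : ∀ x y, l (U x y) = l y)
    {v : V} (hv : v ≠ 0) (hf : Fixed U v) {r : ℕ} (hr : Odd r) (hr8 : r < 8)
    (hw : Weight ι T r v) : l v = 0 ∧ l (W v) ≠ 0 ∧ b ι U (W v) 0 = 0 := by
  have hdvd : 8 ∣ 0 + r + (8 - r) := by rw [zero_add]; exact ⟨1, by omega⟩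
  have hrpos : 1 ≤ r := by obtain ⟨c, rfl⟩ := hr; omega
  have hsgn : ((-1) ^ (0 + r + 1) : k) = 1 := by
    obtain ⟨c, rfl⟩ := hr
    rw [show 0 + (2 * c + 1) + 1 = 2 * (c + 1) by ring, pow_mul, neg_one_sq, one_pow]
  -- the vector `e = b (W u) 0` for fixed weight vectors
  have he : ∀ {u : V} {q : ℕ}, Fixed U u → Odd q → q < 8 → Weight ι T q u →
      Fixed U (b ι U (W u) 0) ∧ Weight ι T ((7 * q + 6 * 0) % 8) (b ι U (W u) 0) ∧
      Odd ((7 * q + 6 * 0) % 8) ∧ (7 * q + 6 * 0) % 8 < 8 ∧
      l (W (b ι U (W u) 0)) = - l u := by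
    intro u q hfu hq hq8 hwu
    have hqpos : 1 ≤ q := by obtain ⟨c, rfl⟩ := hq; omega
    refine ⟨b_fixed h.Uadd (fun i hi => absurd hi (Nat.not_lt_zero i)),
      weight_mod hK (b_weight hK h hwu 0), ?_, Nat.mod_lt _ (by norm_num), ?_⟩
    · obtain ⟨c, rfl⟩ := hq; rw [Nat.odd_iff]; omega
    · rw [W_b hK h hfu hwu (j := 0) (j' := 8 - q) (by omega) (by rw [zero_add]; exact ⟨1, by omega⟩),
        if_pos rfl, map_add, map_neg, map_smul, l_b hK hl _ _ (by omega), smul_zero, add_zero]
  have hlv : l v = 0 := by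
    by_contra hne
    obtain ⟨e1, e2, e3, e4, e5⟩ := he hf hr hr8 hw
    by_cases he0 : b ι U (W v) 0 = 0
    · rw [he0, map_zero, map_zero] at e5
      exact hne (neg_eq_zero.1 e5.symm)
    · exact hne (all_killed hK h hirr hl he0 e1 e3 e4 e2 (l_b hK hl _ _ (by norm_num)) hf hr hr8 hw)
  refine ⟨hlv, ?_, ?_⟩
  · intro h0
    exact hl0 (functional_eq_zero h hirr hv hf hw hl hlv h0)
  · obtain ⟨e1, e2, e3, e4, e5⟩ := he hf hr hr8 hw
    by_contra he0
    rw [hlv, neg_zero] at e5
    exact hl0 (functional_eq_zero h hirr he0 e1 e2 hl (l_b hK hl _ _ (by norm_num)) e5)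

/-- All fixed weight vectors have the same weight. -/
lemma same_weight (hK : Fintype.card K = 9) (h : Rels U T W) (hirr : Irr U T W)
    {l : V →ₗ[k] k} (hl0 : l ≠ 0) (hl : ∀ x y, l (U x y) = l y) {s : ℕ}
    (hls : ∀ (a : Kˣ) v, l (T a v) = ι a ^ s * l v)
    {v : V} (hv : v ≠ 0) (hf : Fixed U v) {r : ℕ} (hr : Odd r) (hr8 : r < 8)
    (hw : Weight ι T r v) : (s + r) % 8 = 0 := by
  classical
  obtain ⟨_, h2, _⟩ := key hK h hirr hl0 hl hv hf hr hr8 hw
  obtain ⟨ω, hω⟩ := IsCyclic.exists_generator (α := Kˣ)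
  have hord : orderOf ω = 8 := by
    rw [orderOf_eq_card_of_forall_mem_zpowers hω, Nat.card_eq_fintype_card, Fintype.card_units, hK]
  have hTW : T ω⁻¹ (W v) = ι (ω : K) ^ r • W v := by
    rw [← h.WT_apply, hw, map_smul]
  have h3 := hls ω⁻¹ (W v)
  rw [hTW, map_smul, smul_eq_mul] at h3
  have h4 := mul_right_cancel₀ h2 h3
  have hω0 : ι (ω : K) ≠ 0 := by rw [Ne, map_eq_zero]; exact ω.ne_zero
  have h5 : ι ((ω ^ (s + r) : Kˣ) : K) = 1 := by
    rw [Units.val_pow_eq_pow_val, map_pow, pow_add, h4, Units.val_inv_eq_inv_val, map_inv₀, inv_pow,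
      mul_inv_cancel₀ (pow_ne_zero _ hω0)]
  have h6 : ω ^ (s + r) = 1 := by
    apply Units.ext
    apply ι.injective
    rw [h5, Units.val_one, map_one]
  have h7 := orderOf_dvd_of_pow_eq_one h6
  rw [hord] at h7
  omega

end Pool.Agent.R717.ModNine
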