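import Pool.Agent.R717.ModNine2

/-! Irreducible modules for `SL(2, 9)` in characteristic `3` with `-1` acting as `-1`:
the dimension. -/

namespace Pool.Agent.R717.ModNine

open Module Finset

variable {K k V : Type*} [Field K] [Fintype K] [Field k] [AddCommGroup V] [Module k V]
variable {ι : K →+* k} {U : K → End k V} {T : Kˣ → End k V} {W : End k V}

lemma cast_ne (h3 : (3 : k) = 0) (n : ℕ) (h : n % 3 ≠ 0) : (n : k) ≠ 0 := by
  have h1 : ((3 * (n / 3) + n % 3 : ℕ) : k) = (n : k) := by rw [Nat.div_add_mod]
  rw [← h1]
  push_cast
  rw [h3, zero_mul, zero_add]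
  have h2 : n % 3 = 1 ∨ n % 3 = 2 := by omega
  rcases h2 with h2 | h2
  · have : ((n : k) % 3 : k) = ((n % 3 : ℕ) : k) ∨ True := Or.inr trivial
    intro h4
    have h5 : ((n % 3 : ℕ) : k) = 0 := by exact_mod_cast h4
    rw [h2, Nat.cast_one] at h5
    exact one_ne_zero h5
  · intro h4
    have h5 : ((n % 3 : ℕ) : k) = 0 := by exact_mod_cast h4
    rw [h2] at h5
    have h6 : (2 : k) = 0 := by exact_mod_cast h5
    have h7 : (1 : k) = 3 - 2 := by norm_num
    rw [h3, h6, sub_zero] at h7
    exact one_ne_zero h7

lemma cast_eq (h3 : (3 : k) = 0) (n : ℕ) (h : n % 3 = 0) : (n : k) = 0 := by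
  have h1 : ((3 * (n / 3) + n % 3 : ℕ) : k) = (n : k) := by rw [Nat.div_add_mod]
  rw [← h1, h]
  push_cast
  rw [h3, zero_mul, zero_add]

/-- The set-up: all the facts used for the computation of the dimension. -/
lemma facts [IsAlgClosed k] [FiniteDimensional k V] [Nontrivial V]
    (hK : Fintype.card K = 9) (h : Rels U T W) (hirr : Irr U T W) (ι : K →+* k) :
    ∃ (c : ℕ → V) (r : ℕ), Odd r ∧ r < 8 ∧ c 0 = 0 ∧ c (8 - r) ≠ 0 ∧
      (∀ m, 1 ≤ m → m ≤ 7 → ((8 - r).choose m : k) • c (8 - r - m) = 0) ∧
      (∀ j, j ≤ 8 → (∀ i < j, (j.choose i : k) • c i = 0) → c j ≠ 0 → 4 ∣ r + j) ∧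
      (∀ j j', 1 ≤ j → 1 ≤ j' → 8 ∣ j + r + j' → c j = 0 → c j' = 0) ∧
      Submodule.span k (Set.range fun j : Fin 9 => c j) = ⊤ ∧
      (∀ m j, 1 ≤ m → m ≤ 7 → j ≤ 8 →
        D ι U m (c j) = ((-1) ^ (m + 1) * (j.choose m : k)) • c (j - m)) := by
  obtain ⟨v, hv, hf, r, hr8, hr, hw⟩ := exists_fixed_weight (ι := ι) (V := V) (U := U) (T := T) hK
    h.U0 h.Uadd h.T1 h.Tmul h.Tneg h.TU
  obtain ⟨l, hl0, hl, s, hs8, hs, hls⟩ := exists_functional (ι := ι) hK h
  obtain ⟨hlv, hlWv, hb0⟩ := key hK h hirr hl0 hl hv hf hr hr8 hw
  have hsr := same_weight hK h hirr hl0 hl hls hv hf hr hr8 hw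
  have hrpos : 1 ≤ r := by obtain ⟨c, rfl⟩ := hr; omega
  have hvc : b ι U (W v) (8 - r) = v := by
    have h1 := W_b hK h hf hw (j := 0) (j' := 8 - r) (by omega)
      (by rw [zero_add]; exact ⟨1, by omega⟩)
    rw [hb0, map_zero, if_pos rfl] at h1
    have h2 : ((-1) ^ (0 + r + 1) : k) = 1 := by
      obtain ⟨c, rfl⟩ := hr
      rw [show 0 + (2 * c + 1) + 1 = 2 * (c + 1) by ring, pow_mul, neg_one_sq, one_pow]
    rw [h2, one_smul] at h1
    have h3 : b ι U (W v) (8 - r) = 0 + v := by rw [h1]; abel
    rw [h3, zero_add]
  refine ⟨b ι U (W v), r, hr, hr8, hb0, by rw [hvc]; exact hv, ?_, ?_, ?_, ?_, ?_⟩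
  · intro m hm1 hm
    have h1 := D_b (ι := ι) hK h.Uadd hm1 hm (j := 8 - r) (by omega) (W v)
    rw [hvc, D_fixed hK hm1 hm hf, mul_smul] at h1
    rcases smul_eq_zero.1 h1.symm with h2 | h2
    · exact absurd h2 (pow_ne_zero _ (by norm_num))
    · exact h2
  · intro j hj hfix hne
    have hfj := b_fixed h.Uadd hfix
    have hwj := weight_mod hK (b_weight hK h hw j)
    have h1 := same_weight hK h hirr hl0 hl hls hne hfj
      (by obtain ⟨c, rfl⟩ := hr; rw [Nat.odd_iff]; omega) (Nat.mod_lt _ (by norm_num)) hwj
    omega
  · intro j j' hj hj' h8 hcj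
    have h1 := W_b hK h hf hw (j := j) (j' := j') hj' h8
    rw [hcj, map_zero, if_neg (by omega), zero_add] at h1
    rcases smul_eq_zero.1 h1.symm with h2 | h2
    · exact absurd h2 (pow_ne_zero _ (by norm_num))
    · exact h2
  · set S := Submodule.span k (Set.range fun j : Fin 9 => b ι U (W v) j) with hS
    have hmem : ∀ j, j < 9 → b ι U (W v) j ∈ S :=
      fun j hj => Submodule.subset_span ⟨⟨j, hj⟩, rfl⟩
    have hA : ∀ x, ∀ z ∈ S, U x z ∈ S := by
      intro y x hx
      induction hx using Submodule.span_induction with
      | mem z hz =>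
        obtain ⟨j, rfl⟩ := hz
        simp only
        rw [b_apply_add h.Uadd]
        apply Submodule.sum_mem
        intro i hi
        rw [Finset.mem_range] at hi
        exact Submodule.smul_mem _ _ (hmem i (by omega))
      | zero => rw [map_zero]; exact zero_mem _
      | add a b _ _ ha hb => rw [map_add]; exact add_mem ha hb
      | smul c a _ ha => rw [map_smul]; exact Submodule.smul_mem _ _ ha
    have hB : ∀ a, ∀ z ∈ S, T a z ∈ S := by
      intro a x hx
      induction hx using Submodule.span_induction with
      | mem z hz =>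
        obtain ⟨j, rfl⟩ := hz
        simp only
        rw [b_weight hK h hw]
        exact Submodule.smul_mem _ _ (hmem j j.2)
      | zero => rw [map_zero]; exact zero_mem _
      | add a b _ _ ha hb => rw [map_add]; exact add_mem ha hb
      | smul c a _ ha => rw [map_smul]; exact Submodule.smul_mem _ _ ha
    have hC : ∀ z ∈ S, W z ∈ S := by
      intro x hx
      induction hx using Submodule.span_induction with
      | mem z hz =>
        obtain ⟨j, rfl⟩ := hz
        simp only
        by_cases hj0 : (j : ℕ) = 0
        · rw [hj0, hb0, map_zero]; exact zero_mem _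
        · rw [W_b hK h hf hw (j := j) (j' := 8 - (j + r) % 8) (by omega) (by omega), if_neg hj0,
            zero_add]
          exact Submodule.smul_mem _ _ (hmem _ (by omega))
      | zero => rw [map_zero]; exact zero_mem _
      | add a b _ _ ha hb => rw [map_add]; exact add_mem ha hb
      | smul c a _ ha => rw [map_smul]; exact Submodule.smul_mem _ _ ha
    rcases hirr S hA hB hC with h1 | h1
    · exfalso
      have h2 : v ∈ S := by
        have := hmem (8 - r) (by omega)
        rwa [hvc] at this
      rw [h1, Submodule.mem_bot] at h2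
      exact hv h2
    · exact h1
  · intro m j hm1 hm hj
    exact D_b hK h.Uadd hm1 hm hj (W v)

/-- A spanning family with only two nonzero members. -/
lemma finrank_le_two {c : ℕ → V} (p q : ℕ)
    (hs : Submodule.span k (Set.range fun j : Fin 9 => c j) = ⊤)
    (hz : ∀ j < 9, j ≠ p → j ≠ q → c j = 0) : finrank k V ≤ 2 := by
  classical
  have h1 : (⊤ : Submodule k V) ≤ Submodule.span k (({c p, c q} : Finset V) : Set V) := by
    rw [← hs, Submodule.span_le]
    rintro _ ⟨j, rfl⟩
    simp only
    by_cases hp : (j : ℕ) = p
    · rw [hp]; exact Submodule.subset_span (by simp)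
    · by_cases hq : (j : ℕ) = q
      · rw [hq]; exact Submodule.subset_span (by simp)
      · rw [hz j j.2 hp hq]; exact zero_mem _
  have h2 : finrank k (Submodule.span k (({c p, c q} : Finset V) : Set V)) ≤
      ({c p, c q} : Finset V).card := finrank_span_finset_le_card _
  have h3 : Submodule.span k (({c p, c q} : Finset V) : Set V) = ⊤ := top_le_iff.1 h1
  rw [h3, finrank_top] at h2
  exact h2.trans Finset.card_le_two

theorem dim [IsAlgClosed k] [FiniteDimensional k V] [Nontrivial V]
    (hK : Fintype.card K = 9) (h : Rels U T W) (hirr : Irr U T W) (ι : K →+* k) :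
    finrank k V ≤ 2 ∨ finrank k V = 6 := by
  obtain ⟨c, r, hr, hr8, hc0, hcv, hbin, hwt, hW, hspan, hD⟩ := facts hK h hirr ι
  have h3 : (3 : k) = 0 := three ι hK
  have kill : ∀ {n : ℕ} {x : V}, n % 3 ≠ 0 → (n : k) • x = 0 → x = 0 := by
    intro n x hn hx
    rcases smul_eq_zero.1 hx with h1 | h1
    · exact absurd h1 (cast_ne h3 n hn)
    · exact h1
  have hcases : r = 1 ∨ r = 3 ∨ r = 5 ∨ r = 7 := by
    obtain ⟨a, rfl⟩ := hr; omega
  rcases hcases with rfl | rfl | rfl | rfl
  · left
    have h6 : c 6 = 0 := kill (n := (8 - 1).choose 1) (by decide) (hbin 1 (by norm_num) (by norm_num))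
    have h4 : c 4 = 0 := kill (n := (8 - 1).choose 3) (by decide) (hbin 3 (by norm_num) (by norm_num))
    have h3' : c 3 = 0 := kill (n := (8 - 1).choose 4) (by decide) (hbin 4 (by norm_num) (by norm_num))
    have h1 : c 1 = 0 := kill (n := (8 - 1).choose 6) (by decide) (hbin 6 (by norm_num) (by norm_num))
    have h2 : c 2 = 0 := by
      by_contra hne
      have := hwt 2 (by norm_num) (by
        intro i hi
        interval_cases i
        · rw [hc0, smul_zero]
        · rw [h1, smul_zero]) hne
      omega
    have h5 : c 5 = 0 := hW 2 5 (by norm_num) (by norm_num) (by norm_num) h2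
    apply finrank_le_two 7 8 hspan
    intro j hj hj7 hj8
    interval_cases j <;> first | assumption | exact absurd rfl hj7 | exact absurd rfl hj8
  · left
    have h4 : c 4 = 0 := kill (n := (8 - 3).choose 1) (by decide) (hbin 1 (by norm_num) (by norm_num))
    have h3' : c 3 = 0 := kill (n := (8 - 3).choose 2) (by decide) (hbin 2 (by norm_num) (by norm_num))
    have h2 : c 2 = 0 := kill (n := (8 - 3).choose 3) (by decide) (hbin 3 (by norm_num) (by norm_num))
    have h1 : c 1 = 0 := kill (n := (8 - 3).choose 4) (by decide) (hbin 4 (by norm_num) (by norm_num))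
    have h6 : c 6 = 0 := by
      by_contra hne
      have := hwt 6 (by norm_num) (by
        intro i hi
        interval_cases i
        · rw [hc0, smul_zero]
        · rw [h1, smul_zero]
        · rw [h2, smul_zero]
        · rw [h3', smul_zero]
        · rw [h4, smul_zero]
        · rw [cast_eq h3 _ (by decide), zero_smul]) hne
      omega
    have h7 : c 7 = 0 := hW 6 7 (by norm_num) (by norm_num) (by norm_num) h6
    apply finrank_le_two 5 8 hspan
    intro j hj hj7 hj8
    interval_cases j <;> first | assumption | exact absurd rfl hj7 | exact absurd rfl hj8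
  · right
    have h1 : c 1 = 0 := by
      by_contra hne
      have := hwt 1 (by norm_num) (by
        intro i hi
        interval_cases i
        rw [hc0, smul_zero]) hne
      omega
    have h2 : c 2 = 0 := hW 1 2 (by norm_num) (by norm_num) (by norm_num) h1
    have hc3 : c 3 ≠ 0 := hcv
    let f : Fin 6 → V := ![c 3, c 4, c 5, c 6, c 7, c 8]
    have hli : LinearIndependent k f := by
      rw [Fintype.linearIndependent_iff]
      intro g hg
      rw [Fin.sum_univ_six] at hg
      change g 0 • c 3 + g 1 • c 4 + g 2 • c 5 + g 3 • c 6 + g 4 • c 7 + g 5 • c 8 = 0 at hg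
      have aux : ∀ {x : k} {n m : ℕ}, n % 3 ≠ 0 → x • ((-1 : k) ^ (m + 1) * (n : k)) • c 3 = 0 →
          x = 0 := by
        intro x n m hn hx
        rcases smul_eq_zero.1 hx with h5 | h5
        · exact h5
        · rcases smul_eq_zero.1 h5 with h6 | h6
          · exact absurd h6 (mul_ne_zero (pow_ne_zero _ (by norm_num)) (cast_ne h3 n hn))
          · exact absurd h6 hc3
      have g5 : g 5 = 0 := by
        have e := congrArg (D ι U 5) hg
        simp only [map_add, map_smul, map_zero] at e
        rw [hD 5 3 (by norm_num) (by norm_num) (by norm_num),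
          hD 5 4 (by norm_num) (by norm_num) (by norm_num),
          hD 5 5 (by norm_num) (by norm_num) (by norm_num),
          hD 5 6 (by norm_num) (by norm_num) (by norm_num),
          hD 5 7 (by norm_num) (by norm_num) (by norm_num),
          hD 5 8 (by norm_num) (by norm_num) (by norm_num)] at e
        simp only [show 3 - 5 = 0 by norm_num, show 4 - 5 = 0 by norm_num,
          show 5 - 5 = 0 by norm_num, show 6 - 5 = 1 by norm_num, show 7 - 5 = 2 by norm_num,
          show 8 - 5 = 3 by norm_num, hc0, h1, h2, smul_zero, zero_add] at e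
        exact aux (by decide) e
      rw [g5, zero_smul, add_zero] at hg
      have g4 : g 4 = 0 := by
        have e := congrArg (D ι U 4) hg
        simp only [map_add, map_smul, map_zero] at e
        rw [hD 4 3 (by norm_num) (by norm_num) (by norm_num),
          hD 4 4 (by norm_num) (by norm_num) (by norm_num),
          hD 4 5 (by norm_num) (by norm_num) (by norm_num),
          hD 4 6 (by norm_num) (by norm_num) (by norm_num),
          hD 4 7 (by norm_num) (by norm_num) (by norm_num)] at e
        simp only [show 3 - 4 = 0 by norm_num, show 4 - 4 = 0 by norm_num,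
          show 5 - 4 = 1 by norm_num, show 6 - 4 = 2 by norm_num, show 7 - 4 = 3 by norm_num,
          hc0, h1, h2, smul_zero, zero_add] at e
        exact aux (by decide) e
      rw [g4, zero_smul, add_zero] at hg
      have g3 : g 3 = 0 := by
        have e := congrArg (D ι U 3) hg
        simp only [map_add, map_smul, map_zero] at e
        rw [hD 3 3 (by norm_num) (by norm_num) (by norm_num),
          hD 3 4 (by norm_num) (by norm_num) (by norm_num),
          hD 3 5 (by norm_num) (by norm_num) (by norm_num),
          hD 3 6 (by norm_num) (by norm_num) (by norm_num)] at e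
        simp only [show 3 - 3 = 0 by norm_num, show 4 - 3 = 1 by norm_num,
          show 5 - 3 = 2 by norm_num, show 6 - 3 = 3 by norm_num,
          hc0, h1, h2, smul_zero, zero_add] at e
        exact aux (by decide) e
      rw [g3, zero_smul, add_zero] at hg
      have g2 : g 2 = 0 := by
        have e := congrArg (D ι U 2) hg
        simp only [map_add, map_smul, map_zero] at e
        rw [hD 2 3 (by norm_num) (by norm_num) (by norm_num),
          hD 2 4 (by norm_num) (by norm_num) (by norm_num),
          hD 2 5 (by norm_num) (by norm_num) (by norm_num)] at e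
        simp only [show 3 - 2 = 1 by norm_num, show 4 - 2 = 2 by norm_num,
          show 5 - 2 = 3 by norm_num,
          hc0, h1, h2, smul_zero, zero_add] at e
        exact aux (by decide) e
      rw [g2, zero_smul, add_zero] at hg
      have g1 : g 1 = 0 := by
        have e := congrArg (D ι U 1) hg
        simp only [map_add, map_smul, map_zero] at e
        rw [hD 1 3 (by norm_num) (by norm_num) (by norm_num),
          hD 1 4 (by norm_num) (by norm_num) (by norm_num)] at e
        simp only [show 3 - 1 = 2 by norm_num, show 4 - 1 = 3 by norm_num,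
          hc0, h1, h2, smul_zero, zero_add] at e
        exact aux (by decide) e
      rw [g1, zero_smul, add_zero] at hg
      have g0 : g 0 = 0 := by
        rcases smul_eq_zero.1 hg with h5 | h5
        · exact h5
        · exact absurd h5 hc3
      intro i
      fin_cases i <;> assumption
    have hsp : ⊤ ≤ Submodule.span k (Set.range f) := by
      rw [← hspan, Submodule.span_le]
      rintro _ ⟨j, rfl⟩
      simp only
      have hj := j.2
      generalize (j : ℕ) = i at hj
      interval_cases i
      · rw [hc0]; exact zero_mem _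
      · rw [h1]; exact zero_mem _
      · rw [h2]; exact zero_mem _
      · exact Submodule.subset_span ⟨0, rfl⟩
      · exact Submodule.subset_span ⟨1, rfl⟩
      · exact Submodule.subset_span ⟨2, rfl⟩
      · exact Submodule.subset_span ⟨3, rfl⟩
      · exact Submodule.subset_span ⟨4, rfl⟩
      · exact Submodule.subset_span ⟨5, rfl⟩
    rw [finrank_eq_card_basis (Basis.mk hli hsp), Fintype.card_fin]
  · right
    have hc1 : c 1 ≠ 0 := hcv
    have h3' : c 3 = 0 := by
      by_contra hne
      have := hwt 3 (by norm_num) (by
        intro i hi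
        interval_cases i
        · rw [hc0, smul_zero]
        · rw [cast_eq h3 _ (by decide), zero_smul]
        · rw [cast_eq h3 _ (by decide), zero_smul]) hne
      omega
    have h6 : c 6 = 0 := hW 3 6 (by norm_num) (by norm_num) (by norm_num) h3'
    let f : Fin 6 → V := ![c 1, c 2, c 4, c 5, c 7, c 8]
    have hli : LinearIndependent k f := by
      rw [Fintype.linearIndependent_iff]
      intro g hg
      rw [Fin.sum_univ_six] at hg
      change g 0 • c 1 + g 1 • c 2 + g 2 • c 4 + g 3 • c 5 + g 4 • c 7 + g 5 • c 8 = 0 at hg
      have aux : ∀ {x : k} {n m : ℕ}, n % 3 ≠ 0 → x • ((-1 : k) ^ (m + 1) * (n : k)) • c 1 = 0 →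
          x = 0 := by
        intro x n m hn hx
        rcases smul_eq_zero.1 hx with h5 | h5
        · exact h5
        · rcases smul_eq_zero.1 h5 with h6 | h6
          · exact absurd h6 (mul_ne_zero (pow_ne_zero _ (by norm_num)) (cast_ne h3 n hn))
          · exact absurd h6 hc1
      have g5 : g 5 = 0 := by
        have e := congrArg (D ι U 7) hg
        simp only [map_add, map_smul, map_zero] at e
        rw [hD 7 1 (by norm_num) (by norm_num) (by norm_num),
          hD 7 2 (by norm_num) (by norm_num) (by norm_num),
          hD 7 4 (by norm_num) (by norm_num) (by norm_num),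
          hD 7 5 (by norm_num) (by norm_num) (by norm_num),
          hD 7 7 (by norm_num) (by norm_num) (by norm_num),
          hD 7 8 (by norm_num) (by norm_num) (by norm_num)] at e
        simp only [show 1 - 7 = 0 by norm_num, show 2 - 7 = 0 by norm_num,
          show 4 - 7 = 0 by norm_num, show 5 - 7 = 0 by norm_num, show 7 - 7 = 0 by norm_num,
          show 8 - 7 = 1 by norm_num, hc0, smul_zero, zero_add] at e
        exact aux (by decide) e
      rw [g5, zero_smul, add_zero] at hg
      have g4 : g 4 = 0 := by
        have e := congrArg (D ι U 6) hg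
        simp only [map_add, map_smul, map_zero] at e
        rw [hD 6 1 (by norm_num) (by norm_num) (by norm_num),
          hD 6 2 (by norm_num) (by norm_num) (by norm_num),
          hD 6 4 (by norm_num) (by norm_num) (by norm_num),
          hD 6 5 (by norm_num) (by norm_num) (by norm_num),
          hD 6 7 (by norm_num) (by norm_num) (by norm_num)] at e
        simp only [show 1 - 6 = 0 by norm_num, show 2 - 6 = 0 by norm_num,
          show 4 - 6 = 0 by norm_num, show 5 - 6 = 0 by norm_num, show 7 - 6 = 1 by norm_num,
          hc0, smul_zero, zero_add] at e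
        exact aux (by decide) e
      rw [g4, zero_smul, add_zero] at hg
      have g3 : g 3 = 0 := by
        have e := congrArg (D ι U 4) hg
        simp only [map_add, map_smul, map_zero] at e
        rw [hD 4 1 (by norm_num) (by norm_num) (by norm_num),
          hD 4 2 (by norm_num) (by norm_num) (by norm_num),
          hD 4 4 (by norm_num) (by norm_num) (by norm_num),
          hD 4 5 (by norm_num) (by norm_num) (by norm_num)] at e
        simp only [show 1 - 4 = 0 by norm_num, show 2 - 4 = 0 by norm_num,
          show 4 - 4 = 0 by norm_num, show 5 - 4 = 1 by norm_num,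
          hc0, smul_zero, zero_add] at e
        exact aux (by decide) e
      rw [g3, zero_smul, add_zero] at hg
      have g2 : g 2 = 0 := by
        have e := congrArg (D ι U 3) hg
        simp only [map_add, map_smul, map_zero] at e
        rw [hD 3 1 (by norm_num) (by norm_num) (by norm_num),
          hD 3 2 (by norm_num) (by norm_num) (by norm_num),
          hD 3 4 (by norm_num) (by norm_num) (by norm_num)] at e
        simp only [show 1 - 3 = 0 by norm_num, show 2 - 3 = 0 by norm_num,
          show 4 - 3 = 1 by norm_num,
          hc0, smul_zero, zero_add] at e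
        exact aux (by decide) e
      rw [g2, zero_smul, add_zero] at hg
      have g1 : g 1 = 0 := by
        have e := congrArg (D ι U 1) hg
        simp only [map_add, map_smul, map_zero] at e
        rw [hD 1 1 (by norm_num) (by norm_num) (by norm_num),
          hD 1 2 (by norm_num) (by norm_num) (by norm_num)] at e
        simp only [show 1 - 1 = 0 by norm_num, show 2 - 1 = 1 by norm_num,
          hc0, smul_zero, zero_add] at e
        exact aux (by decide) e
      rw [g1, zero_smul, add_zero] at hg
      have g0 : g 0 = 0 := by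
        rcases smul_eq_zero.1 hg with h5 | h5
        · exact h5
        · exact absurd h5 hc1
      intro i
      fin_cases i <;> assumption
    have hsp : ⊤ ≤ Submodule.span k (Set.range f) := by
      rw [← hspan, Submodule.span_le]
      rintro _ ⟨j, rfl⟩
      simp only
      have hj := j.2
      generalize (j : ℕ) = i at hj
      interval_cases i
      · rw [hc0]; exact zero_mem _
      · exact Submodule.subset_span ⟨0, rfl⟩
      · exact Submodule.subset_span ⟨1, rfl⟩
      · rw [h3']; exact zero_mem _
      · exact Submodule.subset_span ⟨2, rfl⟩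
      · exact Submodule.subset_span ⟨3, rfl⟩
      · rw [h6]; exact zero_mem _
      · exact Submodule.subset_span ⟨4, rfl⟩
      · exact Submodule.subset_span ⟨5, rfl⟩
    rw [finrank_eq_card_basis (Basis.mk hli hsp), Fintype.card_fin]

end Pool.Agent.R717.ModNine
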