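import Pool.Agent.R717.ModNine2

/-! Characteristic zero modules for `SL(2, 9)` with `-1` acting as `-1`: the dimension is at least
`10` or divisible by `4`. -/

namespace Pool.Agent.R717.ModNine

open Module Finset

variable {K k V : Type*} [Field K] [Fintype K] [Field k] [AddCommGroup V] [Module k V]
variable {U : K → End k V} {T : Kˣ → End k V} {W : End k V}

lemma Tpow (h : Rels U T W) (a : Kˣ) (n : ℕ) : T (a ^ n) = T a ^ n := by
  induction n with
  | zero => rw [pow_zero, pow_zero, h.T1]
  | succ n ih => rw [pow_succ, pow_succ, h.Tmul, ih]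

/-- a generator of the multiplicative group -/
lemma exists_gen (hK : Fintype.card K = 9) :
    ∃ ω : Kˣ, ω ^ 4 = -1 ∧ (∀ n : ℕ, n < 8 → n ≠ 0 → n ≠ 4 → ((ω ^ n : Kˣ) : K) ^ 2 ≠ 1) ∧
      ∀ a : Kˣ, ∃ n : ℕ, ω ^ n = a := by
  classical
  obtain ⟨ω, hω⟩ := IsCyclic.exists_generator (α := Kˣ)
  have hord : orderOf ω = 8 := by
    rw [orderOf_eq_card_of_forall_mem_zpowers hω, Nat.card_eq_fintype_card, Fintype.card_units, hK]
  refine ⟨ω, ?_, ?_, ?_⟩
  · have h1 : (ω ^ 4) ^ 2 = 1 := by
      rw [← pow_mul]; exact card_units hK ω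
    have h2 : ω ^ 4 ≠ 1 := by
      intro h
      have := orderOf_dvd_of_pow_eq_one h
      rw [hord] at this
      omega
    have h3 : ((ω ^ 4 : Kˣ) : K) ^ 2 = 1 := by
      have := congrArg (fun x : Kˣ => (x : K)) h1
      simpa using this
    have h5 : (((ω ^ 4 : Kˣ) : K) - 1) * (((ω ^ 4 : Kˣ) : K) + 1) = 0 := by
      linear_combination h3
    rcases mul_eq_zero.1 h5 with h4 | h4
    · exact absurd (Units.ext (sub_eq_zero.1 h4)) h2
    · exact Units.ext (by rw [eq_neg_of_add_eq_zero_left h4]; simp)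
  · intro n hn hn0 hn4 h
    have h1 : ω ^ (n * 2) = 1 := by
      apply Units.ext
      rw [pow_mul, Units.val_pow_eq_pow_val, h, Units.val_one]
    have := orderOf_dvd_of_pow_eq_one h1
    rw [hord] at this
    omega
  · intro a
    have h1 := hω a
    rw [← mem_powers_iff_mem_zpowers, Submonoid.mem_powers_iff] at h1
    exact h1

/-- trace of a regular torus element when there are no fixed vectors -/
lemma trace_T [CharZero k] [FiniteDimensional k V] (h : Rels U T W)
    (hno : ∀ v : V, Fixed U v → v = 0) (a : Kˣ) (ha : (a : K) ^ 2 ≠ 1) :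
    LinearMap.trace k V (T a) = 0 := by
  have hsum : ∑ x : K, U x = 0 := by
    apply LinearMap.ext
    intro v
    rw [LinearMap.sum_apply, LinearMap.zero_apply]
    apply hno
    intro y
    rw [map_sum]
    simp_rw [← h.Uadd_apply]
    exact Equiv.sum_comp (Equiv.addLeft y) (fun x => U x v)
  have hconj : ∀ x : K, LinearMap.trace k V (T a * U x) = LinearMap.trace k V (T a) := by
    intro x
    have ha' : (1 : K) - (a : K) ^ 2 ≠ 0 := sub_ne_zero.2 (Ne.symm ha)
    set y : K := (a : K) ^ 2 * x * (1 - (a : K) ^ 2)⁻¹ with hy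
    have h1 : T a * U x = U y * (T a * U (-y)) := by
      rw [h.TU, h.TU, ← mul_assoc, ← h.Uadd]
      congr 2
      rw [hy]
      field_simp
      ring
    rw [h1, LinearMap.trace_mul_comm, mul_assoc, ← h.Uadd, neg_add_cancel, h.U0, mul_one]
  have h2 : LinearMap.trace k V (T a * ∑ x : K, U x) = Fintype.card K • LinearMap.trace k V (T a) := by
    rw [Finset.mul_sum, map_sum]
    simp_rw [hconj]
    rw [Finset.sum_const, Finset.card_univ]
  rw [hsum, mul_zero, map_zero, nsmul_eq_mul] at h2
  rcases mul_eq_zero.1 h2.symm with h3 | h3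
  · exfalso
    have : Fintype.card K ≠ 0 := Fintype.card_ne_zero
    exact this (by exact_mod_cast h3)
  · exact h3

lemma four_dvd [CharZero k] [IsAlgClosed k] [FiniteDimensional k V] (hK : Fintype.card K = 9)
    (h : Rels U T W) (hno : ∀ v : V, Fixed U v → v = 0) : 4 ∣ finrank k V := by
  classical
  obtain ⟨ω, hω4, hωreg, hωgen⟩ := exists_gen hK
  obtain ⟨ζ, hζ⟩ := IsAlgClosed.exists_pow_nat_eq (-1 : k) (show 0 < 4 by norm_num)
  have hζ0 : ζ ≠ 0 := by
    rintro rfl
    rw [zero_pow (by norm_num)] at hζ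
    exact absurd hζ.symm (by norm_num)
  set A : End k V := ζ⁻¹ • T ω with hA
  have hApow : ∀ n : ℕ, A ^ n = ζ⁻¹ ^ n • T (ω ^ n) := by
    intro n
    rw [hA, smul_pow, Tpow h]
  have hA8 : A ^ 8 = 1 := by
    rw [hApow, card_units hK ω, h.T1]
    have : ζ⁻¹ ^ 8 = 1 := by
      rw [inv_pow]
      have : ζ ^ 8 = 1 := by
        have : ζ ^ 8 = (ζ ^ 4) ^ 2 := by ring
        rw [this, hζ]; norm_num
      rw [this, inv_one]
    rw [this, one_smul]
  set P : End k V := (8 : k)⁻¹ • ∑ n ∈ range 8, A ^ n with hP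
  have hAP : A * P = P := by
    have h1 : (A - 1) * ∑ n ∈ range 8, A ^ n = 0 := by
      rw [mul_geom_sum, hA8, sub_self]
    have h2 : A * ∑ n ∈ range 8, A ^ n = ∑ n ∈ range 8, A ^ n := by
      rw [sub_mul, one_mul, sub_eq_zero] at h1
      exact h1
    rw [hP, mul_smul_comm, h2]
  have hAnP : ∀ n : ℕ, A ^ n * P = P := by
    intro n
    induction n with
    | zero => rw [pow_zero, one_mul]
    | succ n ih => rw [pow_succ, mul_assoc, hAP, ih]
  have hPP : P * P = P := by
    have h1 : P * P = (8 : k)⁻¹ • ∑ n ∈ range 8, A ^ n * P := by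
      conv_lhs => rw [hP]
      rw [smul_mul_assoc, Finset.sum_mul]
    rw [h1]
    simp_rw [hAnP]
    rw [Finset.sum_const, Finset.card_range, ← Nat.cast_smul_eq_nsmul k, smul_smul]
    norm_num
  have hproj : LinearMap.IsProj (LinearMap.range P) P := by
    refine ⟨fun x => ⟨x, rfl⟩, ?_⟩
    rintro _ ⟨x, rfl⟩
    have := congrArg (fun f : End k V => f x) hPP
    simpa using this
  have htr := hproj.trace
  have htr2 : LinearMap.trace k V P = (8 : k)⁻¹ * (2 * finrank k V) := by
    rw [hP, map_smul, map_sum, smul_eq_mul]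
    congr 1
    have h0 : LinearMap.trace k V (A ^ 0) = finrank k V := by
      rw [pow_zero, LinearMap.trace_one]
    have h4 : LinearMap.trace k V (A ^ 4) = finrank k V := by
      rw [hApow, hω4, h.Tneg, map_smul, map_neg, LinearMap.trace_one, inv_pow, hζ, smul_eq_mul]
      norm_num
    have hn : ∀ n : ℕ, n < 8 → n ≠ 0 → n ≠ 4 → LinearMap.trace k V (A ^ n) = 0 := by
      intro n hn hn0 hn4
      rw [hApow, map_smul, trace_T h hno _ (hωreg n hn hn0 hn4), smul_zero]
    simp only [Finset.sum_range_succ, Finset.sum_range_zero]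
    rw [h0, h4, hn 1 (by norm_num) (by norm_num) (by norm_num),
      hn 2 (by norm_num) (by norm_num) (by norm_num),
      hn 3 (by norm_num) (by norm_num) (by norm_num),
      hn 5 (by norm_num) (by norm_num) (by norm_num),
      hn 6 (by norm_num) (by norm_num) (by norm_num),
      hn 7 (by norm_num) (by norm_num) (by norm_num)]
    ring
  rw [htr2] at htr
  refine ⟨finrank k (LinearMap.range P), ?_⟩
  have h9 : (finrank k V : k) = 4 * (finrank k (LinearMap.range P) : k) := by
    rw [← htr]; ring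
  exact_mod_cast h9

lemma ten_le [CharZero k] [IsAlgClosed k] [FiniteDimensional k V] (hK : Fintype.card K = 9)
    (h : Rels U T W) {v0 : V} (hv0 : v0 ≠ 0) (hf0 : Fixed U v0) : 10 ≤ finrank k V := by
  classical
  obtain ⟨ω, hω4, hωreg, hωgen⟩ := exists_gen hK
  -- the fixed space
  let S : Submodule k V :=
    { carrier := {v | Fixed U v}
      add_mem' := by
        intro a b ha hb x
        rw [map_add, ha x, hb x]
      zero_mem' := by intro x; rw [map_zero]
      smul_mem' := by
        intro c a ha x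
        rw [map_smul, ha x] }
  have hST : ∀ v ∈ S, T ω v ∈ S := by
    intro v hv x
    have h1 := h.TU_apply ω (((ω : K) ^ 2)⁻¹ * x) v
    rw [hv, ← mul_assoc, mul_inv_cancel₀ (pow_ne_zero _ ω.ne_zero), one_mul] at h1
    exact h1.symm
  have hSn : Nontrivial S := ⟨⟨⟨v0, hf0⟩, 0, fun e => hv0 (congrArg Subtype.val e)⟩⟩
  obtain ⟨μ, hμ⟩ := Module.End.exists_eigenvalue ((T ω).restrict hST)
  obtain ⟨v1, hv1⟩ := hμ.exists_hasEigenvector
  obtain ⟨v, hf⟩ := v1
  have hTv : T ω v = μ • v := congrArg Subtype.val hv1.apply_eq_smul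
  have hv : v ≠ 0 := fun e => hv1.2 (Subtype.ext e)
  have hpow : ∀ n : ℕ, T (ω ^ n) v = μ ^ n • v := by
    intro n
    induction n with
    | zero => rw [pow_zero, pow_zero, h.T1]; simp
    | succ n ih =>
      rw [pow_succ', h.Tmul, Module.End.mul_apply, ih, map_smul, hTv, smul_smul, pow_succ]
  have hμ4 : μ ^ 4 = -1 := by
    have h1 := hpow 4
    rw [hω4, h.Tneg] at h1
    have h2 : (μ ^ 4 + 1) • v = 0 := by
      rw [add_smul, ← h1, one_smul]; simp
    rcases smul_eq_zero.1 h2 with h3 | h3
    · linear_combination h3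
    · exact absurd h3 hv
  have hμ0 : μ ≠ 0 := by
    rintro rfl
    rw [zero_pow (by norm_num)] at hμ4
    exact absurd hμ4.symm (by norm_num)
  have hμ2 : μ ^ 2 ≠ 1 := by
    intro h1
    have : μ ^ 4 = 1 := by
      have : μ ^ 4 = (μ ^ 2) ^ 2 := by ring
      rw [this, h1, one_pow]
    rw [this] at hμ4
    norm_num at hμ4
  -- the functional
  obtain ⟨φ, hφ⟩ : ∃ φ : V →ₗ[k] k, φ v ≠ 0 := by
    by_contra hcon
    push Not at hcon
    exact hv ((Module.forall_dual_apply_eq_zero_iff k v).1 hcon)
  let φ1 : V →ₗ[k] k := ∑ y : K, φ ∘ₗ U y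
  have hφ1 : ∀ x, φ1 x = ∑ y : K, φ (U y x) := by
    intro x; simp only [φ1, LinearMap.sum_apply, LinearMap.comp_apply]
  have hφ1U : ∀ z x, φ1 (U z x) = φ1 x := by
    intro z x
    rw [hφ1, hφ1]
    simp_rw [← h.Uadd_apply]
    exact Equiv.sum_comp (Equiv.addRight z) (fun y => φ (U y x))
  set A : End k V := μ⁻¹ • T ω with hA
  have hAv : A v = v := by
    rw [hA, LinearMap.smul_apply, hTv, smul_smul, inv_mul_cancel₀ hμ0, one_smul]
  have hA8 : A ^ 8 = 1 := by
    rw [hA, smul_pow, ← Tpow h, card_units hK ω, h.T1]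
    have : μ⁻¹ ^ 8 = 1 := by
      rw [inv_pow]
      have : μ ^ 8 = 1 := by
        have : μ ^ 8 = (μ ^ 4) ^ 2 := by ring
        rw [this, hμ4]; norm_num
      rw [this, inv_one]
    rw [this, one_smul]
  have hAU : ∀ z, ∃ z', A * U z = U z' * A := by
    intro z
    refine ⟨(ω : K) ^ 2 * z, ?_⟩
    rw [hA, smul_mul_assoc, h.TU, mul_smul_comm]
  have hAnU : ∀ n : ℕ, ∀ z, ∃ z', A ^ n * U z = U z' * A ^ n := by
    intro n
    induction n with
    | zero => intro z; exact ⟨z, by rw [pow_zero, one_mul, mul_one]⟩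
    | succ n ih =>
      intro z
      obtain ⟨z1, h1⟩ := hAU z
      obtain ⟨z2, h2⟩ := ih z1
      refine ⟨z2, ?_⟩
      rw [pow_succ, mul_assoc, h1, ← mul_assoc, h2, mul_assoc]
  let Q : End k V := ∑ n ∈ range 8, A ^ n
  let l : V →ₗ[k] k := φ1 ∘ₗ Q
  have hlA : ∀ x, l (A x) = l x := by
    intro x
    have h1 : Q * A = Q := by
      have h2 : (∑ n ∈ range 8, A ^ n) * (A - 1) = 0 := by
        rw [geom_sum_mul, hA8, sub_self]
      rw [mul_sub, mul_one, sub_eq_zero] at h2
      exact h2
    change φ1 ((Q * A) x) = φ1 (Q x)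
    rw [h1]
  have hlU : ∀ z x, l (U z x) = l x := by
    intro z x
    change φ1 (Q (U z x)) = φ1 (Q x)
    have h1 : ∀ y, Q y = ∑ n ∈ range 8, (A ^ n) y := by
      intro y; simp only [Q, LinearMap.sum_apply]
    rw [h1, h1, map_sum, map_sum]
    apply Finset.sum_congr rfl
    intro n _
    obtain ⟨z', h2⟩ := hAnU n z
    have h3 := congrArg (fun f : End k V => f x) h2
    simp only [Module.End.mul_apply] at h3
    rw [h3, hφ1U]
  have hlv : l v ≠ 0 := by
    have h1 : Q v = (8 : k) • v := by
      have h2 : ∀ n : ℕ, (A ^ n) v = v := by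
        intro n
        induction n with
        | zero => rw [pow_zero]; rfl
        | succ n ih => rw [pow_succ, Module.End.mul_apply, hAv, ih]
      simp only [Q, LinearMap.sum_apply]
      simp_rw [h2]
      rw [Finset.sum_const, Finset.card_range, ← Nat.cast_smul_eq_nsmul k]
      norm_num
    change φ1 (Q v) ≠ 0
    rw [h1, map_smul, hφ1]
    have h3 : ∀ y, φ (U y v) = φ v := fun y => by rw [hf y]
    simp_rw [h3]
    rw [Finset.sum_const, Finset.card_univ, hK, smul_eq_mul, nsmul_eq_mul]
    exact mul_ne_zero (by norm_num) (mul_ne_zero (by norm_num) hφ)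
  have hlW : l (W v) = 0 := by
    have h1 : T ω (W v) = μ⁻¹ • W v := by
      have h2 := h.WT_apply ω⁻¹ v
      rw [inv_inv] at h2
      rw [← h2]
      have h3 : T ω⁻¹ v = μ⁻¹ • v := by
        have h4 : T ω⁻¹ (T ω v) = v := by
          have := congrArg (fun f : End k V => f v) (h.Tmul ω⁻¹ ω)
          rw [inv_mul_cancel, h.T1] at this
          simpa using this.symm
        rw [hTv, map_smul] at h4
        rw [← h4, smul_smul, inv_mul_cancel₀ hμ0, one_smul, h4]
      rw [h3, map_smul]
    have h2 := hlA (W v)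
    rw [hA, LinearMap.smul_apply, h1, smul_smul, map_smul, smul_eq_mul] at h2
    have h3 : (μ⁻¹ * μ⁻¹ - 1) * l (W v) = 0 := by linear_combination h2
    rcases mul_eq_zero.1 h3 with h4 | h4
    · exfalso
      apply hμ2
      have h5 : (μ ^ 2)⁻¹ = 1 := by
        rw [← inv_pow]; linear_combination h4
      rwa [inv_eq_one] at h5
    · exact h4
  have hlWUW : ∀ z : K, z ≠ 0 → l (W (U z (W v))) = 0 := by
    intro z hz
    have h1 := h.WUW_fixed (Units.mk0 z hz) hf
    simp only [Units.val_mk0] at h1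
    rw [h1, map_neg, hlU]
    obtain ⟨n, hn⟩ := hωgen (Units.mk0 z hz)
    rw [← hn, hpow, map_smul, map_smul, hlW, smul_zero, neg_zero]
  let f : Option K → V := fun o => o.elim v (fun x => U x (W v))
  have hli : LinearIndependent k f := by
    rw [Fintype.linearIndependent_iff]
    intro g hg i
    rw [Fintype.sum_option] at hg
    change g none • v + ∑ x : K, g (some x) • U x (W v) = 0 at hg
    cases i with
    | none =>
      have e := congrArg l hg
      rw [map_add, map_smul, map_sum, map_zero] at e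
      simp_rw [map_smul, hlU, hlW, smul_zero] at e
      rw [Finset.sum_const_zero, add_zero] at e
      rcases smul_eq_zero.1 e with e1 | e1
      · exact e1
      · exact absurd e1 hlv
    | some y =>
      have e := congrArg (fun u => l (W (U (-y) u))) hg
      simp only [map_add, map_smul, map_sum, map_zero] at e
      rw [hf, hlW, smul_zero, zero_add, Finset.sum_eq_single y] at e
      · rw [← h.Uadd_apply, neg_add_cancel, h.U0, Module.End.one_apply, h.WW_apply, map_neg] at e
        rcases smul_eq_zero.1 e with e1 | e1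
        · exact e1
        · exact absurd (neg_eq_zero.1 e1) hlv
      · intro x _ hxy
        rw [← h.Uadd_apply, hlWUW _ (by
          intro h0
          exact hxy (by linear_combination h0)), smul_zero]
      · intro hh; exact absurd (Finset.mem_univ _) hh
  have h10 := hli.fintype_card_le_finrank
  rw [Fintype.card_option, hK] at h10
  exact h10

theorem dimC [CharZero k] [IsAlgClosed k] [FiniteDimensional k V] (hK : Fintype.card K = 9)
    (h : Rels U T W) : 10 ≤ finrank k V ∨ 4 ∣ finrank k V := by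
  by_cases hno : ∀ v : V, Fixed U v → v = 0
  · exact Or.inr (four_dvd hK h hno)
  · push Not at hno
    obtain ⟨v, hf, hv⟩ := hno
    exact Or.inl (ten_le hK h hv hf)

end Pool.Agent.R717.ModNine
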