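import Mathlib

/-!
The braid group on two strands of the closed orientable surface of genus `g`, given by
Bellingeri's presentation, its pure subgroup and the element `A₁₂`.
-/

namespace Pool.Agent.R717.SB

/-- The generators: `s` is the half twist `σ = σ₁`; `x true r` is `a_r` and `x false r` is
`b_r` for `r = 1, …, g`. -/
inductive Gen (g : ℕ) : Type
  | s : Gen g
  | x : Bool → Fin g → Gen g

variable (g : ℕ)

/-- `σ` as a word. -/
def fs : FreeGroup (Gen g) := FreeGroup.of Gen.s

/-- `a_r` (for `c = true`) and `b_r` (for `c = false`) as words. -/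
def fx (c : Bool) (r : Fin g) : FreeGroup (Gen g) := FreeGroup.of (Gen.x c r)

/-- The relations `u = v` of Bellingeri's presentation of the braid group on two strands of
the closed orientable surface of genus `g`. -/
inductive Rel : FreeGroup (Gen g) → FreeGroup (Gen g) → Prop
  | r2 (c : Bool) (r : Fin g) :
      Rel ((fs g)⁻¹ * fx g c r * (fs g)⁻¹ * fx g c r)
        (fx g c r * (fs g)⁻¹ * fx g c r * (fs g)⁻¹)
  | r3 (c d : Bool) (i j : Fin g) (h : i < j) :
      Rel ((fs g)⁻¹ * fx g c i * fs g * fx g d j)
        (fx g d j * (fs g)⁻¹ * fx g c i * fs g)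
  | r4 (r : Fin g) :
      Rel ((fs g)⁻¹ * fx g true r * (fs g)⁻¹ * fx g false r)
        (fx g false r * (fs g)⁻¹ * fx g true r * fs g)
  | tr : Rel (List.ofFn fun r => fx g true r * (fx g false r)⁻¹ * (fx g true r)⁻¹ *
        fx g false r).prod (fs g * fs g)

/-- The relators `u v⁻¹`. -/
def rels : Set (FreeGroup (Gen g)) := {w | ∃ u v, Rel g u v ∧ w = u * v⁻¹}

/-- The braid group on two strands of the closed orientable surface of genus `g`. -/
abbrev B2 : Type := PresentedGroup (rels g)

/-- The class of `σ`. -/
def sg : B2 g := PresentedGroup.of Gen.s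

/-- The classes of `a_r` and `b_r`. -/
def xg (c : Bool) (r : Fin g) : B2 g := PresentedGroup.of (Gen.x c r)

variable {g}

theorem rel_eq {u v : FreeGroup (Gen g)} (h : Rel g u v) :
    PresentedGroup.mk (rels g) u = PresentedGroup.mk (rels g) v := by
  have h1 : u * v⁻¹ ∈ rels g := ⟨u, v, h, rfl⟩
  have h2 : PresentedGroup.mk (rels g) (u * v⁻¹) = 1 := PresentedGroup.one_of_mem h1
  rw [map_mul, map_inv] at h2
  exact mul_inv_eq_one.mp h2

/-- A tuple in a group satisfies the relations. -/
structure Sat {H : Type*} [Group H] (s : H) (x : Bool → Fin g → H) : Prop where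
  r2 : ∀ c r, s⁻¹ * x c r * s⁻¹ * x c r = x c r * s⁻¹ * x c r * s⁻¹
  r3 : ∀ c d (i j : Fin g), i < j → s⁻¹ * x c i * s * x d j = x d j * s⁻¹ * x c i * s
  r4 : ∀ r, s⁻¹ * x true r * s⁻¹ * x false r = x false r * s⁻¹ * x true r * s
  tr : (List.ofFn fun r => x true r * (x false r)⁻¹ * (x true r)⁻¹ * x false r).prod = s * s

theorem sat_gen : Sat (sg g) (xg g) where
  r2 := fun c r => rel_eq (Rel.r2 c r)
  r3 := fun c d i j h => rel_eq (Rel.r3 c d i j h)
  r4 := fun r => rel_eq (Rel.r4 r)
  tr := by
    have h := rel_eq (Rel.tr (g := g))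
    rw [map_list_prod, List.map_ofFn, map_mul] at h
    exact h

/-- The images of the generators. -/
def genMap {H : Type*} (s : H) (x : Bool → Fin g → H) : Gen g → H
  | Gen.s => s
  | Gen.x c r => x c r

theorem sat_rels {H : Type*} [Group H] {s : H} {x : Bool → Fin g → H} (h : Sat s x) :
    ∀ w ∈ rels g, FreeGroup.lift (genMap s x) w = 1 := by
  have hs : FreeGroup.lift (genMap s x) (fs g) = s := by simp [fs, genMap]
  have hx : ∀ c r, FreeGroup.lift (genMap s x) (fx g c r) = x c r := by
    intro c r; simp [fx, genMap]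
  rintro w ⟨u, v, huv, rfl⟩
  rw [map_mul, map_inv, mul_inv_eq_one]
  cases huv with
  | r2 c r => simp only [map_mul, map_inv, hs, hx]; exact h.r2 c r
  | r3 c d i j hij => simp only [map_mul, map_inv, hs, hx]; exact h.r3 c d i j hij
  | r4 r => simp only [map_mul, map_inv, hs, hx]; exact h.r4 r
  | tr =>
    rw [map_list_prod, List.map_ofFn, map_mul, hs, ← h.tr]
    congr 2
    funext r
    simp only [Function.comp_apply, map_mul, map_inv, hx]

/-- The homomorphism given by a tuple satisfying the relations. -/
def lift {H : Type*} [Group H] {s : H} {x : Bool → Fin g → H} (h : Sat s x) : B2 g →* H :=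
  PresentedGroup.toGroup (f := genMap s x) (sat_rels h)

@[simp] theorem lift_sg {H : Type*} [Group H] {s : H} {x : Bool → Fin g → H} (h : Sat s x) :
    lift h (sg g) = s := PresentedGroup.toGroup.of (sat_rels h)

@[simp] theorem lift_xg {H : Type*} [Group H] {s : H} {x : Bool → Fin g → H} (h : Sat s x)
    (c : Bool) (r : Fin g) : lift h (xg g c r) = x c r :=
  PresentedGroup.toGroup.of (sat_rels h)

theorem sat_perm : Sat (g := g) (Equiv.swap (0 : Fin 2) 1) (fun _ _ => 1) where
  r2 := fun c r => by decide
  r3 := fun c d i j h => by decide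
  r4 := fun r => by decide
  tr := by
    have h : (List.ofFn fun _ : Fin g => (1 : Equiv.Perm (Fin 2)) * 1⁻¹ * 1⁻¹ * 1).prod = 1 := by
      apply List.prod_eq_one
      intro x hx
      rw [List.mem_ofFn] at hx
      obtain ⟨i, rfl⟩ := hx
      decide
    rw [h]
    decide

variable (g)

/-- The permutation of the two strands: `σ` goes to the transposition, `a_r` and `b_r` to the
identity. -/
def permHom : B2 g →* Equiv.Perm (Fin 2) := lift (sat_perm (g := g))

/-- The pure braid group on two strands of the closed orientable surface of genus `g`. -/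
abbrev P2 : Type := (permHom g).ker

/-- The full twist `A₁₂ = σ²` of the two strands. -/
def A12 : P2 g := ⟨sg g * sg g, by
  rw [MonoidHom.mem_ker, map_mul, permHom, lift_sg]; decide⟩

end Pool.Agent.R717.SB
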