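import Mathlib

/-!
Groups of order `3 · 2^a` cannot satisfy the constraints of a small admissible quotient.
-/

namespace Pool.Agent.R717.SB

theorem s3_comm : ∀ s t : Equiv.Perm (Fin 3), s * t = t * s → s ≠ 1 → t ≠ 1 →
    s = t ∨ s = t⁻¹ := by decide

theorem s3_order : ∀ t : Equiv.Perm (Fin 3), t ^ 2 = 1 ∨ t ^ 3 = 1 := by decide

theorem pow_four_eq {M : Type*} [Monoid M] {u : M} (hu : u ^ 3 = 1) (a : ℕ) : u ^ (4 ^ a) = u := by
  induction a with
  | zero => simp
  | succ a ih =>
    rw [pow_succ, pow_mul, ih]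
    calc u ^ 4 = u ^ 3 * u := by rw [← pow_succ]
      _ = u := by rw [hu, one_mul]

/-- A subgroup whose nontrivial elements ... : the final counting in a group with a normal
abelian subgroup. -/
theorem final_count {G : Type*} [Group G] [Finite G] (R : Subgroup G) [R.Normal] (z p : G)
    (hR : R = Subgroup.normalClosure {z}) (hab : ∀ u ∈ R, ∀ v ∈ R, u * v = v * u)
    (hz2 : z * z = 1) (hp3 : p ^ 3 = 1)
    (hG : ∀ g : G, g ∈ R ∨ g * p⁻¹ ∈ R ∨ g * p ∈ R)
    (hfix : ∀ w ∈ R, w * p = p * w → w = 1) : Nat.card R ≤ 4 := by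
  have hzR : z ∈ R := by
    rw [hR]
    exact Subgroup.subset_normalClosure rfl
  have hconj : ∀ g u, u ∈ R → g * u * g⁻¹ ∈ R := fun g u hu => Subgroup.Normal.conj_mem ‹_› u hu g
  set z1 := p * z * p⁻¹ with hz1
  set z2 := p * z1 * p⁻¹ with hz2'
  have h1R : z1 ∈ R := hconj p z hzR
  have h2R : z2 ∈ R := hconj p z1 h1R
  have hpp : p * p * p = 1 := by
    rw [← hp3, pow_succ, pow_two]
  have h3 : p * z2 * p⁻¹ = z := by
    calc p * z2 * p⁻¹ = (p * p * p) * z * (p * p * p)⁻¹ := by rw [hz2', hz1]; group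
      _ = z := by rw [hpp]; group
  have c01 : z * z1 = z1 * z := hab _ hzR _ h1R
  have c02 : z * z2 = z2 * z := hab _ hzR _ h2R
  have c12 : z1 * z2 = z2 * z1 := hab _ h1R _ h2R
  have hprod : z * z1 * z2 = 1 := by
    apply hfix
    · exact mul_mem (mul_mem hzR h1R) h2R
    · have : p * (z * z1 * z2) * p⁻¹ = z * z1 * z2 := by
        calc p * (z * z1 * z2) * p⁻¹ = (p * z * p⁻¹) * (p * z1 * p⁻¹) * (p * z2 * p⁻¹) := by group
          _ = z1 * z2 * z := by rw [h3, ← hz1, ← hz2']
          _ = z1 * (z2 * z) := by group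
          _ = z1 * (z * z2) := by rw [c02]
          _ = (z1 * z) * z2 := by group
          _ = _ := by rw [c01]
      calc z * z1 * z2 * p = (p * (z * z1 * z2) * p⁻¹) * p := by rw [this]
        _ = _ := by group
  have sq1 : z1 * z1 = 1 := by
    calc z1 * z1 = p * (z * z) * p⁻¹ := by rw [hz1]; group
      _ = 1 := by rw [hz2]; group
  have sq2 : z2 * z2 = 1 := by
    calc z2 * z2 = p * (z1 * z1) * p⁻¹ := by rw [hz2']; group
      _ = 1 := by rw [sq1]; group
  have i0 : z⁻¹ = z := inv_eq_of_mul_eq_one_right hz2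
  have i1 : z1⁻¹ = z1 := inv_eq_of_mul_eq_one_right sq1
  have i2 : z2⁻¹ = z2 := inv_eq_of_mul_eq_one_right sq2
  have m01 : z * z1 = z2 := by rw [← i2]; exact eq_inv_of_mul_eq_one_left hprod
  have m10 : z1 * z = z2 := by rw [← c01, m01]
  have m02 : z * z2 = z1 := by rw [← m01, ← mul_assoc, hz2, one_mul]
  have m20 : z2 * z = z1 := by rw [← c02, m02]
  have m12 : z1 * z2 = z := by rw [← m10, ← mul_assoc, sq1, one_mul]
  have m21 : z2 * z1 = z := by rw [← c12, m12]
  -- the Klein four group
  let V : Subgroup G :=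
    { carrier := {1, z, z1, z2}
      one_mem' := by simp
      mul_mem' := by
        intro a b ha hb
        simp only [Set.mem_insert_iff, Set.mem_singleton_iff] at ha hb ⊢
        rcases ha with rfl | rfl | rfl | rfl <;> rcases hb with rfl | rfl | rfl | rfl <;>
          simp [hz2, sq1, sq2, m01, m10, m02, m20, m12, m21]
      inv_mem' := by
        intro a ha
        simp only [Set.mem_insert_iff, Set.mem_singleton_iff] at ha ⊢
        rcases ha with rfl | rfl | rfl | rfl <;> simp [i0, i1, i2] }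
  have hmemV : ∀ u, u ∈ V ↔ u = 1 ∨ u = z ∨ u = z1 ∨ u = z2 := by
    intro u
    change u ∈ ({1, z, z1, z2} : Set G) ↔ _
    simp only [Set.mem_insert_iff, Set.mem_singleton_iff]
  have hVR : ∀ u ∈ V, u ∈ R := by
    intro u hu
    rw [hmemV] at hu
    rcases hu with rfl | rfl | rfl | rfl
    · exact one_mem R
    · exact hzR
    · exact h1R
    · exact h2R
  have hVp : ∀ u ∈ V, p * u * p⁻¹ ∈ V := by
    intro u hu
    rw [hmemV] at hu ⊢
    rcases hu with rfl | rfl | rfl | rfl
    · left; group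
    · right; right; left; rfl
    · right; right; right; rfl
    · right; left; exact h3
  have hVp' : ∀ u ∈ V, p⁻¹ * u * p ∈ V := by
    intro u hu
    have : p⁻¹ * u * p = p * (p * u * p⁻¹) * p⁻¹ := by
      have e : p⁻¹ = p * p := by
        rw [inv_eq_iff_mul_eq_one, ← mul_assoc]; exact hpp
      have e2 : p = p⁻¹ * p⁻¹ := by rw [← mul_inv_rev, eq_inv_iff_mul_eq_one, ← mul_assoc]; exact hpp
      calc p⁻¹ * u * p = (p * p) * u * (p⁻¹ * p⁻¹) := by rw [← e, ← e2]
        _ = _ := by group
    rw [this]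
    exact hVp _ (hVp _ hu)
  have hVr : ∀ r ∈ R, ∀ u ∈ V, r * u * r⁻¹ ∈ V := by
    intro r hr u hu
    rw [hab r hr u (hVR u hu)]
    simpa using hu
  have hVn : V.Normal := by
    constructor
    intro u hu g
    rcases hG g with h | h | h
    · exact hVr g h u hu
    · have : g * u * g⁻¹ = (g * p⁻¹) * (p * u * p⁻¹) * (g * p⁻¹)⁻¹ := by group
      rw [this]
      exact hVr _ h _ (hVp u hu)
    · have : g * u * g⁻¹ = (g * p) * (p⁻¹ * u * p) * (g * p)⁻¹ := by group
      rw [this]
      exact hVr _ h _ (hVp' u hu)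
  have hRV : R ≤ V := by
    rw [hR]
    apply Subgroup.normalClosure_le_normal
    intro u hu
    rw [Set.mem_singleton_iff] at hu
    rw [SetLike.mem_coe, hmemV]
    right; left; exact hu
  calc Nat.card R ≤ Nat.card V := Subgroup.card_le_of_le hRV
    _ = ({1, z, z1, z2} : Set G).ncard := rfl
    _ ≤ 4 := by
      refine (Set.ncard_insert_le _ _).trans ?_
      refine Nat.add_le_add_right ((Set.ncard_insert_le _ _).trans ?_) 1
      refine Nat.add_le_add_right ((Set.ncard_insert_le _ _).trans ?_) 1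
      rw [Set.ncard_singleton]

/-- Elements of order `3` modulo `R`. -/
theorem no_three {G : Type*} [Group G] [Finite G] {ι : Type*} (x y : ι → G) (z : G) (a : ℕ)
    (ha : 3 ≤ a) (hcard : Nat.card G = 3 * 2 ^ a)
    (hgen : Subgroup.closure (Set.range x ∪ Set.range y) = ⊤)
    (hxy : ∀ M : Subgroup G, M.Normal → z ∈ M → ∀ i j, (x i * y j) * (y j * x i)⁻¹ ∈ M)
    (hcy : ∀ u : G, (∀ j, y j * u = u * y j) → u = 1)
    (hzx : ¬ ∀ i, x i * z = z * x i)
    (hmin : ∀ M : Subgroup G, M.Normal → M ≠ ⊥ → z ∈ M) : False := by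
  have hz : z ≠ 1 := by
    rintro rfl
    exact hzx fun i => by simp
  have : Fact (Nat.Prime 2) := ⟨Nat.prime_two⟩
  obtain ⟨Q, hQ⟩ := Sylow.exists_subgroup_card_pow_prime (G := G) 2 (n := a)
    (by rw [hcard]; exact Dvd.intro_left 3 rfl)
  have h2a : 0 < 2 ^ a := by positivity
  have hQi : Q.index = 3 := by
    have h := Q.card_mul_index
    rw [hQ, hcard, mul_comm 3] at h
    exact Nat.eq_of_mul_eq_mul_left h2a h
  have hQc : Nat.card (G ⧸ Q) = 3 := by rw [← hQi]; rfl
  have : Finite (G ⧸ Q) := inferInstance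
  let e : (G ⧸ Q) ≃ Fin 3 := Finite.equivFinOfCardEq hQc
  let ρ : G →* Equiv.Perm (Fin 3) :=
    (e.permCongrHom).toMonoidHom.comp (MulAction.toPermHom G (G ⧸ Q))
  have hker : ρ.ker ≤ Q := by
    intro g hg
    rw [MonoidHom.mem_ker] at hg
    have h1 : MulAction.toPermHom G (G ⧸ Q) g = 1 := by
      have : e.permCongrHom (MulAction.toPermHom G (G ⧸ Q) g) = 1 := hg
      exact (MulEquiv.map_eq_one_iff _).mp this
    have h2 : (MulAction.toPermHom G (G ⧸ Q) g) ((1 : G) : G ⧸ Q) = ((1 : G) : G ⧸ Q) := by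
      rw [h1]; rfl
    have h3 : ((g * 1 : G) : G ⧸ Q) = ((1 : G) : G ⧸ Q) := h2
    rw [mul_one] at h3
    have h4 := (QuotientGroup.eq (s := Q)).mp h3
    simpa using h4
  set R : Subgroup G := ρ.ker with hRdef
  have hRn : R.Normal := by rw [hRdef]; infer_instance
  have h3R : 3 ∣ R.index := by
    rw [← hQi]
    exact Subgroup.index_dvd_of_le hker
  have hRidx : R.index = Nat.card ρ.range := Subgroup.index_ker ρ
  have hR6 : R.index ≤ 6 := by
    rw [hRidx]
    calc Nat.card ρ.range ≤ Nat.card (Equiv.Perm (Fin 3)) := Subgroup.card_le_card_group _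
      _ = 6 := by rw [Nat.card_perm]; simp [Nat.factorial]
  have hRcard := R.card_mul_index
  rw [hcard] at hRcard
  have hRQ : Nat.card R ∣ 2 ^ a := by
    rw [← hQ]; exact Subgroup.card_dvd_of_le hker
  have h8 : 8 ≤ 2 ^ a := by
    calc 8 = 2 ^ 3 := by norm_num
      _ ≤ 2 ^ a := Nat.pow_le_pow_right (by norm_num) ha
  have hRbig : 1 < Nat.card R := by
    by_contra hcon
    push Not at hcon
    have : Nat.card R * R.index ≤ 1 * 6 := Nat.mul_le_mul hcon hR6
    omega
  have hRp : IsPGroup 2 R := by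
    obtain ⟨k, -, hk⟩ := (Nat.dvd_prime_pow Nat.prime_two).mp hRQ
    exact IsPGroup.of_card hk
  have hRne : R ≠ ⊥ := by
    intro h
    rw [h, Subgroup.card_bot] at hRbig
    omega
  have hzR : z ∈ R := hmin R hRn hRne
  -- `z` centralizes `R`
  have hzc : ∀ r ∈ R, r * z = z * r := by
    have : Nontrivial R := (Subgroup.nontrivial_iff_ne_bot R).mpr hRne
    have := hRp.center_nontrivial
    obtain ⟨c, hc⟩ := exists_ne (1 : Subgroup.center R)
    have hM : R ⊓ Subgroup.centralizer (R : Set G) ≠ ⊥ := by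
      intro h
      apply hc
      have hcm : ((c : R) : G) ∈ R ⊓ Subgroup.centralizer (R : Set G) := by
        refine ⟨(c : R).2, Subgroup.mem_centralizer_iff.mpr ?_⟩
        intro r hr
        have := Subgroup.mem_center_iff.mp c.2 ⟨r, hr⟩
        exact congrArg Subtype.val this
      rw [h, Subgroup.mem_bot] at hcm
      exact Subtype.ext (Subtype.ext hcm)
    have hMn : (R ⊓ Subgroup.centralizer (R : Set G)).Normal := inferInstance
    have := hmin _ hMn hM
    intro r hr
    exact Subgroup.mem_centralizer_iff.mp this.2 r hr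
  -- images of the generators
  have hρc : ∀ i j, ρ (x i) * ρ (y j) = ρ (y j) * ρ (x i) := by
    intro i j
    have h := hxy R hRn hzR i j
    rw [hRdef, MonoidHom.mem_ker, map_mul, map_inv, mul_inv_eq_one, map_mul, map_mul] at h
    exact h
  obtain ⟨j0, hj0⟩ : ∃ j, ρ (y j) ≠ 1 := by
    by_contra hcon
    push Not at hcon
    apply hz
    apply hcy
    intro j
    exact hzc (y j) (by rw [hRdef, MonoidHom.mem_ker]; exact hcon j)
  obtain ⟨i0, hi0⟩ : ∃ i, ρ (x i) ≠ 1 := by
    by_contra hcon
    push Not at hcon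
    apply hzx
    intro i
    exact hzc (x i) (by rw [hRdef, MonoidHom.mem_ker]; exact hcon i)
  have hvu := s3_comm _ _ (hρc i0 j0) hi0 hj0
  have hrange : ∀ g, ρ g ∈ Subgroup.zpowers (ρ (x i0)) := by
    have hy : ∀ j, ρ (y j) ∈ Subgroup.zpowers (ρ (x i0)) := by
      intro j
      by_cases h1 : ρ (y j) = 1
      · rw [h1]; exact one_mem _
      · rcases s3_comm _ _ (hρc i0 j) hi0 h1 with h | h
        · rw [h]; exact Subgroup.mem_zpowers _
        · rw [h]
          have : ρ (y j) = (ρ (y j))⁻¹⁻¹ := (inv_inv _).symm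
          rw [this]
          exact inv_mem (by rw [inv_inv]; exact Subgroup.mem_zpowers _)
    have hx : ∀ i, ρ (x i) ∈ Subgroup.zpowers (ρ (x i0)) := by
      intro i
      by_cases h1 : ρ (x i) = 1
      · rw [h1]; exact one_mem _
      · rcases s3_comm _ _ (hρc i j0) h1 hj0 with h | h
        · rw [h]; exact hy j0
        · rw [h]; exact inv_mem (hy j0)
    have hle : Subgroup.closure (Set.range x ∪ Set.range y) ≤
        (Subgroup.zpowers (ρ (x i0))).comap ρ := by
      rw [Subgroup.closure_le]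
      rintro g (⟨i, rfl⟩ | ⟨j, rfl⟩)
      · exact hx i
      · exact hy j
    intro g
    have : g ∈ Subgroup.closure (Set.range x ∪ Set.range y) := by rw [hgen]; trivial
    exact hle this
  set u := ρ (x i0) with hu
  have hrdvd : Nat.card ρ.range ∣ orderOf u := by
    rw [← Nat.card_zpowers]
    apply Subgroup.card_dvd_of_le
    rintro _ ⟨g, rfl⟩
    exact hrange g
  have h3o : 3 ∣ orderOf u := by
    rw [hRidx] at h3R
    exact h3R.trans hrdvd
  have hu3 : u ^ 3 = 1 := by
    rcases s3_order u with h | h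
    · exfalso
      have h2 := orderOf_dvd_of_pow_eq_one h
      have h3 := h3o.trans h2
      omega
    · exact h
  have hidx3 : R.index = 3 := by
    apply Nat.dvd_antisymm _ h3R
    rw [hRidx]
    exact hrdvd.trans (orderOf_dvd_of_pow_eq_one hu3)
  have hcR : Nat.card R = 2 ^ a := by
    rw [hidx3] at hRcard
    omega
  -- elements of order three
  have hpow : ∀ g : G, (g ^ (4 ^ a)) ^ 3 = 1 := by
    intro g
    have e1 : g ^ (3 * 2 ^ a) = 1 := by rw [← hcard]; exact pow_card_eq_one'
    rw [← pow_mul]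
    have e2 : 4 ^ a * 3 = (3 * 2 ^ a) * 2 ^ a := by
      have : (4 : ℕ) ^ a = 2 ^ a * 2 ^ a := by rw [← mul_pow]; norm_num
      rw [this]; ring
    rw [e2, pow_mul, e1, one_pow]
  set p := (x i0) ^ (4 ^ a) with hp
  have hp3 : p ^ 3 = 1 := hpow _
  have hρp : ρ p = u := by rw [hp, map_pow]; exact pow_four_eq hu3 a
  obtain ⟨q, hq3, hρq, hqx⟩ : ∃ q : G, q ^ 3 = 1 ∧ ρ q = u⁻¹ ∧
      ∀ M : Subgroup G, M.Normal → z ∈ M → ∀ i, (x i * q) * (q * x i)⁻¹ ∈ M := by
    have hv3 : ρ (y j0) ^ 3 = 1 := by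
      rcases hvu with h | h
      · rw [← h]; exact hu3
      · have : ρ (y j0) = u⁻¹ := by rw [h, inv_inv]
        rw [this, inv_pow, hu3, inv_one]
    have hcommq : ∀ (M : Subgroup G), M.Normal → z ∈ M → ∀ i (k : ℤ),
        (x i * (y j0) ^ k) * ((y j0) ^ k * x i)⁻¹ ∈ M := by
      intro M hM hzM i k
      have h := hxy M hM hzM i j0
      rw [← QuotientGroup.eq_one_iff, QuotientGroup.mk_mul, QuotientGroup.mk_inv,
        mul_inv_eq_one, QuotientGroup.mk_mul, QuotientGroup.mk_mul] at h ⊢
      have hc : Commute ((x i : G) : G ⧸ M) ((y j0 : G) : G ⧸ M) := h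
      have := hc.zpow_right k
      rw [QuotientGroup.mk_zpow]
      exact this
    rcases hvu with h | h
    · refine ⟨(y j0) ^ (-(4 ^ a : ℕ) : ℤ), ?_, ?_, ?_⟩
      · rw [zpow_neg, zpow_natCast, inv_pow, hpow, inv_one]
      · rw [zpow_neg, zpow_natCast, map_inv, map_pow, pow_four_eq hv3 a, ← h]
      · intro M hM hzM i
        exact hcommq M hM hzM i _
    · refine ⟨(y j0) ^ ((4 ^ a : ℕ) : ℤ), ?_, ?_, ?_⟩
      · rw [zpow_natCast, hpow]
      · rw [zpow_natCast, map_pow, pow_four_eq hv3 a, h, inv_inv]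
      · intro M hM hzM i
        exact hcommq M hM hzM i _
  -- the normal closure of `z`
  set N : Subgroup G := Subgroup.normalClosure {z} with hN
  have hNn : N.Normal := Subgroup.normalClosure_normal
  have hzN : z ∈ N := Subgroup.subset_normalClosure rfl
  have hNR : N ≤ R := by
    apply Subgroup.normalClosure_le_normal
    intro g hg
    rw [Set.mem_singleton_iff] at hg
    rw [hg]; exact hzR
  have hNc : ∀ n ∈ N, ∀ r ∈ R, r * n = n * r := by
    have : N ≤ Subgroup.centralizer (R : Set G) := by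
      apply Subgroup.normalClosure_le_normal
      intro g hg
      rw [Set.mem_singleton_iff] at hg
      rw [hg, SetLike.mem_coe, Subgroup.mem_centralizer_iff]
      exact hzc
    intro n hn r hr
    exact Subgroup.mem_centralizer_iff.mp (this hn) r hr
  -- `p` is central modulo `N`
  have hpcent : ∀ g : G, (g * p) * (p * g)⁻¹ ∈ N := by
    have hpq : p * q ∈ N := by
      have hpqR : p * q ∈ R := by
        rw [hRdef, MonoidHom.mem_ker, map_mul, hρp, hρq, mul_inv_cancel]
      have hcomm : Commute ((p : G) : G ⧸ N) ((q : G) : G ⧸ N) := by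
        have h := hqx N hNn hzN i0
        rw [← QuotientGroup.eq_one_iff, QuotientGroup.mk_mul, QuotientGroup.mk_inv,
          mul_inv_eq_one, QuotientGroup.mk_mul, QuotientGroup.mk_mul] at h
        have hc : Commute ((x i0 : G) : G ⧸ N) ((q : G) : G ⧸ N) := h
        rw [hp, QuotientGroup.mk_pow]
        exact hc.pow_left _
      have h3 : ((p * q : G) : G ⧸ N) ^ 3 = 1 := by
        rw [QuotientGroup.mk_mul, hcomm.mul_pow, ← QuotientGroup.mk_pow, ← QuotientGroup.mk_pow,
          hp3, hq3]
        simp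
      have h2 : ((p * q : G) : G ⧸ N) ^ (2 ^ a) = 1 := by
        have : (p * q) ^ (2 ^ a) = 1 := by
          have h := pow_card_eq_one' (x := (⟨p * q, hpqR⟩ : R))
          rw [hcR] at h
          exact congrArg Subtype.val h
        rw [← QuotientGroup.mk_pow, this, QuotientGroup.mk_one]
      have d3 := orderOf_dvd_of_pow_eq_one h3
      have d2 := orderOf_dvd_of_pow_eq_one h2
      have hco : Nat.Coprime 3 (2 ^ a) := Nat.Coprime.pow_right a (by norm_num)
      have d1 : orderOf ((p * q : G) : G ⧸ N) = 1 :=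
        Nat.eq_one_of_dvd_coprimes hco d3 d2
      rw [orderOf_eq_one_iff, QuotientGroup.eq_one_iff] at d1
      exact d1
    have hpq' : ((p : G) : G ⧸ N) = ((q : G) : G ⧸ N)⁻¹ := by
      rw [← QuotientGroup.eq_one_iff, QuotientGroup.mk_mul] at hpq
      exact eq_inv_of_mul_eq_one_left hpq
    have hle : Subgroup.closure (Set.range x ∪ Set.range y) ≤
        (Subgroup.centralizer {((p : G) : G ⧸ N)}).comap (QuotientGroup.mk' N) := by
      rw [Subgroup.closure_le]
      rintro g (⟨i, rfl⟩ | ⟨j, rfl⟩)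
      · rw [SetLike.mem_coe, Subgroup.mem_comap, Subgroup.mem_centralizer_iff]
        intro w hw
        rw [Set.mem_singleton_iff] at hw
        rw [hw, hpq']
        have h := hqx N hNn hzN i
        rw [← QuotientGroup.eq_one_iff, QuotientGroup.mk_mul, QuotientGroup.mk_inv,
          mul_inv_eq_one, QuotientGroup.mk_mul, QuotientGroup.mk_mul] at h
        have hc : Commute ((x i : G) : G ⧸ N) ((q : G) : G ⧸ N) := h
        exact hc.symm.inv_left
      · rw [SetLike.mem_coe, Subgroup.mem_comap, Subgroup.mem_centralizer_iff]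
        intro w hw
        rw [Set.mem_singleton_iff] at hw
        rw [hw]
        have h := hxy N hNn hzN i0 j
        rw [← QuotientGroup.eq_one_iff, QuotientGroup.mk_mul, QuotientGroup.mk_inv,
          mul_inv_eq_one, QuotientGroup.mk_mul, QuotientGroup.mk_mul] at h
        have hc : Commute ((x i0 : G) : G ⧸ N) ((y j : G) : G ⧸ N) := h
        rw [hp, QuotientGroup.mk_pow]
        exact hc.pow_left _
    intro g
    have hg : g ∈ Subgroup.closure (Set.range x ∪ Set.range y) := by rw [hgen]; trivial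
    have hg' := hle hg
    rw [Subgroup.mem_comap, Subgroup.mem_centralizer_iff] at hg'
    have h := hg' _ rfl
    rw [← QuotientGroup.eq_one_iff, QuotientGroup.mk_mul, QuotientGroup.mk_inv,
          mul_inv_eq_one, QuotientGroup.mk_mul, QuotientGroup.mk_mul]
    exact h.symm
  -- every element is in `R`, `R p` or `R p⁻¹`
  have hcos : ∀ g : G, g ∈ R ∨ g * p⁻¹ ∈ R ∨ g * p ∈ R := by
    intro g
    obtain ⟨k, hk⟩ := hrange g
    have hk' : u ^ k = ρ g := hk
    have hz3 : u ^ (3 : ℤ) = 1 := by exact_mod_cast hu3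
    have hkm : u ^ k = u ^ (k % 3) := by
      conv_lhs => rw [← Int.emod_add_mul_ediv k 3, zpow_add, zpow_mul, hz3, one_zpow, mul_one]
    have hlt : k % 3 = 0 ∨ k % 3 = 1 ∨ k % 3 = 2 := by omega
    rw [hkm] at hk'
    rcases hlt with h | h | h
    · left
      rw [hRdef, MonoidHom.mem_ker, ← hk', h, zpow_zero]
    · right; left
      rw [hRdef, MonoidHom.mem_ker, map_mul, map_inv, ← hk', h, hρp, zpow_one, mul_inv_cancel]
    · right; right
      rw [hRdef, MonoidHom.mem_ker, map_mul, ← hk', h, hρp]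
      have : u ^ (2 : ℤ) * u = u ^ 3 := by
        rw [pow_succ]; norm_cast
      rw [this, hu3]
  -- (star)
  have hstar : ∀ w : G, (∀ r ∈ R, r * w = w * r) → w * p = p * w → w = 1 := by
    intro w hw hwp
    apply hcy
    intro j
    have cp : Commute w p := hwp
    rcases hcos (y j) with h | h | h
    · exact hw _ h
    · have c1 : Commute w (y j * p⁻¹) := (hw _ h).symm
      have c2 := c1.mul_right cp
      rw [inv_mul_cancel_right] at c2
      exact c2.symm
    · have c1 : Commute w (y j * p) := (hw _ h).symm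
      have c2 := c1.mul_right cp.inv_right
      rw [mul_inv_cancel_right] at c2
      exact c2.symm
  -- `S`, the centralizer of `p` in `R`, is trivial
  have hS : R ⊓ Subgroup.centralizer {p} = ⊥ := by
    by_contra hne
    have hSn : (R ⊓ Subgroup.centralizer {p}).Normal := by
      constructor
      rintro s ⟨hsR, hsp⟩ h
      have hsp' : p * s = s * p := Subgroup.mem_centralizer_iff.mp hsp p rfl
      refine ⟨hRn.conj_mem s hsR h, Subgroup.mem_centralizer_iff.mpr ?_⟩
      intro w hw
      rw [Set.mem_singleton_iff] at hw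
      rw [hw]
      -- `h⁻¹ p = n p h⁻¹` hence `p h = h p n'`
      set n := (h⁻¹ * p) * (p * h⁻¹)⁻¹ with hn
      have hnN : n ∈ N := hpcent h⁻¹
      have e1 : h⁻¹ * p = n * (p * h⁻¹) := by rw [hn]; group
      have e2 : p * h = h * (n * p) := by
        calc p * h = h * (h⁻¹ * p) * h := by group
          _ = h * (n * (p * h⁻¹)) * h := by rw [e1]
          _ = _ := by group
      have e3 : s * n = n * s := hNc n hnN s hsR
      calc p * (h * s * h⁻¹) = (p * h) * s * h⁻¹ := by group
        _ = h * n * (p * s) * h⁻¹ := by rw [e2]; group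
        _ = h * n * (s * p) * h⁻¹ := by rw [hsp']
        _ = h * (n * s) * p * h⁻¹ := by group
        _ = h * (s * n) * p * h⁻¹ := by rw [e3]
        _ = h * s * (n * (p * h⁻¹)) := by group
        _ = h * s * (h⁻¹ * p) := by rw [e1]
        _ = _ := by group
    have hzS := hmin _ hSn hne
    apply hz
    apply hstar z hzc
    have := (Subgroup.mem_centralizer_iff.mp hzS.2) p rfl
    exact this.symm
  -- `R = N`
  have hRN : R = N := by
    symm
    apply Subgroup.eq_of_le_of_card_ge hNR
    let f : R → N := fun r => ⟨((r : G) * p) * (p * (r : G))⁻¹, hpcent r⟩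
    apply Nat.card_le_card_of_injective f
    rintro ⟨r, hr⟩ ⟨s, hs⟩ hrs
    have h1 : (r * p) * (p * r)⁻¹ = (s * p) * (p * s)⁻¹ := congrArg Subtype.val hrs
    have h2 : s⁻¹ * r ∈ R ⊓ Subgroup.centralizer {p} := by
      refine ⟨R.mul_mem (R.inv_mem hs) hr, Subgroup.mem_centralizer_iff.mpr ?_⟩
      intro w hw
      rw [Set.mem_singleton_iff] at hw
      rw [hw]
      have h3 : r * p * r⁻¹ = s * p * s⁻¹ := by
        calc r * p * r⁻¹ = (r * p) * (p * r)⁻¹ * p := by group
          _ = (s * p) * (p * s)⁻¹ * p := by rw [h1]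
          _ = _ := by group
      calc p * (s⁻¹ * r) = s⁻¹ * (s * p * s⁻¹) * r := by group
        _ = s⁻¹ * (r * p * r⁻¹) * r := by rw [h3]
        _ = _ := by group
    rw [hS, Subgroup.mem_bot] at h2
    apply Subtype.ext
    exact (inv_mul_eq_one.mp h2).symm
  have hab : ∀ u ∈ R, ∀ v ∈ R, u * v = v * u := by
    intro u hu v hv
    exact hNc v (hRN ▸ hv) u hu
  -- `z² = 1`
  have hz2 : z * z = 1 := by
    let E : Subgroup G :=
      { carrier := {g | g ∈ R ∧ g * g = 1}
        one_mem' := ⟨one_mem R, mul_one 1⟩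
        mul_mem' := by
          rintro g h ⟨hg, hg2⟩ ⟨hh, hh2⟩
          refine ⟨mul_mem hg hh, ?_⟩
          calc g * h * (g * h) = g * (h * g) * h := by group
            _ = g * (g * h) * h := by rw [hab h hh g hg]
            _ = (g * g) * (h * h) := by group
            _ = 1 := by rw [hg2, hh2, mul_one]
        inv_mem' := by
          rintro g ⟨hg, hg2⟩
          refine ⟨inv_mem hg, ?_⟩
          rw [← mul_inv_rev, hg2, inv_one] }
    have hEn : E.Normal := by
      constructor
      rintro g ⟨hg, hg2⟩ h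
      refine ⟨hRn.conj_mem g hg h, ?_⟩
      calc h * g * h⁻¹ * (h * g * h⁻¹) = h * (g * g) * h⁻¹ := by group
        _ = 1 := by rw [hg2]; group
    have hEne : E ≠ ⊥ := by
      have h2R : 2 ∣ Nat.card R := by
        rw [hcR]
        exact dvd_pow_self 2 (by omega)
      obtain ⟨t, ht⟩ := exists_prime_orderOf_dvd_card' 2 h2R
      intro h
      have htE : (t : G) ∈ E := by
        refine ⟨t.2, ?_⟩
        have : t ^ 2 = 1 := by rw [← ht]; exact pow_orderOf_eq_one t
        rw [pow_two] at this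
        exact congrArg Subtype.val this
      rw [h, Subgroup.mem_bot] at htE
      have : t = 1 := Subtype.ext htE
      rw [this, orderOf_one] at ht
      omega
    exact (hmin E hEn hEne).2
  have hfin := final_count R z p (hRN.trans hN) hab hz2 hp3 hcos
    (fun w hw hwp => hstar w (fun r hr => hab r hr w hw) hwp)
  rw [hcR] at hfin
  omega

end Pool.Agent.R717.SB
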