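import Pool.Agent.R717.SBSys
import Pool.Agent.R717.SBThree

/-!
The lower bound `2^(2g+1)` for the order of a finite group with a nontrivial system.
-/

namespace Pool.Agent.R717.SB

variable {g : ℕ} {G : Type*} [Group G]

theorem Sys.comm_mod (S : Sys g G) (hz : S.Z = 1) (c d : Bool) (i j : Fin g) :
    S.X c i * S.Y d j = S.Y d j * S.X c i := by
  rcases lt_trichotomy i j with h | h | h
  · have := S.c2 c d i j h
    rw [hz] at this
    simpa using this
  · subst h
    rcases c with _ | _ <;> rcases d with _ | _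
    · have := S.r2 false i
      rw [hz] at this
      simpa using this.symm
    · have := S.r4 i
      rw [hz] at this
      simpa using this.symm
    · have := S.r4' i
      rw [hz] at this
      simpa using this
    · have := S.r2 true i
      rw [hz] at this
      simpa using this.symm
  · exact (S.c1 d c j i h).symm

theorem lower_gen [Finite G] (hg : 2 ≤ g) (S : Sys g G) (hz : S.Z ≠ 1)
    (hgen : Subgroup.closure (Set.range (fun i : Bool × Fin g => S.X i.1 i.2) ∪
      Set.range (fun i : Bool × Fin g => S.Y i.1 i.2)) = ⊤) :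
    2 ^ (2 * g + 1) ≤ Nat.card G := by
  by_contra hlt
  push Not at hlt
  have triv1 : ∀ u, (∀ c r, S.Y c r * u = u * S.Y c r) → u = 1 := fun u hu =>
    trivial_of_small S hz S.core hlt hu
  have triv2 : ∀ u, (∀ c r, (S.Z⁻¹ * S.X c r * S.Z) * u = u * (S.Z⁻¹ * S.X c r * S.Z)) →
    u = 1 := fun u hu => trivial_of_small S hz S.core' hlt hu
  have hpos : 0 < 2 ^ (2 * g) := by positivity
  rcases (chain_top S hz S.core).1 with h | h | h
  · have : Fact (Nat.Prime 2) := ⟨Nat.prime_two⟩
    have hp : IsPGroup 2 G := IsPGroup.of_card h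
    have hnt : Nontrivial G := ⟨⟨S.Z, 1, hz⟩⟩
    have := hp.center_nontrivial
    obtain ⟨c, hc⟩ := exists_ne (1 : Subgroup.center G)
    apply hc
    apply Subtype.ext
    apply triv1
    intro d r
    exact Subgroup.mem_center_iff.mp c.2 (S.Y d r)
  · obtain ⟨k, hk⟩ : ∃ k, 2 * g = k + 1 := ⟨2 * g - 1, by omega⟩
    have hcard : Nat.card G = 3 * 2 ^ k := by
      rw [hk, pow_succ] at h
      omega
    refine no_three (fun i : Bool × Fin g => S.X i.1 i.2) (fun i : Bool × Fin g => S.Y i.1 i.2)
      S.Z k (by omega) hcard hgen ?_ ?_ ?_ ?_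
    · intro M hM hzM i j
      have hz1 : (S.map (QuotientGroup.mk' M)).Z = 1 := by
        change (QuotientGroup.mk' M) S.Z = 1
        rw [QuotientGroup.mk'_apply, QuotientGroup.eq_one_iff]
        exact hzM
      have h1 := (S.map (QuotientGroup.mk' M)).comm_mod hz1 i.1 j.1 i.2 j.2
      have h2 : (QuotientGroup.mk' M) ((S.X i.1 i.2 * S.Y j.1 j.2) *
          (S.Y j.1 j.2 * S.X i.1 i.2)⁻¹) = 1 := by
        rw [map_mul, map_inv, mul_inv_eq_one, map_mul, map_mul]
        exact h1
      rw [QuotientGroup.mk'_apply, QuotientGroup.eq_one_iff] at h2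
      exact h2
    · intro u hu
      exact triv1 u fun c r => hu (c, r)
    · intro hcon
      apply hz
      apply triv2
      intro c r
      have hc : Commute (S.X c r) S.Z := hcon (c, r)
      have hc2 : Commute (S.Z⁻¹ * S.X c r * S.Z) S.Z :=
        ((Commute.inv_left (Commute.refl S.Z)).mul_left hc).mul_left (Commute.refl S.Z)
      exact hc2
    · intro M hM hne
      by_contra hzM
      have hz1 : (S.map (QuotientGroup.mk' M)).Z ≠ 1 := by
        change (QuotientGroup.mk' M) S.Z ≠ 1
        rw [QuotientGroup.mk'_apply, Ne, QuotientGroup.eq_one_iff]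
        exact hzM
      have h1 := (chain_top (S.map (QuotientGroup.mk' M)) hz1
        (S.map (QuotientGroup.mk' M)).core).2
      have h2 : 2 ^ (2 * g) ≤ Nat.card (G ⧸ M) := by
        refine le_trans ?_ h1
        exact Nat.le_mul_of_pos_right _ Nat.card_pos
      have h3 : Nat.card G = Nat.card (G ⧸ M) * Nat.card M :=
        Subgroup.card_eq_card_quotient_mul_card_subgroup M
      have h4 : 2 ≤ Nat.card M := by
        have h5 : Nat.card M ≠ 1 := by
          intro h6
          exact hne (Subgroup.card_eq_one.mp h6)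
        have h7 : 0 < Nat.card M := Nat.card_pos
        omega
      have h5 : 2 ^ (2 * g) * 2 ≤ Nat.card (G ⧸ M) * Nat.card M := Nat.mul_le_mul h2 h4
      rw [pow_succ] at hlt
      omega
  · omega

theorem lower [Finite G] (hg : 2 ≤ g) (S : Sys g G) (hz : S.Z ≠ 1) :
    2 ^ (2 * g + 1) ≤ Nat.card G := by
  set H : Subgroup G := Subgroup.closure (Set.range (fun i : Bool × Fin g => S.X i.1 i.2) ∪
      Set.range (fun i : Bool × Fin g => S.Y i.1 i.2)) with hH
  have hX : ∀ c r, S.X c r ∈ H := fun c r => Subgroup.subset_closure (Or.inl ⟨(c, r), rfl⟩)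
  have hY : ∀ c r, S.Y c r ∈ H := fun c r => Subgroup.subset_closure (Or.inr ⟨(c, r), rfl⟩)
  have hZ : S.Z ∈ H := by
    rw [← S.tr]
    apply Subgroup.list_prod_mem
    intro w hw
    rw [List.mem_ofFn] at hw
    obtain ⟨r, rfl⟩ := hw
    exact H.mul_mem (H.mul_mem (H.mul_mem (hX _ _) (H.inv_mem (hX _ _))) (H.inv_mem (hX _ _)))
      (hX _ _)
  have h := lower_gen hg (S.restrict H hX hY hZ)
    (fun h => hz (congrArg Subtype.val h)) (by
      rw [eq_top_iff]
      intro w _
      have key : ∀ u (hu : u ∈ H), (⟨u, hu⟩ : H) ∈ Subgroup.closure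
          (Set.range (fun i : Bool × Fin g => (S.restrict H hX hY hZ).X i.1 i.2) ∪
            Set.range (fun i : Bool × Fin g => (S.restrict H hX hY hZ).Y i.1 i.2)) := by
        intro u hu
        have hu' := hu
        rw [hH] at hu'
        induction hu' using Subgroup.closure_induction with
        | mem v hv =>
          rcases hv with ⟨i, rfl⟩ | ⟨i, rfl⟩
          · exact Subgroup.subset_closure (Or.inl ⟨i, rfl⟩)
          · exact Subgroup.subset_closure (Or.inr ⟨i, rfl⟩)
        | one => exact Subgroup.one_mem _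
        | mul v w hv hw ihv ihw =>
          exact Subgroup.mul_mem _ (ihv hv) (ihw hw)
        | inv v hv ihv => exact Subgroup.inv_mem _ (ihv hv)
      exact key w.1 w.2)
  exact h.trans (Subgroup.card_le_card_group H)

/-- The system in a group given by elements that satisfy the relations of the braid group. -/
def Sat.sys {s : G} {x : Bool → Fin g → G} (h : Sat s x) : Sys g G where
  X := x
  Y := fun c r => s⁻¹ * x c r * s
  Z := s * s
  c1 := fun c d i j hij => by
    have h3 := h.r3 c d i j hij
    calc s⁻¹ * x c i * s * x d j = x d j * s⁻¹ * x c i * s := h3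
      _ = _ := by group
  c2 := fun c d i j hij => by
    have h3 := h.r3 c d i j hij
    calc (s * s)⁻¹ * x c i * (s * s) * (s⁻¹ * x d j * s)
        = s⁻¹ * (s⁻¹ * x c i * s * x d j) * s := by group
      _ = s⁻¹ * (x d j * s⁻¹ * x c i * s) * s := by rw [h3]
      _ = _ := by group
  r2 := fun c r => by
    have h2 := h.r2 c r
    calc s⁻¹ * x c r * s * (s * s)⁻¹ * x c r = s⁻¹ * x c r * s⁻¹ * x c r := by group
      _ = x c r * s⁻¹ * x c r * s⁻¹ := h2
      _ = _ := by group
  r2' := fun c r => by
    have h2 := h.r2 c r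
    calc (s * s)⁻¹ * x c r * (s⁻¹ * x c r * s) = s⁻¹ * (s⁻¹ * x c r * s⁻¹ * x c r) * s := by group
      _ = s⁻¹ * (x c r * s⁻¹ * x c r * s⁻¹) * s := by rw [h2]
      _ = _ := by group
  r4 := fun r => by
    have h4 := h.r4 r
    calc s⁻¹ * x true r * s * (s * s)⁻¹ * x false r = s⁻¹ * x true r * s⁻¹ * x false r := by group
      _ = x false r * s⁻¹ * x true r * s := h4
      _ = _ := by group
  r4' := fun r => by
    have h4 := h.r4 r
    calc (s * s)⁻¹ * x true r * (s⁻¹ * x false r * s)
        = s⁻¹ * (s⁻¹ * x true r * s⁻¹ * x false r) * s := by group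
      _ = s⁻¹ * (x false r * s⁻¹ * x true r * s) * s := by rw [h4]
      _ = _ := by group
  tr := h.tr

/-- The system in the pure braid group. -/
def sysP2 (g : ℕ) : Sys g (P2 g) :=
  (sat_gen (g := g)).sys.restrict (permHom g).ker
    (fun c r => by
      change permHom g (xg g c r) = 1
      rw [permHom, lift_xg])
    (fun c r => by
      change permHom g ((sg g)⁻¹ * xg g c r * sg g) = 1
      rw [map_mul, map_mul, map_inv, permHom, lift_xg, lift_sg]
      decide)
    (A12 g).2

theorem sysP2_Z (g : ℕ) : (sysP2 g).Z = A12 g := rfl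

/-- The lower bound for finite groups that detect `A₁₂`. -/
theorem lower_bound [Finite G] (hg : 2 ≤ g) (φ : P2 g →* G) (hφ : φ (A12 g) ≠ 1) :
    2 ^ (2 * g + 1) ≤ Nat.card G :=
  lower hg ((sysP2 g).map φ) hφ

end Pool.Agent.R717.SB
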