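import Pool.Agent.R717.SBDefs

/-!
Systems of elements of a group that satisfy the relations of the two strand pure surface braid
group, and the chain of centralizers.
-/

namespace Pool.Agent.R717.SB

/-- A system: `X` are the images of `a_r, b_r`, `Y` those of `σ⁻¹ a_r σ, σ⁻¹ b_r σ`. -/
structure Sys (g : ℕ) (G : Type*) [Group G] where
  X : Bool → Fin g → G
  Y : Bool → Fin g → G
  Z : G
  c1 : ∀ c d (s r : Fin g), s < r → Y c s * X d r = X d r * Y c s
  c2 : ∀ c d (s r : Fin g), s < r → Z⁻¹ * X c s * Z * Y d r = Y d r * (Z⁻¹ * X c s * Z)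
  r2 : ∀ c r, Y c r * Z⁻¹ * X c r = X c r * (Y c r * Z⁻¹)
  r2' : ∀ c r, Z⁻¹ * X c r * Y c r = Y c r * (Z⁻¹ * X c r)
  r4 : ∀ r, Y true r * Z⁻¹ * X false r = X false r * Y true r
  r4' : ∀ r, Z⁻¹ * X true r * Y false r = Y false r * (Z⁻¹ * X true r * Z)
  tr : (List.ofFn fun r => X true r * (X false r)⁻¹ * (X true r)⁻¹ * X false r).prod = Z

variable {g : ℕ} {G : Type*} [Group G]

/-- The image of a system under a homomorphism. -/
def Sys.map {H : Type*} [Group H] (S : Sys g G) (f : G →* H) : Sys g H where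
  X := fun c r => f (S.X c r)
  Y := fun c r => f (S.Y c r)
  Z := f S.Z
  c1 := fun c d s r h => by simpa only [map_mul, map_inv] using congrArg f (S.c1 c d s r h)
  c2 := fun c d s r h => by simpa only [map_mul, map_inv] using congrArg f (S.c2 c d s r h)
  r2 := fun c r => by simpa only [map_mul, map_inv] using congrArg f (S.r2 c r)
  r2' := fun c r => by simpa only [map_mul, map_inv] using congrArg f (S.r2' c r)
  r4 := fun r => by simpa only [map_mul, map_inv] using congrArg f (S.r4 r)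
  r4' := fun r => by simpa only [map_mul, map_inv] using congrArg f (S.r4' r)
  tr := by
    rw [← S.tr, map_list_prod, List.map_ofFn]
    congr 2
    funext r
    simp only [Function.comp_apply, map_mul, map_inv]

/-- The restriction of a system to a subgroup. -/
def Sys.restrict (S : Sys g G) (H : Subgroup G) (hX : ∀ c r, S.X c r ∈ H)
    (hY : ∀ c r, S.Y c r ∈ H) (hZ : S.Z ∈ H) : Sys g H where
  X := fun c r => ⟨S.X c r, hX c r⟩
  Y := fun c r => ⟨S.Y c r, hY c r⟩
  Z := ⟨S.Z, hZ⟩
  c1 := fun c d s r h => Subtype.ext (S.c1 c d s r h)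
  c2 := fun c d s r h => Subtype.ext (S.c2 c d s r h)
  r2 := fun c r => Subtype.ext (S.r2 c r)
  r2' := fun c r => Subtype.ext (S.r2' c r)
  r4 := fun r => Subtype.ext (S.r4 r)
  r4' := fun r => Subtype.ext (S.r4' r)
  tr := by
    apply Subtype.ext
    have := map_list_prod H.subtype (List.ofFn fun r : Fin g =>
      (⟨S.X true r, hX true r⟩ : H) * (⟨S.X false r, hX false r⟩)⁻¹ * (⟨S.X true r, hX true r⟩)⁻¹
        * ⟨S.X false r, hX false r⟩)
    rw [List.map_ofFn] at this
    exact this.trans S.tr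

/-- Conjugation by `σ`. The twist relation is not used for the new system, so it is kept apart. -/
structure Core (S : Sys g G) (X' Y' : Bool → Fin g → G) : Prop where
  c1 : ∀ c d (s r : Fin g), s < r → Y' c s * X' d r = X' d r * Y' c s
  r2' : ∀ c r, S.Z⁻¹ * X' c r * Y' c r = Y' c r * (S.Z⁻¹ * X' c r)
  r2 : ∀ c r, Y' c r * S.Z⁻¹ * X' c r = X' c r * (Y' c r * S.Z⁻¹)
  r4 : ∀ r, Y' true r * S.Z⁻¹ * X' false r = X' false r * Y' true r
  r4' : ∀ r, S.Z⁻¹ * X' true r * Y' false r = Y' false r * (S.Z⁻¹ * X' true r * S.Z)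

theorem Sys.core (S : Sys g G) : Core S S.X S.Y := ⟨S.c1, S.r2', S.r2, S.r4, S.r4'⟩

theorem Sys.core' (S : Sys g G) : Core S S.Y (fun c r => S.Z⁻¹ * S.X c r * S.Z) where
  c1 := fun c d s r h => S.c2 c d s r h
  r2' := fun c r => by
    have h := S.r2 c r
    calc S.Z⁻¹ * S.Y c r * (S.Z⁻¹ * S.X c r * S.Z)
        = S.Z⁻¹ * (S.Y c r * S.Z⁻¹ * S.X c r) * S.Z := by group
      _ = S.Z⁻¹ * (S.X c r * (S.Y c r * S.Z⁻¹)) * S.Z := by rw [h]
      _ = _ := by group
  r2 := fun c r => by
    have h := S.r2' c r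
    calc S.Z⁻¹ * S.X c r * S.Z * S.Z⁻¹ * S.Y c r
        = S.Z⁻¹ * S.X c r * S.Y c r := by group
      _ = S.Y c r * (S.Z⁻¹ * S.X c r) := h
      _ = _ := by group
  r4 := fun r => by
    have h := S.r4' r
    calc S.Z⁻¹ * S.X true r * S.Z * S.Z⁻¹ * S.Y false r
        = S.Z⁻¹ * S.X true r * S.Y false r := by group
      _ = _ := h
  r4' := fun r => by
    have h := S.r4 r
    calc S.Z⁻¹ * S.Y true r * (S.Z⁻¹ * S.X false r * S.Z)
        = S.Z⁻¹ * (S.Y true r * S.Z⁻¹ * S.X false r) * S.Z := by group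
      _ = S.Z⁻¹ * (S.X false r * S.Y true r) * S.Z := by rw [h]
      _ = _ := by group

/-- Elements that commute with the first `r` pairs `Y`. -/
def CC (Y : Bool → Fin g → G) (r : ℕ) : Subgroup G :=
  Subgroup.centralizer {y | ∃ c, ∃ s : Fin g, s.val < r ∧ y = Y c s}

theorem mem_CC {Y : Bool → Fin g → G} {r : ℕ} {u : G} :
    u ∈ CC Y r ↔ ∀ c (s : Fin g), s.val < r → Y c s * u = u * Y c s := by
  unfold CC
  rw [Subgroup.mem_centralizer_iff]
  constructor
  · intro h c s hs
    exact h _ ⟨c, s, hs, rfl⟩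
  · rintro h _ ⟨c, s, hs, rfl⟩
    exact h c s hs

/-- The three step lower bound predicate. -/
def QQ (n N : ℕ) : Prop := N = 2 ^ n ∨ 2 * N = 3 * 2 ^ n ∨ 2 ^ (n + 1) ≤ N

theorem QQ_zero {N : ℕ} (h : 1 ≤ N) : QQ 0 N := by
  unfold QQ
  omega

theorem QQ_step {n N i : ℕ} (h : QQ n N) (hi : 2 ≤ i) : QQ (n + 1) (i * N) := by
  unfold QQ at *
  have e1 : 2 ^ (n + 1) = 2 * 2 ^ n := by ring
  have e2 : 2 ^ (n + 1 + 1) = 4 * 2 ^ n := by ring
  rw [e1, e2]
  rw [e1] at h
  have hp : 0 < 2 ^ n := by positivity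
  generalize 2 ^ n = P at *
  rcases Nat.lt_or_ge i 3 with h3 | h3
  · have : i = 2 := by omega
    subst this
    omega
  · rcases Nat.lt_or_ge i 4 with h4 | h4
    · have : i = 3 := by omega
      subst this
      omega
    · have : 4 * N ≤ i * N := Nat.mul_le_mul_right N h4
      omega

/-- The size of a proper subgroup. -/
theorem card_step [Finite G] {H K : Subgroup G} (h : H ≤ K) {w : G} (hw : w ∈ K) (hw' : w ∉ H) :
    ∃ i, 2 ≤ i ∧ Nat.card K = i * Nat.card H := by
  obtain ⟨i, hi⟩ := Subgroup.card_dvd_of_le h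
  have hK : 0 < Nat.card K := Nat.card_pos
  refine ⟨i, ?_, by rw [hi, mul_comm]⟩
  rcases i with _ | _ | i
  · omega
  · exfalso
    apply hw'
    have : H = K := Subgroup.eq_of_le_of_card_ge h (by omega)
    rw [this]
    exact hw
  · omega

/-- The chain of centralizers. -/
theorem chain [Finite G] (S : Sys g G) (hz : S.Z ≠ 1) {X' Y' : Bool → Fin g → G}
    (C : Core S X' Y') : ∀ m r : ℕ, r + m = g →
      QQ (2 * m) (Nat.card (CC Y' r)) ∧
        2 ^ (2 * m) * Nat.card (CC Y' g) ≤ Nat.card (CC Y' r) := by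
  intro m
  induction m with
  | zero =>
    intro r hr
    have : r = g := by omega
    subst this
    refine ⟨QQ_zero Nat.card_pos, by simp⟩
  | succ m ih =>
    intro r hr
    obtain ⟨ih1, ih2⟩ := ih (r + 1) (by omega)
    have hrg : r < g := by omega
    set R : Fin g := ⟨r, hrg⟩ with hR
    set D : Subgroup G := CC Y' r ⊓ Subgroup.centralizer {Y' true R} with hD
    have hmemD : ∀ u, u ∈ D ↔ u ∈ CC Y' r ∧ Y' true R * u = u * Y' true R := by
      intro u
      rw [hD, Subgroup.mem_inf, Subgroup.mem_centralizer_iff]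
      simp
    -- first step
    have hb : X' false R ∈ CC Y' r := by
      rw [mem_CC]
      intro c s hs
      exact C.c1 c false s R (by rw [Fin.lt_def]; exact hs)
    have hb' : X' false R ∉ D := by
      rw [hmemD]
      rintro ⟨-, h⟩
      have h4 := C.r4 R
      rw [← h] at h4
      apply hz
      have h5 : S.Z⁻¹ = 1 := by
        have h6 : Y' true R * S.Z⁻¹ = Y' true R := mul_right_cancel h4
        exact mul_eq_left.mp h6
      exact inv_eq_one.mp h5
    obtain ⟨i, hi, hic⟩ := card_step (K := CC Y' r) (H := D) inf_le_left hb hb'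
    -- second step
    have hle : CC Y' (r + 1) ≤ D := by
      intro u hu
      rw [hmemD]
      rw [mem_CC] at hu
      refine ⟨mem_CC.mpr fun c s hs => hu c s (by omega), hu true R (by simp [hR])⟩
    have hvD : (X' false R)⁻¹ * X' true R * X' false R ∈ D := by
      rw [hmemD]
      constructor
      · have ha : X' true R ∈ CC Y' r := by
          rw [mem_CC]
          intro c s hs
          exact C.c1 c true s R (by rw [Fin.lt_def]; exact hs)
        exact mul_mem (mul_mem (inv_mem hb) ha) hb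
      · have e1 := C.r2 true R
        have e2 := C.r2' true R
        have e3 := C.r4 R
        generalize X' true R = a at *
        generalize X' false R = b at *
        generalize Y' true R = y at *
        generalize S.Z = z at *
        -- `y z⁻¹ a = a y z⁻¹`, `z⁻¹ a y = y z⁻¹ a`, `y z⁻¹ b = b y`
        have f3 : y * b⁻¹ = b⁻¹ * y * z⁻¹ := by
          have : b * (y * b⁻¹) = b * (b⁻¹ * y * z⁻¹) := by
            calc b * (y * b⁻¹) = (b * y) * b⁻¹ := by group
              _ = (y * z⁻¹ * b) * b⁻¹ := by rw [e3]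
              _ = _ := by group
          exact mul_left_cancel this
        calc y * (b⁻¹ * a * b) = (y * b⁻¹) * a * b := by group
          _ = b⁻¹ * (y * z⁻¹ * a) * b := by rw [f3]; group
          _ = b⁻¹ * (a * (y * z⁻¹)) * b := by rw [e1]
          _ = b⁻¹ * a * (y * z⁻¹ * b) := by group
          _ = b⁻¹ * a * (b * y) := by rw [e3]
          _ = _ := by group
    have hvC : (X' false R)⁻¹ * X' true R * X' false R ∉ CC Y' (r + 1) := by
      rw [mem_CC]
      intro h
      have h0 := h false R (by simp [hR])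
      have e2 := C.r2' false R
      have e4 := C.r4' R
      apply hz
      clear h hvD
      generalize X' true R = a at *
      generalize X' false R = b at *
      generalize Y' false R = y at *
      generalize S.Z = z at *
      -- `z⁻¹ b y = y z⁻¹ b`, `z⁻¹ a y = y z⁻¹ a z`
      have f2 : y * (z⁻¹ * b)⁻¹ = (z⁻¹ * b)⁻¹ * y := by
        have : Commute y (z⁻¹ * b) := e2.symm
        exact this.inv_right
      have key : y * (b⁻¹ * a * b) = (b⁻¹ * a * z⁻¹ * b) * y := by
        calc y * (b⁻¹ * a * b) = y * (z⁻¹ * b)⁻¹ * (z⁻¹ * a * z) * (z⁻¹ * b) := by group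
          _ = (z⁻¹ * b)⁻¹ * y * (z⁻¹ * a * z) * (z⁻¹ * b) := by rw [f2]
          _ = (z⁻¹ * b)⁻¹ * (y * (z⁻¹ * a * z)) * (z⁻¹ * b) := by group
          _ = (z⁻¹ * b)⁻¹ * (z⁻¹ * a * y) * (z⁻¹ * b) := by rw [e4]
          _ = (z⁻¹ * b)⁻¹ * (z⁻¹ * a) * (y * (z⁻¹ * b)) := by group
          _ = (z⁻¹ * b)⁻¹ * (z⁻¹ * a) * (z⁻¹ * b * y) := by rw [e2]
          _ = _ := by group
      rw [h0] at key
      have k1 : b⁻¹ * a * b = b⁻¹ * a * z⁻¹ * b := mul_right_cancel key
      have k2 : b⁻¹ * a = b⁻¹ * a * z⁻¹ := mul_right_cancel k1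
      have k3 : z⁻¹ = 1 := mul_eq_left.mp k2.symm
      exact inv_eq_one.mp k3
    obtain ⟨j, hj, hjc⟩ := card_step hle hvD hvC
    constructor
    · rw [hic, hjc]
      exact QQ_step (QQ_step ih1 hj) hi
    · rw [hic, hjc]
      calc 2 ^ (2 * (m + 1)) * Nat.card (CC Y' g)
          = 2 * (2 * (2 ^ (2 * m) * Nat.card (CC Y' g))) := by ring
        _ ≤ i * (j * Nat.card (CC Y' (r + 1))) :=
          Nat.mul_le_mul hi (Nat.mul_le_mul hj ih2)

theorem chain_top [Finite G] (S : Sys g G) (hz : S.Z ≠ 1) {X' Y' : Bool → Fin g → G}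
    (C : Core S X' Y') : QQ (2 * g) (Nat.card G) ∧
        2 ^ (2 * g) * Nat.card (CC Y' g) ≤ Nat.card G := by
  have h := chain S hz C g 0 (by omega)
  have e : CC Y' 0 = ⊤ := by
    rw [eq_top_iff]
    intro u _
    rw [mem_CC]
    intro c s hs
    omega
  rw [e] at h
  have e2 : Nat.card (⊤ : Subgroup G) = Nat.card G := Nat.card_congr (Subgroup.topEquiv.toEquiv)
  rw [e2] at h
  exact h

/-- In a small group only `1` commutes with all the `Y'`. -/
theorem trivial_of_small [Finite G] (S : Sys g G) (hz : S.Z ≠ 1) {X' Y' : Bool → Fin g → G}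
    (C : Core S X' Y') (hs : Nat.card G < 2 ^ (2 * g + 1)) {u : G}
    (hu : ∀ c r, Y' c r * u = u * Y' c r) : u = 1 := by
  have h := (chain_top S hz C).2
  have h1 : Nat.card (CC Y' g) < 2 := by
    by_contra hc
    push Not at hc
    have : 2 ^ (2 * g) * 2 ≤ 2 ^ (2 * g) * Nat.card (CC Y' g) := Nat.mul_le_mul_left _ hc
    have e : 2 ^ (2 * g + 1) = 2 ^ (2 * g) * 2 := by ring
    omega
  have h2 : 0 < Nat.card (CC Y' g) := Nat.card_pos
  have h3 : CC Y' g = ⊥ := by
    rw [← Subgroup.card_eq_one]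
    omega
  have h4 : u ∈ CC Y' g := by
    rw [mem_CC]
    intro c s _
    exact hu c s
  rw [h3] at h4
  exact Subgroup.mem_bot.mp h4

end Pool.Agent.R717.SB
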