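import Pool.Agent.R717.SBDefs

/-!
A homomorphism from the pure braid group onto a subgroup of a Heisenberg group of order
`2^(2g+1)` that does not kill `A₁₂`.
-/

namespace Pool.Agent.R717.SB

open Matrix

/-- The Heisenberg group over the field with two elements. -/
@[ext] structure Hei (n : ℕ) where
  p : Fin n → ZMod 2
  q : Fin n → ZMod 2
  t : ZMod 2

namespace Hei

variable {n : ℕ}

instance : Mul (Hei n) := ⟨fun u v => ⟨u.p + v.p, u.q + v.q, u.t + v.t + u.p ⬝ᵥ v.q⟩⟩
instance : One (Hei n) := ⟨⟨0, 0, 0⟩⟩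
instance : Inv (Hei n) := ⟨fun u => ⟨-u.p, -u.q, -u.t + u.p ⬝ᵥ u.q⟩⟩

@[simp] theorem mul_p (u v : Hei n) : (u * v).p = u.p + v.p := rfl
@[simp] theorem mul_q (u v : Hei n) : (u * v).q = u.q + v.q := rfl
@[simp] theorem mul_t (u v : Hei n) : (u * v).t = u.t + v.t + u.p ⬝ᵥ v.q := rfl
@[simp] theorem one_p : (1 : Hei n).p = 0 := rfl
@[simp] theorem one_q : (1 : Hei n).q = 0 := rfl
@[simp] theorem one_t : (1 : Hei n).t = 0 := rfl
@[simp] theorem inv_p (u : Hei n) : (u⁻¹).p = -u.p := rfl
@[simp] theorem inv_q (u : Hei n) : (u⁻¹).q = -u.q := rfl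
@[simp] theorem inv_t (u : Hei n) : (u⁻¹).t = -u.t + u.p ⬝ᵥ u.q := rfl

instance : Group (Hei n) := Group.ofLeftAxioms
  (by
    intro u v w
    ext1
    · simp [add_assoc]
    · simp [add_assoc]
    · simp only [mul_t, mul_p, mul_q, add_dotProduct, dotProduct_add]
      ring)
  (by
    intro u
    ext1 <;> simp)
  (by
    intro u
    ext1
    · simp
    · simp
    · simp only [mul_t, inv_t, inv_p, one_t, neg_dotProduct]
      ring)

/-- The central elements. -/
def cen (t : ZMod 2) : Hei n := ⟨0, 0, t⟩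

@[simp] theorem cen_p (t : ZMod 2) : (cen t : Hei n).p = 0 := rfl
@[simp] theorem cen_q (t : ZMod 2) : (cen t : Hei n).q = 0 := rfl
@[simp] theorem cen_t (t : ZMod 2) : (cen t : Hei n).t = t := rfl

theorem cen_mul (s t : ZMod 2) : (cen s : Hei n) * cen t = cen (s + t) := by
  ext1 <;> simp

theorem cen_zero : (cen 0 : Hei n) = 1 := rfl

theorem cen_comm (t : ZMod 2) (u : Hei n) : cen t * u = u * cen t := by
  ext1
  · simp
  · simp
  · simp [add_comm]

theorem cen_inv (t : ZMod 2) : (cen t : Hei n)⁻¹ = cen t := by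
  ext1
  · simp
  · simp
  · simp [ZMod.neg_eq_self_mod_two]

/-- The commutator form. -/
def om (u v : Hei n) : ZMod 2 := u.p ⬝ᵥ v.q + v.p ⬝ᵥ u.q

theorem comm_eq (u v : Hei n) : u * v = cen (om u v) * (v * u) := by
  have h2 : ∀ a : ZMod 2, a + a = 0 := CharTwo.add_self_eq_zero
  ext1
  · simp [add_comm]
  · simp [add_comm]
  · simp only [mul_t, cen_t, om, cen_p, zero_dotProduct, add_zero]
    linear_combination -(h2 (v.p ⬝ᵥ u.q))

/-- The equivalence with a product of types. -/
def equivProd (n : ℕ) : Hei n ≃ (Fin n → ZMod 2) × (Fin n → ZMod 2) × ZMod 2 where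
  toFun := fun u => (u.p, u.q, u.t)
  invFun := fun u => ⟨u.1, u.2.1, u.2.2⟩
  left_inv := fun _ => rfl
  right_inv := fun _ => rfl

instance : Finite (Hei n) := Finite.of_equiv _ (equivProd n).symm

theorem card_hei : Nat.card (Hei n) = 2 ^ (2 * n + 1) := by
  rw [Nat.card_congr (equivProd n), Nat.card_prod, Nat.card_prod, Nat.card_fun]
  simp
  ring

end Hei

/-- The wreath product of `G` with the group of order two. -/
@[ext] structure Wr (G : Type*) where
  l : G
  r : G
  t : Bool

namespace Wr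

variable {G : Type*} [Group G]

instance : Mul (Wr G) := ⟨fun x y => match x.t with
  | false => ⟨x.l * y.l, x.r * y.r, y.t⟩
  | true => ⟨x.l * y.r, x.r * y.l, !y.t⟩⟩
instance : One (Wr G) := ⟨⟨1, 1, false⟩⟩
instance : Inv (Wr G) := ⟨fun x => match x.t with
  | false => ⟨x.l⁻¹, x.r⁻¹, false⟩
  | true => ⟨x.r⁻¹, x.l⁻¹, true⟩⟩

@[simp] theorem mul_false (a b : G) (y : Wr G) :
    (⟨a, b, false⟩ : Wr G) * y = ⟨a * y.l, b * y.r, y.t⟩ := rfl
@[simp] theorem mul_true (a b : G) (y : Wr G) :
    (⟨a, b, true⟩ : Wr G) * y = ⟨a * y.r, b * y.l, !y.t⟩ := rfl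
theorem one_def : (1 : Wr G) = ⟨1, 1, false⟩ := rfl
@[simp] theorem inv_false (a b : G) : (⟨a, b, false⟩ : Wr G)⁻¹ = ⟨a⁻¹, b⁻¹, false⟩ := rfl
@[simp] theorem inv_true (a b : G) : (⟨a, b, true⟩ : Wr G)⁻¹ = ⟨b⁻¹, a⁻¹, true⟩ := rfl

instance : Group (Wr G) := Group.ofLeftAxioms
  (by
    rintro ⟨a, b, _ | _⟩ ⟨c, d, _ | _⟩ ⟨e, f, _ | _⟩ <;> simp [mul_assoc])
  (by
    rintro ⟨a, b, _ | _⟩ <;> simp [one_def])
  (by
    rintro ⟨a, b, _ | _⟩ <;> simp [one_def])

/-- The permutation part. -/
def tag : Wr G →* Equiv.Perm (Fin 2) where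
  toFun := fun x => match x.t with
    | false => 1
    | true => Equiv.swap 0 1
  map_one' := rfl
  map_mul' := by
    rintro ⟨a, b, _ | _⟩ ⟨c, d, _ | _⟩
    · change (1 : Equiv.Perm (Fin 2)) = 1 * 1
      decide
    · change Equiv.swap (0 : Fin 2) 1 = 1 * Equiv.swap 0 1
      decide
    · change Equiv.swap (0 : Fin 2) 1 = Equiv.swap 0 1 * 1
      decide
    · change (1 : Equiv.Perm (Fin 2)) = Equiv.swap 0 1 * Equiv.swap 0 1
      decide

theorem t_of_tag {x : Wr G} (h : tag x = 1) : x.t = false := by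
  rcases x with ⟨a, b, _ | _⟩
  · rfl
  · exfalso
    have h' : Equiv.swap (0 : Fin 2) 1 = 1 := h
    revert h'
    decide

theorem mul_l {x y : Wr G} (h : x.t = false) : (x * y).l = x.l * y.l := by
  rcases x with ⟨a, b, t⟩
  simp only at h
  subst h
  rfl

end Wr

theorem wr_prod {K α : Type*} [Group K] (f f' : α → K) (L : List α) :
    (L.map fun i => (⟨f i, f' i, false⟩ : Wr K)).prod =
      ⟨(L.map f).prod, (L.map f').prod, false⟩ := by
  induction L with
  | nil => rfl
  | cons a L ih =>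
    rw [List.map_cons, List.prod_cons, ih, List.map_cons, List.prod_cons, List.map_cons,
      List.prod_cons]
    rfl

/-- A tuple in the wreath product that satisfies the relations of the braid group. -/
theorem sat_wr {g : ℕ} {K : Type*} [Group K] (z : K) (hz : ∀ u, z * u = u * z) (hz2 : z⁻¹ = z)
    (ξ ξ' : Bool → Fin g → K)
    (h1 : ∀ c d i j, i ≠ j → ξ' c i * ξ d j = ξ d j * ξ' c i)
    (h2 : ∀ c r, ξ' c r * ξ c r = ξ c r * ξ' c r)
    (h3 : ∀ r, ξ' true r * ξ false r = z * (ξ false r * ξ' true r))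
    (h4 : ∀ r, ξ true r * ξ' false r = z * (ξ' false r * ξ true r))
    (h5 : (List.ofFn fun r => ξ true r * (ξ false r)⁻¹ * (ξ true r)⁻¹ * ξ false r).prod = z)
    (h6 : (List.ofFn fun r => ξ' true r * (ξ' false r)⁻¹ * (ξ' true r)⁻¹ * ξ' false r).prod = z) :
    Sat (⟨1, z, true⟩ : Wr K) (fun c r => ⟨ξ c r, ξ' c r, false⟩) where
  r2 := fun c r => by
    have e := h2 c r
    have cz : ∀ u v, u * z * v = z * (u * v) := fun u v => by rw [← hz u, mul_assoc]
    generalize ξ c r = a at *
    generalize ξ' c r = b at *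
    simp [hz2]
    refine ⟨by rw [cz, mul_assoc, e], by rw [cz, ← hz, e]⟩
  r3 := fun c d i j hij => by
    have e1 := h1 c d i j hij.ne
    have e2 := h1 d c j i hij.ne'
    have hzz : z * z = 1 := by
      calc z * z = z⁻¹ * z := by rw [hz2]
        _ = 1 := inv_mul_cancel z
    simp [hz2]
    refine ⟨?_, e2.symm⟩
    calc z * ξ' c i * z * ξ d j = ξ' c i * (z * z) * ξ d j := by rw [hz (ξ' c i)]; group
      _ = ξ d j * ξ' c i * (z * z) := by rw [hzz, mul_one, mul_one, e1]
      _ = ξ d j * (ξ' c i * z) * z := by group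
      _ = ξ d j * (z * ξ' c i) * z := by rw [hz (ξ' c i)]
      _ = _ := by group
  r4 := fun r => by
    have e1 := h3 r
    have e2 := h4 r
    have hzz : z * z = 1 := by
      calc z * z = z⁻¹ * z := by rw [hz2]
        _ = 1 := inv_mul_cancel z
    simp [hz2]
    refine ⟨?_, ?_⟩
    · calc z * ξ' true r * ξ false r = z * (ξ' true r * ξ false r) := by group
        _ = (z * z) * (ξ false r * ξ' true r) := by rw [e1]; group
        _ = (ξ false r * ξ' true r) * (z * z) := by rw [hzz]; group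
        _ = ξ false r * (ξ' true r * z) * z := by group
        _ = ξ false r * (z * ξ' true r) * z := by rw [hz (ξ' true r)]
        _ = _ := by group
    · calc ξ true r * z * ξ' false r = z * (ξ true r * ξ' false r) := by
            rw [← hz (ξ true r)]; group
        _ = (z * z) * (ξ' false r * ξ true r) := by rw [e2]; group
        _ = _ := by rw [hzz, one_mul]
  tr := by
    simp
    rw [List.ofFn_eq_map, wr_prod, ← List.ofFn_eq_map, ← List.ofFn_eq_map, h5, h6]

namespace Hei

variable {n : ℕ}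

/-- The vectors. -/
def xi (k l : Fin n) (ε : ZMod 2) : Bool → Fin n → Hei n
  | true, r => ⟨Pi.single r 1, Pi.single l (if r = k then ε else 0), 0⟩
  | false, r => ⟨Pi.single l (if r = k then ε else 0), Pi.single r 1, 0⟩

theorem om_symm (u v : Hei n) : om u v = om v u := by
  unfold om
  rw [add_comm]

theorem add_self2 (a : ZMod 2) : a + a = 0 := CharTwo.add_self_eq_zero a

theorem om_tt (k l : Fin n) (ε : ZMod 2) (r s : Fin n) :
    om (xi k l ε true r) (xi l k ε true s) = 0 := by
  simp only [om, xi, single_dotProduct, dotProduct_single, Pi.single_apply, one_mul, mul_one]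
  by_cases h1 : r = k
  · subst h1
    by_cases h2 : s = l
    · subst h2
      simp [add_self2]
    · have h2' : ¬ l = s := fun h => h2 h.symm
      simp [h2, h2']
  · have h1' : ¬ k = r := fun h => h1 h.symm
    simp [h1, h1']

theorem om_ff (k l : Fin n) (ε : ZMod 2) (r s : Fin n) :
    om (xi k l ε false r) (xi l k ε false s) = 0 := by
  simp only [om, xi, single_dotProduct, dotProduct_single, Pi.single_apply, one_mul, mul_one]
  by_cases h1 : r = k
  · subst h1
    by_cases h2 : s = l
    · subst h2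
      simp [add_self2]
    · have h2' : ¬ l = s := fun h => h2 h.symm
      simp [h2]
  · have h1' : ¬ k = r := fun h => h1 h.symm
    simp [h1]

theorem om_tf {k l : Fin n} (hkl : k ≠ l) (ε : ZMod 2) (r s : Fin n) :
    om (xi k l ε true r) (xi l k ε false s) = if r = s then 1 else 0 := by
  simp only [om, xi, single_dotProduct, dotProduct_single, Pi.single_apply, one_mul, mul_one]
  split_ifs <;> simp_all

theorem om_self (k l : Fin n) {ε : ZMod 2} (r : Fin n) :
    om (xi k l ε true r) (xi k l ε false r) = 1 + if r = k then ε else 0 := by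
  simp only [om, xi, single_dotProduct, dotProduct_single, Pi.single_apply, one_mul, mul_one,
    if_true]
  have : ∀ a : ZMod 2, a * a = a := by decide
  rw [this]

theorem comm_of_om {u v : Hei n} (h : om u v = 0) : u * v = v * u := by
  rw [comm_eq, h, cen_zero, one_mul]

theorem comm_of_om1 {u v : Hei n} (h : om u v = 1) : u * v = cen 1 * (v * u) := by
  rw [comm_eq, h]

theorem commutator_eq (u v : Hei n) : u * v⁻¹ * u⁻¹ * v = cen (om u v) := by
  have h := comm_eq u v⁻¹
  have h1 : om u v⁻¹ = om u v := by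
    simp only [om, inv_p, inv_q, ZMod.neg_eq_self_mod_two, dotProduct_neg, neg_dotProduct]
  rw [h, h1]
  group

theorem prod_cen (f : Fin n → ZMod 2) :
    (List.ofFn fun r => (cen (f r) : Hei n)).prod = cen (∑ r, f r) := by
  rw [← List.sum_ofFn]
  rw [List.ofFn_eq_map, List.ofFn_eq_map]
  induction List.finRange n with
  | nil => rfl
  | cons a L ih =>
    rw [List.map_cons, List.prod_cons, ih, List.map_cons, List.sum_cons, cen_mul]

theorem prod_xi (k l : Fin n) :
    (List.ofFn fun r => xi k l ((n : ZMod 2) + 1) true r * (xi k l ((n : ZMod 2) + 1) false r)⁻¹ *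
      (xi k l ((n : ZMod 2) + 1) true r)⁻¹ * xi k l ((n : ZMod 2) + 1) false r).prod = cen 1 := by
  have h : (fun r => xi k l ((n : ZMod 2) + 1) true r * (xi k l ((n : ZMod 2) + 1) false r)⁻¹ *
      (xi k l ((n : ZMod 2) + 1) true r)⁻¹ * xi k l ((n : ZMod 2) + 1) false r) =
      fun r => cen (1 + if r = k then ((n : ZMod 2) + 1) else 0) := by
    funext r
    rw [commutator_eq, om_self]
  rw [h, prod_cen]
  congr 1
  rw [Finset.sum_add_distrib, Finset.sum_ite_eq' Finset.univ k]
  simp
  rw [← add_assoc, add_self2, zero_add]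

theorem cen_one_ne : (cen 1 : Hei n) ≠ 1 := by
  intro h
  have := congrArg Hei.t h
  simp at this

theorem sat_hei {k l : Fin n} (hkl : k ≠ l) :
    Sat (g := n) (⟨1, cen 1, true⟩ : Wr (Hei n)) (fun c r =>
      ⟨xi k l ((n : ZMod 2) + 1) c r, xi l k ((n : ZMod 2) + 1) c r, false⟩) := by
  apply sat_wr
  · exact cen_comm 1
  · exact cen_inv 1
  · intro c d i j hij
    apply comm_of_om
    rcases c with _ | _ <;> rcases d with _ | _
    · exact om_ff _ _ _ _ _
    · rw [om_symm, om_tf hkl, if_neg hij.symm]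
    · rw [om_tf hkl.symm, if_neg hij]
    · exact om_tt _ _ _ _ _
  · intro c r
    apply comm_of_om
    rcases c with _ | _
    · exact om_ff _ _ _ _ _
    · exact om_tt _ _ _ _ _
  · intro r
    apply comm_of_om1
    rw [om_tf hkl.symm, if_pos rfl]
  · intro r
    apply comm_of_om1
    rw [om_tf hkl, if_pos rfl]
  · exact prod_xi k l
  · exact prod_xi l k

end Hei

/-- The upper bound: a homomorphism to a group of order `2^(2g+1)`. -/
theorem upper {g : ℕ} (hg : 2 ≤ g) : ∃ φ : P2 g →* Hei g, φ (A12 g) ≠ 1 := by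
  let k : Fin g := ⟨1, by omega⟩
  let l : Fin g := ⟨0, by omega⟩
  have hkl : k ≠ l := by
    intro h
    have := congrArg Fin.val h
    simp [k, l] at this
  let Ψ : B2 g →* Wr (Hei g) := lift (Hei.sat_hei hkl)
  have htag : Wr.tag.comp Ψ = permHom g := by
    apply PresentedGroup.ext
    intro x
    rcases x with _ | ⟨c, r⟩
    · change Wr.tag (Ψ (sg g)) = permHom g (sg g)
      rw [permHom, lift_sg, lift_sg]
      rfl
    · change Wr.tag (Ψ (xg g c r)) = permHom g (xg g c r)
      rw [permHom, lift_xg, lift_xg]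
      rfl
  have ht : ∀ w : P2 g, (Ψ w).t = false := by
    intro w
    apply Wr.t_of_tag
    have h1 : permHom g (w : B2 g) = 1 := w.2
    have h2 := DFunLike.congr_fun htag (w : B2 g)
    exact h2.trans h1
  refine ⟨{ toFun := fun w => (Ψ w).l, map_one' := ?_, map_mul' := ?_ }, ?_⟩
  · change (Ψ 1).l = 1
    rw [map_one]; rfl
  · intro v w
    change (Ψ (v * w)).l = (Ψ v).l * (Ψ w).l
    rw [map_mul, Wr.mul_l (ht v)]
  · change (Ψ (sg g * sg g)).l ≠ 1
    rw [map_mul, lift_sg]
    change (1 : Hei g) * Hei.cen 1 ≠ 1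
    rw [one_mul]
    exact Hei.cen_one_ne

end Pool.Agent.R717.SB
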