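import Mathlib

/-! Elements and relations of `SL(2, K)`, generation, perfectness and simplicity modulo the
centre (for fields with an element `a`, `a ^ 4 ≠ 1`). -/

namespace Pool.Agent.R717.SLTwo

open Matrix
open scoped commutatorElement

variable {K : Type*} [Field K]

/-- upper unipotent element -/
def u (x : K) : Matrix.SpecialLinearGroup (Fin 2) K := ⟨!![1, x; 0, 1], by simp [det_fin_two]⟩

/-- diagonal element -/
def t (a : Kˣ) : Matrix.SpecialLinearGroup (Fin 2) K :=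
  ⟨!![(a : K), 0; 0, ((a⁻¹ : Kˣ) : K)], by simp [det_fin_two]⟩

/-- Weyl element -/
def w : Matrix.SpecialLinearGroup (Fin 2) K := ⟨!![0, 1; -1, 0], by simp [det_fin_two]⟩

lemma u_val (x : K) : (u x).1 = !![1, x; 0, 1] := rfl

lemma t_val (a : Kˣ) : (t a).1 = !![(a : K), 0; 0, ((a⁻¹ : Kˣ) : K)] := rfl

lemma w_val : (w : Matrix.SpecialLinearGroup (Fin 2) K).1 = !![0, 1; -1, 0] := rfl

lemma w_inv_val : ((w : Matrix.SpecialLinearGroup (Fin 2) K)⁻¹).1 = !![0, -1; 1, 0] := by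
  rw [Matrix.SpecialLinearGroup.coe_inv, w_val, Matrix.adjugate_fin_two]
  simp

lemma sl_ext {A B : Matrix.SpecialLinearGroup (Fin 2) K} (h00 : A.1 0 0 = B.1 0 0)
    (h01 : A.1 0 1 = B.1 0 1) (h10 : A.1 1 0 = B.1 1 0) (h11 : A.1 1 1 = B.1 1 1) : A = B := by
  apply Subtype.ext
  ext i j
  fin_cases i <;> fin_cases j <;> assumption

lemma u_zero : u (0 : K) = 1 := by
  apply sl_ext <;> simp [u_val]

lemma u_add (x y : K) : u (x + y) = u x * u y := by
  apply sl_ext <;> simp [u_val, Matrix.mul_apply, Fin.sum_univ_two]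
  ring

lemma t_one : t (1 : Kˣ) = 1 := by
  apply sl_ext <;> simp [t_val]

lemma t_mul (a b : Kˣ) : t (a * b) = t a * t b := by
  apply sl_ext <;> simp [t_val, Matrix.mul_apply, Fin.sum_univ_two]
  ring

lemma t_u (a : Kˣ) (x : K) : t a * u x = u ((a : K) ^ 2 * x) * t a := by
  apply sl_ext <;> simp [t_val, u_val, Matrix.mul_apply, Fin.sum_univ_two]
  field_simp

lemma w_t (a : Kˣ) : w * t a = t a⁻¹ * w := by
  apply sl_ext <;> simp [t_val, w_val, Matrix.mul_apply, Fin.sum_univ_two]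

lemma w_sq : (w : Matrix.SpecialLinearGroup (Fin 2) K) * w = -1 := by
  apply sl_ext <;> simp [w_val, Matrix.mul_apply, Fin.sum_univ_two]

lemma t_neg_one : t (-1 : Kˣ) = -1 := by
  apply sl_ext <;> simp [t_val]

/-- the Bruhat relation -/
lemma w_u_w (x : Kˣ) : w * u (x : K) * w = (-1) * (u (-((x⁻¹ : Kˣ) : K)) * t x⁻¹ * w *
    u (-((x⁻¹ : Kˣ) : K))) := by
  have hx : (x : K) ≠ 0 := x.ne_zero
  apply sl_ext <;>
    simp [w_val, u_val, t_val, Matrix.mul_apply, Fin.sum_univ_two]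

/-- Bruhat decomposition. -/
lemma bruhat (g : Matrix.SpecialLinearGroup (Fin 2) K) :
    (∃ a x, g = t a * u x) ∨ (∃ x a y, g = u x * t a * w * u y) := by
  have hdet := g.2
  rw [det_fin_two] at hdet
  by_cases hc : g.1 1 0 = 0
  · left
    rw [hc, mul_zero, sub_zero] at hdet
    have ha : g.1 0 0 ≠ 0 := by
      intro h; rw [h, zero_mul] at hdet; exact zero_ne_one hdet
    refine ⟨Units.mk0 _ ha, (g.1 0 0)⁻¹ * g.1 0 1, ?_⟩
    have hd : g.1 1 1 = (g.1 0 0)⁻¹ := by field_simp; linear_combination hdet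
    apply sl_ext
    · simp [t_val, u_val, Matrix.mul_apply, Fin.sum_univ_two]
    · simp [t_val, u_val, Matrix.mul_apply, Fin.sum_univ_two]; field_simp
    · simp [t_val, u_val, Matrix.mul_apply, Fin.sum_univ_two, hc]
    · simp [t_val, u_val, Matrix.mul_apply, Fin.sum_univ_two, hd]
  · right
    refine ⟨g.1 0 0 * (g.1 1 0)⁻¹, Units.mk0 (-(g.1 1 0)⁻¹) (by simpa using hc),
      g.1 1 1 * (g.1 1 0)⁻¹, ?_⟩
    apply sl_ext
    · simp [t_val, u_val, w_val, Matrix.mul_apply, Fin.sum_univ_two]; field_simp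
    · simp [t_val, u_val, w_val, Matrix.mul_apply, Fin.sum_univ_two]; field_simp; linear_combination -hdet
    · simp [t_val, u_val, w_val, Matrix.mul_apply, Fin.sum_univ_two]
    · simp [t_val, u_val, w_val, Matrix.mul_apply, Fin.sum_univ_two]; field_simp

/-- `t a` is a product of unipotents and Weyl elements. -/
lemma t_mem {H : Subgroup (Matrix.SpecialLinearGroup (Fin 2) K)} (hu : ∀ x, u x ∈ H) (hw : w ∈ H)
    (a : Kˣ) : t a ∈ H := by
  have h := w_u_w (K := K) a⁻¹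
  have hn : (-1 : Matrix.SpecialLinearGroup (Fin 2) K) ∈ H := by rw [← w_sq]; exact mul_mem hw hw
  have h2 : t a = (u (-((a⁻¹⁻¹ : Kˣ) : K)))⁻¹ * ((-1) * (w * u ((a⁻¹ : Kˣ) : K) * w)) *
      (w * u (-((a⁻¹⁻¹ : Kˣ) : K)))⁻¹ := by
    rw [h, inv_inv]
    have h3 : (-1 : Matrix.SpecialLinearGroup (Fin 2) K) * ((-1) * (u (-(a : K)) * t a * w *
        u (-(a : K)))) = u (-(a : K)) * t a * w * u (-(a : K)) := by
      rw [← mul_assoc]; simp
    rw [h3]
    group
  rw [h2]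
  exact mul_mem (mul_mem (inv_mem (hu _)) (mul_mem hn (mul_mem (mul_mem hw (hu _)) hw)))
    (inv_mem (mul_mem hw (hu _)))

lemma eq_top_of_mem {H : Subgroup (Matrix.SpecialLinearGroup (Fin 2) K)} (hu : ∀ x, u x ∈ H)
    (hw : w ∈ H) : H = ⊤ := by
  rw [eq_top_iff]
  intro g _
  rcases bruhat g with ⟨a, x, rfl⟩ | ⟨x, a, y, rfl⟩
  · exact mul_mem (t_mem hu hw a) (hu x)
  · exact mul_mem (mul_mem (mul_mem (hu x) (t_mem hu hw a)) hw) (hu y)

/-- `w` is a product of upper and lower unipotents -/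
lemma w_eq : (w : Matrix.SpecialLinearGroup (Fin 2) K) =
    u 1 * (w * u 1 * w⁻¹) * u 1 := by
  apply sl_ext <;> simp only [Matrix.SpecialLinearGroup.coe_mul, w_inv_val, w_val, u_val] <;>
    simp [Matrix.mul_apply, Fin.sum_univ_two]

lemma normal_eq_top {H : Subgroup (Matrix.SpecialLinearGroup (Fin 2) K)} [H.Normal]
    (hu : ∀ x, u x ∈ H) : H = ⊤ := by
  apply eq_top_of_mem hu
  rw [w_eq]
  exact mul_mem (mul_mem (hu 1) (Subgroup.Normal.conj_mem inferInstance _ (hu 1) _)) (hu 1)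

lemma t_u_t (a : Kˣ) (x : K) : t a * u x * (t a)⁻¹ = u ((a : K) ^ 2 * x) := by
  rw [t_u]; group

lemma u_neg (x : K) : u (-x) = (u x)⁻¹ := by
  rw [eq_inv_iff_mul_eq_one, ← u_add, neg_add_cancel, u_zero]

lemma perfect (a : Kˣ) (ha : (a : K) ^ 2 ≠ 1) :
    commutator (Matrix.SpecialLinearGroup (Fin 2) K) = ⊤ := by
  apply normal_eq_top
  intro x
  have h : ⁅t a, u (((a : K) ^ 2 - 1)⁻¹ * x)⁆ = u x := by
    rw [commutatorElement_def, t_u_t, ← u_neg, ← u_add]
    congr 1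
    have : (a : K) ^ 2 - 1 ≠ 0 := sub_ne_zero.2 ha
    field_simp
    ring
  rw [← h]
  exact Subgroup.commutator_mem_commutator (Subgroup.mem_top _) (Subgroup.mem_top _)

/-- A normal subgroup containing an element with nonzero lower left entry is everything. -/
lemma normal_eq_top_of_entry {N : Subgroup (Matrix.SpecialLinearGroup (Fin 2) K)} [N.Normal]
    (a : Kˣ) (ha : (a : K) ^ 4 ≠ 1) {g : Matrix.SpecialLinearGroup (Fin 2) K} (hg : g ∈ N)
    (hc : g.1 1 0 ≠ 0) : N = ⊤ := by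
  have hdet := g.2
  rw [det_fin_two] at hdet
  -- make the upper left entry zero
  have h1 : u (-(g.1 0 0 * (g.1 1 0)⁻¹)) * g * (u (-(g.1 0 0 * (g.1 1 0)⁻¹)))⁻¹ ∈ N :=
    Subgroup.Normal.conj_mem inferInstance _ hg _
  obtain ⟨c, τ, hc0, h, hh, hhN⟩ : ∃ (c τ : K) (_ : c ≠ 0) (h : Matrix.SpecialLinearGroup (Fin 2) K),
      h.1 = !![0, -c⁻¹; c, τ] ∧ h ∈ N := by
    refine ⟨g.1 1 0, g.1 0 0 + g.1 1 1, hc, _, ?_, h1⟩
    rw [← u_neg]
    ext i j
    fin_cases i <;> fin_cases j <;>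
      simp [u_val, Matrix.mul_apply, Fin.sum_univ_two, Matrix.vecMul, dotProduct] <;>
      field_simp <;> first | (ring; done) | linear_combination (-hdet)
  have hp : h⁻¹ * (t a * h * (t a)⁻¹) ∈ N :=
    mul_mem (inv_mem hhN) (Subgroup.Normal.conj_mem inferInstance _ hhN _)
  have ha0 : (a : K) ≠ 0 := a.ne_zero
  obtain ⟨p, q, hpp, hpN⟩ : ∃ (p : Matrix.SpecialLinearGroup (Fin 2) K) (q : K),
      p.1 = !![((a : K) ^ 2)⁻¹, q; 0, (a : K) ^ 2] ∧ p ∈ N := by
    refine ⟨_, τ * (1 - (a : K) ^ 2) * c⁻¹, ?_, hp⟩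
    have e1 : (h⁻¹).1 = !![τ, c⁻¹; -c, 0] := by
      rw [Matrix.SpecialLinearGroup.coe_inv, hh, Matrix.adjugate_fin_two]
      simp
    have e2 : ((t a)⁻¹).1 = !![((a⁻¹ : Kˣ) : K), 0; 0, (a : K)] := by
      rw [Matrix.SpecialLinearGroup.coe_inv]
      simp [t, Matrix.adjugate_fin_two]
    rw [Matrix.SpecialLinearGroup.coe_mul, Matrix.SpecialLinearGroup.coe_mul, Matrix.SpecialLinearGroup.coe_mul, e1, e2,
      hh]
    ext i j
    fin_cases i <;> fin_cases j <;>
      simp [t_val, Matrix.mul_apply, Fin.sum_univ_two] <;> field_simp <;> ring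
  apply normal_eq_top
  intro y
  have h4 : (1 : K) - ((a : K) ^ 4)⁻¹ ≠ 0 := by
    intro h0
    apply ha
    have : ((a : K) ^ 4)⁻¹ = 1 := by linear_combination -h0
    rwa [inv_eq_one] at this
  have h5 : u y = (u (y * (1 - ((a : K) ^ 4)⁻¹)⁻¹) * p * (u (y * (1 - ((a : K) ^ 4)⁻¹)⁻¹))⁻¹) *
      p⁻¹ := by
    have e3 : (p⁻¹).1 = !![(a : K) ^ 2, -q; 0, ((a : K) ^ 2)⁻¹] := by
      rw [Matrix.SpecialLinearGroup.coe_inv, hpp, Matrix.adjugate_fin_two]
      simp
    rw [← u_neg]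
    apply Subtype.ext
    rw [Matrix.SpecialLinearGroup.coe_mul, Matrix.SpecialLinearGroup.coe_mul, Matrix.SpecialLinearGroup.coe_mul, e3, hpp]
    have e4 : y * (1 - ((a : K) ^ 4)⁻¹)⁻¹ * (1 - ((a : K) ^ 4)⁻¹) = y := by
      rw [mul_assoc, inv_mul_cancel₀ h4, mul_one]
    generalize y * (1 - ((a : K) ^ 4)⁻¹)⁻¹ = s at e4
    rw [← e4]
    ext i j
    fin_cases i <;> fin_cases j <;>
      simp [u_val, Matrix.mul_apply, Fin.sum_univ_two] <;> field_simp <;> ring
  rw [h5]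
  exact mul_mem (Subgroup.Normal.conj_mem inferInstance _ hpN _) (inv_mem hpN)

lemma normal_dichotomy {N : Subgroup (Matrix.SpecialLinearGroup (Fin 2) K)} [N.Normal]
    (a : Kˣ) (ha : (a : K) ^ 4 ≠ 1) :
    N ≤ Subgroup.center _ ∨ N = ⊤ := by
  by_cases hN : ∃ g ∈ N, g.1 1 0 ≠ 0
  · obtain ⟨g, hg, hc⟩ := hN
    exact Or.inr (normal_eq_top_of_entry a ha hg hc)
  · left
    push Not at hN
    intro g hg
    have h1 := hN g hg
    have hdet := g.2
    rw [det_fin_two] at hdet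
    -- conjugate by `w`
    have h2 := hN _ (Subgroup.Normal.conj_mem inferInstance _ hg w)
    have h3 : g.1 0 1 = 0 := by
      rw [Matrix.SpecialLinearGroup.coe_mul, Matrix.SpecialLinearGroup.coe_mul, w_inv_val, w_val] at h2
      simpa [Matrix.mul_apply, Fin.sum_univ_two, Matrix.vecMul, dotProduct] using h2
    -- conjugate by `w * u 1`
    have h4 := hN _ (Subgroup.Normal.conj_mem inferInstance _ hg (w * u 1))
    have h5 : g.1 0 0 = g.1 1 1 := by
      rw [_root_.mul_inv_rev, ← u_neg, Matrix.SpecialLinearGroup.coe_mul, Matrix.SpecialLinearGroup.coe_mul,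
        Matrix.SpecialLinearGroup.coe_mul, Matrix.SpecialLinearGroup.coe_mul, w_inv_val, w_val, u_val, u_val] at h4
      simp [Matrix.mul_apply, Fin.sum_univ_two, Matrix.vecMul, dotProduct, h1, h3] at h4
      linear_combination h4
    rw [Subgroup.mem_center_iff]
    intro x
    apply sl_ext <;> simp [Matrix.mul_apply, Fin.sum_univ_two, h1, h3, h5] <;> ring

lemma simple_quotient (a : Kˣ) (ha : (a : K) ^ 4 ≠ 1) :
    IsSimpleGroup (Matrix.SpecialLinearGroup (Fin 2) K ⧸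
      Subgroup.center (Matrix.SpecialLinearGroup (Fin 2) K)) := by
  have hne : ¬ (u 1 ∈ Subgroup.center (Matrix.SpecialLinearGroup (Fin 2) K)) := by
    rw [Subgroup.mem_center_iff]
    intro h
    have h1 := congrArg (fun A => A.1 0 0) (h w)
    simp [w_val, u_val, Matrix.mul_apply, Fin.sum_univ_two] at h1
  have hnt : Nontrivial (Matrix.SpecialLinearGroup (Fin 2) K ⧸
      Subgroup.center (Matrix.SpecialLinearGroup (Fin 2) K)) := by
    refine ⟨⟨QuotientGroup.mk (u 1), 1, ?_⟩⟩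
    intro h
    rw [QuotientGroup.eq_one_iff] at h
    exact hne h
  refine { hnt with eq_bot_or_eq_top_of_normal := ?_ }
  intro H hH
  have hN : (H.comap (QuotientGroup.mk' (Subgroup.center (Matrix.SpecialLinearGroup (Fin 2) K)))).Normal :=
    hH.comap _
  rcases normal_dichotomy (N := H.comap (QuotientGroup.mk'
    (Subgroup.center (Matrix.SpecialLinearGroup (Fin 2) K)))) a ha with h | h
  · left
    rw [eq_bot_iff]
    intro x hx
    obtain ⟨g, rfl⟩ := QuotientGroup.mk'_surjective _ x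
    have h1 : g ∈ H.comap (QuotientGroup.mk'
      (Subgroup.center (Matrix.SpecialLinearGroup (Fin 2) K))) := hx
    have h2 := h h1
    rw [Subgroup.mem_bot, QuotientGroup.mk'_apply, QuotientGroup.eq_one_iff]
    exact h2
  · right
    rw [eq_top_iff]
    intro x _
    obtain ⟨g, rfl⟩ := QuotientGroup.mk'_surjective _ x
    have h1 : g ∈ H.comap (QuotientGroup.mk'
      (Subgroup.center (Matrix.SpecialLinearGroup (Fin 2) K))) := by rw [h]; exact Subgroup.mem_top _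
    exact h1

end Pool.Agent.R717.SLTwo
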