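import Mathlib

/-! Virtual integral Burau representation: the group generated by the point reflections
`x_i ↦ 2 x_j - x_i` and the permutation matrices. -/

namespace Pool.Agent.R717.VBurau

open Matrix Finset

variable {n : ℕ}

/-- Matrix of the map `x_a ↦ 2 x_a - x_b`, `x_b ↦ x_a`, other coordinates fixed. -/
def matA (a b : Fin n) : Matrix (Fin n) (Fin n) ℤ := fun i j =>
  if i = a then (if j = a then 2 else if j = b then -1 else 0)
  else if i = b then (if j = a then 1 else 0)
  else (if i = j then 1 else 0)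

/-- Matrix of the inverse map: `x_a ↦ x_b`, `x_b ↦ 2 x_b - x_a`. -/
def matAinv (a b : Fin n) : Matrix (Fin n) (Fin n) ℤ := fun i j =>
  if i = a then (if j = b then 1 else 0)
  else if i = b then (if j = b then 2 else if j = a then -1 else 0)
  else (if i = j then 1 else 0)

/-- Matrix of the map exchanging `x_a` and `x_b`. -/
def matT (a b : Fin n) : Matrix (Fin n) (Fin n) ℤ := fun i j =>
  if i = a then (if j = b then 1 else 0)
  else if i = b then (if j = a then 1 else 0)
  else (if i = j then 1 else 0)

/-- Matrix of the point reflection `x_a ↦ 2 x_b - x_a`. -/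
def matR (a b : Fin n) : Matrix (Fin n) (Fin n) ℤ := fun i j =>
  if i = a then (if j = a then -1 else if j = b then 2 else 0)
  else (if i = j then 1 else 0)

lemma matA_mulVec {a b : Fin n} (hab : a ≠ b) (x : Fin n → ℤ) :
    matA a b *ᵥ x = fun i => if i = a then 2 * x a - x b else if i = b then x a else x i := by
  funext i
  simp only [Matrix.mulVec, dotProduct, matA]
  split_ifs with h1 h2
  · have : ∀ j : Fin n, (if j = a then (2:ℤ) else if j = b then -1 else 0) * x j
        = (if j = a then 2 * x a else 0) + (if j = b then - x b else 0) := by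
      intro j
      by_cases hja : j = a
      · subst hja; simp [hab]
      · by_cases hjb : j = b
        · subst hjb; simp [hja]
        · simp [hja, hjb]
    simp_rw [this]
    rw [Finset.sum_add_distrib]
    simp; ring
  · simp
  · simp

lemma matAinv_mulVec {a b : Fin n} (hab : a ≠ b) (x : Fin n → ℤ) :
    matAinv a b *ᵥ x = fun i => if i = a then x b else if i = b then 2 * x b - x a else x i := by
  funext i
  simp only [Matrix.mulVec, dotProduct, matAinv]
  split_ifs with h1 h2
  · simp
  · have : ∀ j : Fin n, (if j = b then (2:ℤ) else if j = a then -1 else 0) * x j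
        = (if j = b then 2 * x b else 0) + (if j = a then - x a else 0) := by
      intro j
      by_cases hja : j = a
      · subst hja; simp [hab]
      · by_cases hjb : j = b
        · subst hjb; simp [hja]
        · simp [hja, hjb]
    simp_rw [this]
    rw [Finset.sum_add_distrib]
    simp; ring
  · simp

lemma matT_mulVec (a b : Fin n) (x : Fin n → ℤ) :
    matT a b *ᵥ x = fun i => if i = a then x b else if i = b then x a else x i := by
  funext i
  simp only [Matrix.mulVec, dotProduct, matT]
  split_ifs with h1 h2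
  · simp
  · simp
  · simp

lemma matR_mulVec {a b : Fin n} (hab : a ≠ b) (x : Fin n → ℤ) :
    matR a b *ᵥ x = fun i => if i = a then 2 * x b - x a else x i := by
  funext i
  simp only [Matrix.mulVec, dotProduct, matR]
  split_ifs with h1
  · have : ∀ j : Fin n, (if j = a then (-1:ℤ) else if j = b then 2 else 0) * x j
        = (if j = a then - x a else 0) + (if j = b then 2 * x b else 0) := by
      intro j
      by_cases hja : j = a
      · subst hja; simp [hab]
      · by_cases hjb : j = b
        · subst hjb; simp [hja]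
        · simp [hja, hjb]
    simp_rw [this]
    rw [Finset.sum_add_distrib]
    simp; ring
  · simp

lemma ext_mulVec {A B : Matrix (Fin n) (Fin n) ℤ} (h : ∀ x, A *ᵥ x = B *ᵥ x) : A = B := by
  apply Matrix.toLin'.injective
  apply LinearMap.ext
  intro x
  simpa using h x

lemma matA_mul_inv {a b : Fin n} (hab : a ≠ b) : matA a b * matAinv a b = 1 := by
  apply ext_mulVec
  intro x
  rw [← Matrix.mulVec_mulVec, matAinv_mulVec hab, matA_mulVec hab, Matrix.one_mulVec]
  funext i
  by_cases h1 : i = a
  · subst h1; simp [hab, hab.symm]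
  · by_cases h2 : i = b
    · subst h2; simp [hab, hab.symm]
    · simp [h1, h2]

lemma matAinv_mul {a b : Fin n} (hab : a ≠ b) : matAinv a b * matA a b = 1 := by
  apply ext_mulVec
  intro x
  rw [← Matrix.mulVec_mulVec, matAinv_mulVec hab, matA_mulVec hab, Matrix.one_mulVec]
  funext i
  by_cases h1 : i = a
  · subst h1; simp [hab, hab.symm]
  · by_cases h2 : i = b
    · subst h2; simp [hab, hab.symm]
    · simp [h1, h2]

lemma matT_mul_self (a b : Fin n) : matT a b * matT a b = 1 := by
  apply ext_mulVec
  intro x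
  rw [← Matrix.mulVec_mulVec, matT_mulVec, matT_mulVec, Matrix.one_mulVec]
  funext i
  by_cases h1 : i = a
  · subst h1
    by_cases h3 : b = i
    · subst h3; simp
    · simp [h3]
  · by_cases h2 : i = b
    · subst h2; simp [h1]
    · simp [h1, h2]

lemma matR_mul_self {a b : Fin n} (hab : a ≠ b) : matR a b * matR a b = 1 := by
  apply ext_mulVec
  intro x
  rw [← Matrix.mulVec_mulVec, matR_mulVec hab, matR_mulVec hab, Matrix.one_mulVec]
  funext i
  by_cases h1 : i = a
  · subst h1; simp [hab, hab.symm]
  · simp [h1]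

/-- the Burau block as an element of `GL_n(ℤ)` -/
def gA (a b : Fin n) (hab : a ≠ b) : GL (Fin n) ℤ :=
  ⟨matA a b, matAinv a b, matA_mul_inv hab, matAinv_mul hab⟩

/-- the transposition matrix as an element of `GL_n(ℤ)` -/
def gT (a b : Fin n) : GL (Fin n) ℤ :=
  ⟨matT a b, matT a b, matT_mul_self a b, matT_mul_self a b⟩

/-- the point reflection as an element of `GL_n(ℤ)` -/
def gR (a b : Fin n) (hab : a ≠ b) : GL (Fin n) ℤ :=
  ⟨matR a b, matR a b, matR_mul_self hab, matR_mul_self hab⟩

lemma gl_ext {A B : GL (Fin n) ℤ} (h : ∀ x : Fin n → ℤ, A.1 *ᵥ x = B.1 *ᵥ x) : A = B :=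
  Units.ext (ext_mulVec h)

lemma gA_mulVec {a b : Fin n} (hab : a ≠ b) (x : Fin n → ℤ) :
    (gA a b hab).1 *ᵥ x = fun i => if i = a then 2 * x a - x b else if i = b then x a else x i :=
  matA_mulVec hab x

lemma gT_mulVec (a b : Fin n) (x : Fin n → ℤ) :
    (gT a b).1 *ᵥ x = fun i => if i = a then x b else if i = b then x a else x i :=
  matT_mulVec a b x

lemma gR_mulVec {a b : Fin n} (hab : a ≠ b) (x : Fin n → ℤ) :
    (gR a b hab).1 *ᵥ x = fun i => if i = a then 2 * x b - x a else x i :=
  matR_mulVec hab x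

lemma mul_mulVec (A B : GL (Fin n) ℤ) (x : Fin n → ℤ) : (A * B).1 *ᵥ x = A.1 *ᵥ (B.1 *ᵥ x) := by
  rw [Units.val_mul, Matrix.mulVec_mulVec]

lemma one_mulVec' (x : Fin n → ℤ) : (1 : GL (Fin n) ℤ).1 *ᵥ x = x := by
  rw [Units.val_one, Matrix.one_mulVec]

lemma braidA {a b c : Fin n} (hab : a ≠ b) (hbc : b ≠ c) (hac : a ≠ c) :
    gA a b hab * gA b c hbc * gA a b hab = gA b c hbc * gA a b hab * gA b c hbc := by
  apply gl_ext
  intro x
  simp only [mul_mulVec, gA_mulVec]
  funext i
  by_cases h1 : i = a
  · subst h1; simp [hab, hab.symm, hbc, hbc.symm, hac, hac.symm]; try ring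
  · by_cases h2 : i = b
    · subst h2; simp [hab, hab.symm, hbc, hbc.symm, hac, hac.symm]; try ring
    · by_cases h3 : i = c
      · subst h3; simp [hab, hab.symm, hbc, hbc.symm, hac, hac.symm]; try ring
      · simp [h1, h2, h3]

lemma braidT {a b c : Fin n} (hab : a ≠ b) (hbc : b ≠ c) (hac : a ≠ c) :
    gT a b * gT b c * gT a b = gT b c * gT a b * gT b c := by
  apply gl_ext
  intro x
  simp only [mul_mulVec, gT_mulVec]
  funext i
  by_cases h1 : i = a
  · subst h1; simp [hab, hab.symm, hbc, hbc.symm, hac, hac.symm]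
  · by_cases h2 : i = b
    · subst h2; simp [hab, hab.symm, hbc, hbc.symm, hac, hac.symm]
    · by_cases h3 : i = c
      · subst h3; simp [hab, hab.symm, hbc, hbc.symm, hac, hac.symm]
      · simp [h1, h2, h3]

lemma mixedTA {a b c : Fin n} (hab : a ≠ b) (hbc : b ≠ c) (hac : a ≠ c) :
    gT a b * gT b c * gA a b hab = gA b c hbc * gT a b * gT b c := by
  apply gl_ext
  intro x
  simp only [mul_mulVec, gT_mulVec, gA_mulVec]
  funext i
  by_cases h1 : i = a
  · subst h1; simp [hab, hab.symm, hbc, hbc.symm, hac, hac.symm]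
  · by_cases h2 : i = b
    · subst h2; simp [hab, hab.symm, hbc, hbc.symm, hac, hac.symm]
    · by_cases h3 : i = c
      · subst h3; simp [hab, hab.symm, hbc, hbc.symm, hac, hac.symm]
      · simp [h1, h2, h3]

lemma farA {a b c d : Fin n} (hab : a ≠ b) (hcd : c ≠ d) (h1 : a ≠ c) (h2 : a ≠ d)
    (h3 : b ≠ c) (h4 : b ≠ d) :
    gA a b hab * gA c d hcd = gA c d hcd * gA a b hab := by
  apply gl_ext
  intro x
  simp only [mul_mulVec, gA_mulVec]
  funext i
  by_cases e1 : i = a
  · subst e1; simp [h1, h1.symm, h2, h2.symm, h3, h3.symm, h4, h4.symm]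
  · by_cases e2 : i = b
    · subst e2; simp [h1, h1.symm, h2, h2.symm, h3, h3.symm, h4, h4.symm]
    · by_cases e3 : i = c
      · subst e3; simp [h1, h1.symm, h2, h2.symm, h3, h3.symm, h4, h4.symm]
      · simp [e1, e2, h1, h1.symm, h2, h2.symm, h3, h3.symm, h4, h4.symm]

lemma farT {a b c d : Fin n} (h1 : a ≠ c) (h2 : a ≠ d)
    (h3 : b ≠ c) (h4 : b ≠ d) :
    gT a b * gT c d = gT c d * gT a b := by
  apply gl_ext
  intro x
  simp only [mul_mulVec, gT_mulVec]
  funext i
  by_cases e1 : i = a
  · subst e1; simp [h1, h2, h3, h4]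
  · by_cases e2 : i = b
    · subst e2; simp [h1, h2, h3, h4]
    · by_cases e3 : i = c
      · subst e3; simp [h1.symm, h2.symm, h3.symm, h4.symm]
      · by_cases e4 : i = d
        · subst e4; simp [h1.symm, h2.symm, h3.symm, h4.symm]
        · simp [e1, e2, e3, e4]

lemma farAT {a b c d : Fin n} (hab : a ≠ b) (h1 : a ≠ c) (h2 : a ≠ d)
    (h3 : b ≠ c) (h4 : b ≠ d) :
    gA a b hab * gT c d = gT c d * gA a b hab := by
  apply gl_ext
  intro x
  simp only [mul_mulVec, gA_mulVec, gT_mulVec]
  funext i
  by_cases e1 : i = a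
  · subst e1; simp [h1, h2, h3, h4]
  · by_cases e2 : i = b
    · subst e2; simp [h1, h2, h3, h4]
    · by_cases e3 : i = c
      · subst e3; simp [h1.symm, h2.symm, h3.symm, h4.symm]
      · by_cases e4 : i = d
        · subst e4; simp [h1.symm, h2.symm, h3.symm, h4.symm]
        · simp [e1, e2, e3, e4]

end Pool.Agent.R717.VBurau
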