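import Pool.Agent.R717.VBurau

/-! Reduction: every integer matrix, invertible over the integers, with row sums `1` and congruent
to `1` mod 2 is a product of point reflections. -/

namespace Pool.Agent.R717.VBurau

open Matrix Finset

variable {n : ℕ}

/-- right multiplication by a point reflection, entrywise -/
lemma mul_gR_apply (M : GL (Fin n) ℤ) {a b : Fin n} (hab : a ≠ b) (i k : Fin n) :
    (M * gR a b hab).1 i k =
      if k = a then - M.1 i a else if k = b then M.1 i b + 2 * M.1 i a else M.1 i k := by
  rw [Units.val_mul, Matrix.mul_apply]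
  change ∑ j, M.1 i j * matR a b j k = _
  have : ∀ j, M.1 i j * matR a b j k =
      (if j = a then M.1 i a * (if k = a then -1 else if k = b then 2 else 0) else 0)
      + (if j = k then (if k = a then 0 else M.1 i k) else 0) := by
    intro j
    unfold matR
    by_cases hja : j = a
    · subst hja
      by_cases hk : j = k
      · subst hk; simp
      · simp [hk]
    · by_cases hjk : j = k
      · subst hjk; simp [hja]
      · simp [hja, hjk]
  simp_rw [this]
  rw [Finset.sum_add_distrib, Finset.sum_ite_eq' Finset.univ a, Finset.sum_ite_eq' Finset.univ k]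
  simp only [Finset.mem_univ, if_true]
  by_cases hka : k = a
  · subst hka; simp
  · by_cases hkb : k = b
    · subst hkb; simp [hka]; ring
    · simp [hka, hkb]

/-- the invariant -/
structure Inv (S : Finset (Fin n)) (M : GL (Fin n) ℤ) : Prop where
  sum_one : ∀ i, ∑ k, M.1 i k = 1
  even : ∀ i k, i ≠ k → (2 : ℤ) ∣ M.1 i k
  odd : ∀ i, ¬ (2 : ℤ) ∣ M.1 i i
  fixed : ∀ s ∈ S, ∀ k, M.1 s k = if s = k then 1 else 0

lemma sum_update_two (f : Fin n → ℤ) {a b : Fin n} (hab : a ≠ b) (u v : ℤ) :
    ∑ k, (if k = a then u else if k = b then v else f k) = ∑ k, f k - f a - f b + u + v := by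
  have h1 : ∀ k, (if k = a then u else if k = b then v else f k)
      = f k + (if k = a then u - f a else 0) + (if k = b then v - f b else 0) := by
    intro k
    by_cases hka : k = a
    · subst hka; simp [hab]
    · by_cases hkb : k = b
      · subst hkb; simp [hka]
      · simp [hka, hkb]
  simp_rw [h1]
  rw [Finset.sum_add_distrib, Finset.sum_add_distrib]
  simp
  ring

lemma Inv.mul_gR {S : Finset (Fin n)} {M : GL (Fin n) ℤ} (h : Inv S M) {a b : Fin n}
    (hab : a ≠ b) (ha : a ∉ S) : Inv S (M * gR a b hab) := by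
  refine ⟨?_, ?_, ?_, ?_⟩
  · intro i
    simp_rw [mul_gR_apply]
    rw [sum_update_two _ hab, h.sum_one]
    ring
  · intro i k hik
    rw [mul_gR_apply]
    split_ifs with h1 h2
    · rw [dvd_neg]; subst h1; exact h.even i k hik
    · subst h2
      exact dvd_add (h.even i k hik) (dvd_mul_right _ _)
    · exact h.even i k hik
  · intro i
    rw [mul_gR_apply]
    split_ifs with h1 h2
    · rw [dvd_neg]; subst h1; exact h.odd i
    · subst h2
      have := h.odd i
      intro h3
      exact this ((Int.dvd_add_left (dvd_mul_right _ _)).1 h3)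
    · exact h.odd i
  · intro s hs k
    rw [mul_gR_apply]
    have hsa : s ≠ a := fun e => ha (e ▸ hs)
    have h0 : M.1 s a = 0 := by rw [h.fixed s hs a, if_neg hsa]
    split_ifs with h1 h2 h3 h4 h5
    · exact absurd (h2.trans h1) hsa
    · rw [h0]; simp
    · rw [h0, h.fixed s hs b]; subst h3; simp [h4]
    · rw [h0, h.fixed s hs b]; subst h3; simp [h4]
    · rw [h.fixed s hs k, if_pos h5]
    · rw [h.fixed s hs k, if_neg h5]

/-- primary potential -/
def pot (S : Finset (Fin n)) (r : Fin n) (M : GL (Fin n) ℤ) : ℕ :=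
  ∑ k ∈ Sᶜ, (M.1 r k).natAbs

/-- secondary potential -/
def pot2 (S : Finset (Fin n)) (r : Fin n) (M : GL (Fin n) ℤ) : ℕ :=
  ∑ k ∈ S, (M.1 r k).natAbs

/-- reachability by the group generated by point reflections -/
def refls (n : ℕ) : Subgroup (GL (Fin n) ℤ) :=
  Subgroup.closure {g | ∃ (a b : Fin n) (hab : a ≠ b), g = gR a b hab}

lemma gR_mem {a b : Fin n} (hab : a ≠ b) : gR a b hab ∈ refls n :=
  Subgroup.subset_closure ⟨a, b, hab, rfl⟩

/-- one descent step with opposite signs -/
lemma step_opp {S : Finset (Fin n)} {r a b : Fin n} {M : GL (Fin n) ℤ} (h : Inv S M)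
    (haS : a ∉ S) (hbS : b ∉ S) (hab : a ≠ b)
    (hsgn : M.1 r a * M.1 r b < 0) (hlt : |M.1 r a| < |M.1 r b|) :
    Inv S (M * gR a b hab) ∧ pot S r (M * gR a b hab) < pot S r M := by
  refine ⟨h.mul_gR hab haS, ?_⟩
  unfold pot
  apply Finset.sum_lt_sum
  · intro k hk
    rw [mul_gR_apply]
    split_ifs with h1 h2
    · subst h1; simp
    · subst h2
      rcases lt_or_gt_of_ne (show M.1 r a ≠ 0 by intro h0; rw [h0] at hsgn; simp at hsgn)
        with h3 | h3
      · have h4 : 0 < M.1 r k := by nlinarith
        rw [abs_of_neg h3, abs_of_pos h4] at hlt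
        omega
      · have h4 : M.1 r k < 0 := by nlinarith
        rw [abs_of_pos h3, abs_of_neg h4] at hlt
        omega
    · exact le_refl _
  · refine ⟨b, by simpa using hbS, ?_⟩
    rw [mul_gR_apply, if_neg hab.symm, if_pos rfl]
    rcases lt_or_gt_of_ne (show M.1 r a ≠ 0 by intro h0; rw [h0] at hsgn; simp at hsgn)
      with h3 | h3
    · have h4 : 0 < M.1 r b := by nlinarith
      rw [abs_of_neg h3, abs_of_pos h4] at hlt
      omega
    · have h4 : M.1 r b < 0 := by nlinarith
      rw [abs_of_pos h3, abs_of_neg h4] at hlt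
      omega

/-- descent step for a pair of opposite signs, one of which is the diagonal entry -/
lemma step_pair {S : Finset (Fin n)} {r k : Fin n} {M : GL (Fin n) ℤ} (h : Inv S M)
    (hrS : r ∉ S) (hkS : k ∉ S) (hrk : r ≠ k)
    (hsgn : M.1 r r * M.1 r k < 0) :
    ∃ g ∈ refls n, Inv S (M * g) ∧ pot S r (M * g) < pot S r M := by
  have hne : |M.1 r r| ≠ |M.1 r k| := by
    intro he
    have h1 := h.odd r
    have h2 := h.even r k hrk
    rw [← dvd_abs, ← he, dvd_abs] at h2
    exact h1 h2
  rcases lt_or_gt_of_ne hne with hlt | hlt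
  · exact ⟨gR r k hrk, gR_mem hrk, step_opp h hrS hkS hrk hsgn hlt⟩
  · exact ⟨gR k r hrk.symm, gR_mem hrk.symm,
      step_opp h hkS hrS hrk.symm (by rw [mul_comm]; exact hsgn) hlt⟩

/-- flipping the sign of an entry does not change the primary potential -/
lemma pot_flip {S : Finset (Fin n)} {r s : Fin n} {M : GL (Fin n) ℤ}
    (hrS : r ∉ S) (hs : s ∈ S) (hrs : r ≠ s) :
    pot S r (M * gR r s hrs) = pot S r M := by
  unfold pot
  apply Finset.sum_congr rfl
  intro k hk
  rw [mul_gR_apply]
  split_ifs with h1 h2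
  · subst h1; simp
  · subst h2; exact absurd hs (by simpa using hk)
  · rfl

/-- After using the primary descent: all the entries of row `r` outside `S ∪ {r}` vanish. -/
lemma primary {S : Finset (Fin n)} (hS : S.Nonempty) {r : Fin n} (hrS : r ∉ S) :
    ∀ (N : ℕ) (M : GL (Fin n) ℤ), Inv S M → pot S r M ≤ N →
      ∃ g ∈ refls n, Inv S (M * g) ∧ ∀ k, k ∉ S → k ≠ r → (M * g).1 r k = 0 := by
  intro N
  induction N with
  | zero =>
    intro M h hN
    refine ⟨1, one_mem _, by simpa using h, ?_⟩
    intro k hk hkr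
    have h0 : pot S r M = 0 := by omega
    unfold pot at h0
    rw [Finset.sum_eq_zero_iff] at h0
    have := h0 k (by simpa using hk)
    simpa using this
  | succ N ih =>
    intro M h hN
    by_cases hex : ∃ k, k ∉ S ∧ k ≠ r ∧ M.1 r k ≠ 0
    · obtain ⟨k, hkS, hkr, hk0⟩ := hex
      have hr0 : M.1 r r ≠ 0 := by
        intro h0
        exact h.odd r (by rw [h0]; exact dvd_zero _)
      have hne : M.1 r r * M.1 r k ≠ 0 := mul_ne_zero hr0 hk0
      rcases lt_or_gt_of_ne hne with hlt | hgt
      · obtain ⟨g, hg, hI, hp⟩ := step_pair h hrS hkS hkr.symm hlt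
        obtain ⟨g', hg', hI', hz⟩ := ih (M * g) hI (by omega)
        exact ⟨g * g', mul_mem hg hg', by rw [← mul_assoc]; exact hI',
          by rw [← mul_assoc]; exact hz⟩
      · obtain ⟨s, hs⟩ := hS
        have hrs : r ≠ s := fun e => hrS (e ▸ hs)
        have hks : k ≠ s := fun e => hkS (e ▸ hs)
        have h1 := h.mul_gR hrs hrS
        have h2 := pot_flip (M := M) hrS hs hrs
        have hlt : (M * gR r s hrs).1 r r * (M * gR r s hrs).1 r k < 0 := by
          rw [mul_gR_apply, mul_gR_apply, if_pos rfl, if_neg hkr, if_neg hks]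
          linarith
        obtain ⟨g, hg, hI, hp⟩ := step_pair h1 hrS hkS hkr.symm hlt
        obtain ⟨g', hg', hI', hz⟩ := ih (M * gR r s hrs * g) hI (by omega)
        exact ⟨gR r s hrs * g * g', mul_mem (mul_mem (gR_mem hrs) hg) hg',
          by simpa only [mul_assoc] using hI', by simpa only [mul_assoc] using hz⟩
    · push Not at hex
      exact ⟨1, one_mem _, by simpa using h, by simpa using hex⟩

/-- If the rows in `S` are standard and the row `r` vanishes outside `S ∪ {r}`, then the diagonal
entry is `±1`. -/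
lemma diag_unit {S : Finset (Fin n)} {r : Fin n} (hrS : r ∉ S) {M : GL (Fin n) ℤ}
    (h : Inv S M) (hz : ∀ k, k ∉ S → k ≠ r → M.1 r k = 0) :
    M.1 r r = 1 ∨ M.1 r r = -1 := by
  -- the rows of the inverse in `S` are standard too
  have hinv : ∀ s ∈ S, M⁻¹.1 s r = 0 := by
    intro s hs
    have h1 : (M.1 * M⁻¹.1) s r = 0 := by
      rw [Units.mul_inv, Matrix.one_apply_ne]
      exact fun e => hrS (e ▸ hs)
    rw [Matrix.mul_apply] at h1
    simp_rw [h.fixed s hs] at h1
    simpa using h1
  have h2 : (M.1 * M⁻¹.1) r r = 1 := by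
    rw [Units.mul_inv, Matrix.one_apply_eq]
  rw [Matrix.mul_apply, Finset.sum_eq_single r] at h2
  · rcases Int.mul_eq_one_iff_eq_one_or_neg_one.1 h2 with h3 | h3
    · exact Or.inl h3.1
    · exact Or.inr h3.1
  · intro k _ hkr
    by_cases hk : k ∈ S
    · rw [hinv k hk, mul_zero]
    · rw [hz k hk hkr, zero_mul]
  · intro hh
    exact absurd (Finset.mem_univ r) hh

/-- secondary descent -/
lemma secondary {S : Finset (Fin n)} {r : Fin n} (hrS : r ∉ S) :
    ∀ (N : ℕ) (M : GL (Fin n) ℤ), Inv S M → (∀ k, k ∉ S → k ≠ r → M.1 r k = 0) →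
      pot2 S r M ≤ N →
      ∃ g ∈ refls n, Inv (insert r S) (M * g) := by
  intro N
  induction N with
  | zero =>
    intro M h hz hN
    have h0 : pot2 S r M = 0 := by omega
    unfold pot2 at h0
    rw [Finset.sum_eq_zero_iff] at h0
    have h1 : ∀ k, k ≠ r → M.1 r k = 0 := by
      intro k hkr
      by_cases hk : k ∈ S
      · have := h0 k hk
        simpa using this
      · exact hz k hk hkr
    have h2 : M.1 r r = 1 := by
      have := h.sum_one r
      rw [Finset.sum_eq_single r (fun k _ hk => h1 k hk) (by simp)] at this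
      exact this
    refine ⟨1, one_mem _, ?_⟩
    rw [mul_one]
    refine ⟨h.sum_one, h.even, h.odd, ?_⟩
    intro s hs k
    rcases Finset.mem_insert.1 hs with rfl | hs
    · by_cases hk : s = k
      · subst hk; simp [h2]
      · rw [if_neg hk, h1 k (fun e => hk e.symm)]
    · exact h.fixed s hs k
  | succ N ih =>
    intro M h hz hN
    have hsum := h.sum_one r
    -- total = diagonal + sum over S
    have hsplit : M.1 r r + ∑ s ∈ S, M.1 r s = 1 := by
      rw [← hsum, ← Finset.sum_insert hrS]
      apply Finset.sum_subset (Finset.subset_univ _)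
      intro k _ hk
      rw [Finset.mem_insert, not_or] at hk
      exact hz k hk.2 hk.1
    have key : ∀ s ∈ S, ∀ hrs : r ≠ s, M.1 r r * M.1 r s < 0 → (M.1 r r = 1 ∨ M.1 r r = -1) →
        ∃ g ∈ refls n, Inv (insert r S) (M * g) := by
      intro s hs hrs hneg hd
      have hI := h.mul_gR hrs hrS
      have hz' : ∀ k, k ∉ S → k ≠ r → (M * gR r s hrs).1 r k = 0 := by
        intro k hk hkr
        have hks : k ≠ s := fun e => hk (e ▸ hs)
        rw [mul_gR_apply, if_neg hkr, if_neg hks]
        exact hz k hk hkr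
      have hev := h.even r s hrs
      have hp : pot2 S r (M * gR r s hrs) < pot2 S r M := by
        unfold pot2
        apply Finset.sum_lt_sum
        · intro k hk
          have hkr : k ≠ r := fun e => hrS (e ▸ hk)
          rw [mul_gR_apply, if_neg hkr]
          split_ifs with h2
          · subst h2
            rcases hd with hd | hd <;> rw [hd] at hneg ⊢ <;> omega
          · exact le_refl _
        · refine ⟨s, hs, ?_⟩
          rw [mul_gR_apply, if_neg hrs.symm, if_pos rfl]
          rcases hd with hd | hd <;> rw [hd] at hneg ⊢ <;> omega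
      obtain ⟨g, hg, hgI⟩ := ih (M * gR r s hrs) hI hz' (by omega)
      exact ⟨gR r s hrs * g, mul_mem (gR_mem hrs) hg, by rw [← mul_assoc]; exact hgI⟩
    rcases diag_unit hrS h hz with hd | hd
    · by_cases hex : ∃ s ∈ S, M.1 r s < 0
      · obtain ⟨s, hs, hneg⟩ := hex
        exact key s hs (fun e => hrS (e ▸ hs)) (by rw [hd]; linarith) (Or.inl hd)
      · push Not at hex
        have h0 : ∑ s ∈ S, M.1 r s = 0 := by linarith
        rw [Finset.sum_eq_zero_iff_of_nonneg hex] at h0
        refine ⟨1, one_mem _, ?_⟩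
        rw [mul_one]
        refine ⟨h.sum_one, h.even, h.odd, ?_⟩
        intro s hs k
        rcases Finset.mem_insert.1 hs with rfl | hs
        · by_cases hk : s = k
          · subst hk; simp [hd]
          · rw [if_neg hk]
            by_cases hkS : k ∈ S
            · exact h0 k hkS
            · exact hz k hkS (fun e => hk e.symm)
        · exact h.fixed s hs k
    · have hex : ∃ s ∈ S, 0 < M.1 r s := by
        by_contra hcon
        push Not at hcon
        have := Finset.sum_nonpos hcon
        linarith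
      obtain ⟨s, hs, hpos⟩ := hex
      exact key s hs (fun e => hrS (e ▸ hs)) (by rw [hd]; linarith) (Or.inr hd)

/-- first row -/
lemma first {r : Fin n} :
    ∀ (N : ℕ) (M : GL (Fin n) ℤ), Inv ∅ M → pot ∅ r M ≤ N →
      ∃ g ∈ refls n, Inv {r} (M * g) := by
  intro N
  induction N with
  | zero =>
    intro M h hN
    exfalso
    have h0 : pot ∅ r M = 0 := by omega
    unfold pot at h0
    rw [Finset.sum_eq_zero_iff] at h0
    have h1 := h0 r (by simp)
    apply h.odd r
    rw [Int.natAbs_eq_zero.1 h1]
    exact dvd_zero _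
  | succ N ih =>
    intro M h hN
    by_cases hex : ∃ k, k ≠ r ∧ M.1 r r * M.1 r k < 0
    · obtain ⟨k, hkr, hlt⟩ := hex
      obtain ⟨g, hg, hI, hp⟩ := step_pair h (by simp) (by simp) hkr.symm hlt
      obtain ⟨g', hg', hI'⟩ := ih (M * g) hI (by omega)
      exact ⟨g * g', mul_mem hg hg', by rw [← mul_assoc]; exact hI'⟩
    · push Not at hex
      have hr0 : M.1 r r ≠ 0 := by
        intro h0
        exact h.odd r (by rw [h0]; exact dvd_zero _)
      have hsum := h.sum_one r
      rcases lt_or_gt_of_ne hr0 with hneg | hpos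
      · exfalso
        have h1 : ∀ k ∈ (Finset.univ : Finset (Fin n)), M.1 r k ≤ 0 := by
          intro k _
          by_cases hk : k = r
          · subst hk; exact le_of_lt hneg
          · have := hex k hk
            nlinarith
        have := Finset.sum_nonpos h1
        linarith
      · have h1 : ∀ k ∈ (Finset.univ : Finset (Fin n)).erase r, 0 ≤ M.1 r k := by
          intro k hk
          have := hex k (Finset.ne_of_mem_erase hk)
          nlinarith
        rw [← Finset.add_sum_erase _ _ (Finset.mem_univ r)] at hsum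
        have h2 := Finset.sum_nonneg h1
        have h3 : ∑ k ∈ (Finset.univ : Finset (Fin n)).erase r, M.1 r k = 0 := by linarith
        have h4 : M.1 r r = 1 := by linarith
        rw [Finset.sum_eq_zero_iff_of_nonneg h1] at h3
        refine ⟨1, one_mem _, ?_⟩
        rw [mul_one]
        refine ⟨h.sum_one, h.even, h.odd, ?_⟩
        intro s hs k
        rw [Finset.mem_singleton] at hs
        subst hs
        by_cases hk : s = k
        · subst hk; simp [h4]
        · rw [if_neg hk]
          exact h3 k (by simp [Ne.symm hk])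

/-- all rows in `S` can be made standard -/
lemma all_rows (M : GL (Fin n) ℤ) (h : Inv ∅ M) (S : Finset (Fin n)) :
    ∃ g ∈ refls n, Inv S (M * g) := by
  induction S using Finset.induction_on with
  | empty => exact ⟨1, one_mem _, by simpa using h⟩
  | insert r S hrS ih =>
    obtain ⟨g, hg, hI⟩ := ih
    rcases S.eq_empty_or_nonempty with rfl | hne
    · obtain ⟨g', hg', hI'⟩ := first (r := r) _ (M * g) hI le_rfl
      refine ⟨g * g', mul_mem hg hg', ?_⟩
      rw [← mul_assoc]
      simpa using hI'
    · obtain ⟨g', hg', hI', hz⟩ := primary hne hrS _ (M * g) hI le_rfl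
      obtain ⟨g'', hg'', hI''⟩ := secondary hrS _ (M * g * g') hI' hz le_rfl
      exact ⟨g * g' * g'', mul_mem (mul_mem hg hg') hg'', by simpa only [mul_assoc] using hI''⟩

/-- The level-two subgroup with row sums one is generated by point reflections. -/
lemma mem_refls (M : GL (Fin n) ℤ) (h1 : ∀ i, ∑ k, M.1 i k = 1)
    (h2 : ∀ i k, i ≠ k → (2 : ℤ) ∣ M.1 i k) (h3 : ∀ i, ¬ (2 : ℤ) ∣ M.1 i i) :
    M ∈ refls n := by
  obtain ⟨g, hg, hI⟩ := all_rows M ⟨h1, h2, h3, by simp⟩ Finset.univ
  have h4 : M * g = 1 := by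
    apply Units.ext
    ext i k
    rw [hI.fixed i (Finset.mem_univ i) k, Units.val_one, Matrix.one_apply]
  have h5 : M = g⁻¹ := eq_inv_of_mul_eq_one_left h4
  rw [h5]
  exact inv_mem hg

end Pool.Agent.R717.VBurau
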